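import Pool.Agent.Lib.Complexity.Core

/-!
Typed polynomial time: `PT f` for functions between types coded by binary trees.
Natural numbers are coded in unary here.
-/

set_option autoImplicit false
set_option linter.unusedSimpArgs false

namespace Pool.Agent.Lib.Complexity

open Function

class Enc (α : Type) where
  enc : α → T
  inj : Injective enc

export Enc (enc)

/-- size of the code -/
def sz {α : Type} [Enc α] (a : α) : ℕ := (enc a).size

def natT : ℕ → T
  | 0 => .nil
  | n + 1 => .node .nil (natT n)

theorem size_natT (n : ℕ) : (natT n).size = n := by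
  induction n with
  | zero => rfl
  | succ n ih => simp [natT, T.size, ih]

def listT {α : Type} (e : α → T) : List α → T
  | [] => .nil
  | a :: l => .node (e a) (listT e l)

theorem listT_inj {α : Type} {e : α → T} (h : Injective e) : Injective (listT e) := by
  intro l
  induction l with
  | nil => intro l' h'; cases l' <;> simp_all [listT]
  | cons a l ih =>
    intro l' h'
    cases l' with
    | nil => simp [listT] at h'
    | cons b l' =>
      simp only [listT, T.node.injEq] at h'
      rw [h h'.1, ih h'.2]

instance : Enc T := ⟨id, injective_id⟩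
instance : Enc Unit := ⟨fun _ => .nil, fun _ _ _ => rfl⟩
instance : Enc Bool := ⟨boolT, by intro a b; cases a <;> cases b <;> simp [boolT]⟩
instance : Enc ℕ := ⟨natT, fun a b h => by rw [← size_natT a, h, size_natT]⟩
instance {α β : Type} [Enc α] [Enc β] : Enc (α × β) :=
  ⟨fun p => .node (enc p.1) (enc p.2), fun a b h => by
    simp only [T.node.injEq] at h
    exact Prod.ext (Enc.inj h.1) (Enc.inj h.2)⟩
instance {α : Type} [Enc α] : Enc (List α) := ⟨listT enc, listT_inj Enc.inj⟩
instance {α : Type} [Enc α] : Enc (Option α) :=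
  ⟨fun o => o.elim .nil fun a => .node (enc a) .nil, by
    intro a b h
    cases a <;> cases b <;> simp_all [Enc.inj.eq_iff]⟩
instance {α β : Type} [Enc α] [Enc β] : Enc (α ⊕ β) :=
  ⟨Sum.elim (fun a => .node .nil (enc a)) (fun b => .node (.node .nil .nil) (enc b)), by
    intro a b h
    cases a <;> cases b <;> simp_all [Enc.inj.eq_iff]⟩
instance {α : Type} [Enc α] {p : α → Prop} : Enc (Subtype p) :=
  ⟨fun a => enc a.1, fun _ _ h => Subtype.ext (Enc.inj h)⟩
instance {n : ℕ} : Enc (Fin n) := ⟨fun a => enc a.1, fun _ _ h => Fin.ext (Enc.inj h)⟩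

/-- transport a code along an injection -/
@[instance_reducible]
def Enc.ofInj {α β : Type} [Enc β] (f : α → β) (hf : Injective f) : Enc α :=
  ⟨fun a => enc (f a), fun _ _ h => hf (Enc.inj h)⟩

section simp_lemmas
variable {α β : Type} [Enc α] [Enc β]

@[simp] theorem enc_T (t : T) : enc t = t := rfl
@[simp] theorem enc_unit (u : Unit) : enc u = T.nil := rfl
@[simp] theorem enc_false : enc false = T.nil := rfl
@[simp] theorem enc_true : enc true = T.node .nil .nil := rfl
@[simp] theorem enc_zero : enc (0 : ℕ) = T.nil := rfl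
@[simp] theorem enc_succ (n : ℕ) : enc (n + 1) = T.node .nil (enc n) := rfl
@[simp] theorem enc_pair (a : α) (b : β) : enc (a, b) = T.node (enc a) (enc b) := rfl
@[simp] theorem enc_nil : enc ([] : List α) = T.nil := rfl
@[simp] theorem enc_cons (a : α) (l : List α) : enc (a :: l) = T.node (enc a) (enc l) := rfl
@[simp] theorem enc_none : enc (none : Option α) = T.nil := rfl
@[simp] theorem enc_some (a : α) : enc (some a) = T.node (enc a) .nil := rfl
@[simp] theorem enc_inl (a : α) : enc (Sum.inl a : α ⊕ β) = T.node .nil (enc a) := rfl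
@[simp] theorem enc_inr (b : β) : enc (Sum.inr b : α ⊕ β) = T.node (.node .nil .nil) (enc b) := rfl
@[simp] theorem enc_subtype {p : α → Prop} (a : Subtype p) : enc a = enc a.1 := rfl
@[simp] theorem enc_fin {n : ℕ} (a : Fin n) : enc a = enc a.1 := rfl

@[simp] theorem sz_T (t : T) : sz t = t.size := rfl
@[simp] theorem sz_unit (u : Unit) : sz u = 0 := rfl
@[simp] theorem sz_false : sz false = 0 := rfl
@[simp] theorem sz_true : sz true = 1 := rfl
theorem sz_bool (b : Bool) : sz b ≤ 1 := by cases b <;> simp
@[simp] theorem sz_nat (n : ℕ) : sz n = n := size_natT n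
@[simp] theorem sz_pair (a : α) (b : β) : sz (a, b) = sz a + sz b + 1 := rfl
theorem sz_prod (p : α × β) : sz p = sz p.1 + sz p.2 + 1 := rfl
@[simp] theorem sz_nil : sz ([] : List α) = 0 := rfl
@[simp] theorem sz_cons (a : α) (l : List α) : sz (a :: l) = sz a + sz l + 1 := rfl
@[simp] theorem sz_none : sz (none : Option α) = 0 := rfl
@[simp] theorem sz_some (a : α) : sz (some a) = sz a + 1 := rfl
@[simp] theorem sz_inl (a : α) : sz (Sum.inl a : α ⊕ β) = sz a + 1 := by
  simp [sz, T.size]
@[simp] theorem sz_inr (b : β) : sz (Sum.inr b : α ⊕ β) = sz b + 2 := by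
  simp [sz, T.size]; omega
@[simp] theorem sz_subtype {p : α → Prop} (a : Subtype p) : sz a = sz a.1 := rfl
@[simp] theorem sz_fin {n : ℕ} (a : Fin n) : sz a = a.1 := size_natT _

@[simp] theorem sz_append (l l' : List α) : sz (l ++ l') = sz l + sz l' := by
  induction l with
  | nil => simp
  | cons a l ih => simp [ih]; omega

@[simp] theorem sz_reverse (l : List α) : sz l.reverse = sz l := by
  induction l with
  | nil => simp
  | cons a l ih => simp [ih]; omega

theorem length_le_sz (l : List α) : l.length ≤ sz l := by
  induction l with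
  | nil => simp
  | cons a l ih => simp; omega

theorem sz_lt_of_mem {a : α} {l : List α} (h : a ∈ l) : sz a < sz l := by
  induction l with
  | nil => simp at h
  | cons b l ih =>
    rcases List.mem_cons.1 h with rfl | h
    · simp only [sz_cons]; omega
    · have := ih h; simp; omega

theorem sz_le_of_sublist {l l' : List α} (h : l.Sublist l') : sz l ≤ sz l' := by
  induction h with
  | slnil => simp
  | cons a _ ih => simp; omega
  | cons_cons a _ ih => simp; omega

theorem sz_list_le {l : List α} {B : ℕ} (h : ∀ a ∈ l, sz a ≤ B) : sz l ≤ l.length * (B + 1) := by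
  induction l with
  | nil => simp
  | cons a l ih =>
    have h1 := h a (by simp)
    have h2 := ih fun b hb => h b (by simp [hb])
    simp only [sz_cons, List.length_cons]
    nlinarith

theorem sz_list_eq (l : List α) : sz l = (l.map sz).sum + l.length := by
  induction l with
  | nil => simp
  | cons a l ih => simp [ih]; omega

theorem enc_eq_nil_list {l : List α} : enc l = T.nil ↔ l = [] := by cases l <;> simp
theorem enc_eq_nil_nat {n : ℕ} : enc n = T.nil ↔ n = 0 := by cases n <;> simp
theorem enc_eq_nil_option {o : Option α} : enc o = T.nil ↔ o = none := by cases o <;> simp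
theorem enc_eq_nil_bool {b : Bool} : enc b = T.nil ↔ b = false := by cases b <;> simp

end simp_lemmas

/-- polynomial time -/
@[fun_prop]
def PT {α β : Type} [Enc α] [Enc β] (f : α → β) : Prop :=
  RPT (fun a : α => (enc a).bits) (fun b : β => (enc b).bits) f

namespace PT

variable {α β γ δ σ : Type} [Enc α] [Enc β] [Enc γ] [Enc δ] [Enc σ]

theorem of_eq {f g : α → β} (h : PT f) (e : ∀ a, f a = g a) : PT g := by
  rwa [← funext e]

@[fun_prop] theorem id : PT fun a : α => a := RPT.id
@[fun_prop] theorem const (b : β) : PT fun _ : α => b := RPT.const b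
@[fun_prop] theorem comp {g : β → γ} {f : α → β} (hg : PT g) (hf : PT f) :
    PT fun a => g (f a) := RPT.comp hg hf
theorem comp' {g : β → γ} {f : α → β} (hg : PT g) (hf : PT f) : PT (g ∘ f) :=
  (comp hg hf).of_eq fun _ => rfl

/-- change of coding -/
theorem recode {α' β' : Type} [Enc α'] [Enc β'] {f : α → β} {f' : α' → β'} (h : PT f)
    (φ : α' → α) (h1 : ∀ a, enc (φ a) = enc a) (h2 : ∀ a, enc (f (φ a)) = enc (f' a)) :
    PT f' :=
  RPT.congr h φ (fun a => by simp only [h1]) (fun a => by simp only [h2])

theorem of_tree {F : T → T} {f : α → β} (h : PT F) (e : ∀ a, F (enc a) = enc (f a)) : PT f :=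
  h.recode enc (fun _ => rfl) e

/-- a function that does not change the code -/
theorem of_enc_eq {f : α → β} (e : ∀ a, enc (f a) = enc a) : PT f :=
  of_tree id fun a => (e a).symm

theorem out {f : α → β} {g : α → γ} (h : PT f) (e : ∀ a, enc (f a) = enc (g a)) : PT g :=
  h.recode (fun a => a) (fun _ => rfl) e

@[fun_prop] theorem prodMk {f : α → β} {g : α → γ} (hf : PT f) (hg : PT g) :
    PT fun a => (f a, g a) :=
  RPT.congr (RPT.pair hf hg) (fun a => a) (fun _ => rfl) fun _ => rfl

theorem left' : PT T.left := rpt_left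
theorem right' : PT T.right := rpt_right
@[fun_prop] theorem left {f : α → T} (hf : PT f) : PT fun a => (f a).left := comp left' hf
@[fun_prop] theorem right {f : α → T} (hf : PT f) : PT fun a => (f a).right := comp right' hf
@[fun_prop] theorem node {f g : α → T} (hf : PT f) (hg : PT g) :
    PT fun a => T.node (f a) (g a) := (hf.prodMk hg).out fun _ => rfl
@[fun_prop] theorem enc' {f : α → β} (hf : PT f) : PT fun a => enc (f a) := hf.out fun _ => rfl

@[fun_prop] theorem fst {f : α → β × γ} (hf : PT f) : PT fun a => (f a).1 :=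
  comp (g := Prod.fst) (left'.of_tree fun _ => rfl) hf
@[fun_prop] theorem snd {f : α → β × γ} (hf : PT f) : PT fun a => (f a).2 :=
  comp (g := Prod.snd) (right'.of_tree fun _ => rfl) hf
@[fun_prop] theorem subtype_val {p : β → Prop} {f : α → Subtype p} (hf : PT f) :
    PT fun a => (f a).1 := hf.out fun _ => rfl
theorem subtype_mk {p : β → Prop} {f : α → β} (hf : PT f) (h : ∀ a, p (f a)) :
    PT fun a => (⟨f a, h a⟩ : Subtype p) := hf.out fun _ => rfl
@[fun_prop] theorem fin_val {n : ℕ} {f : α → Fin n} (hf : PT f) :
    PT fun a => (f a).1 := hf.out fun _ => rfl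

theorem pb_conv {g : α → ℕ} (h : PB sz g) : PB (fun a : α => (enc a).bits.length) g :=
  h.comp (f := fun a => a) (PB.self.mono fun a => by simp [T.length_bits, sz]; omega)

theorem pb_conv' {g : α → ℕ} (h : PB (fun a : α => (enc a).bits.length) g) : PB sz g :=
  h.comp (f := fun a => a) ((((PB.const 2).mul PB.self).add (PB.const 1)).mono fun a => by
    simp [T.length_bits, sz])

/-- outputs have polynomial size -/
theorem pb {f : α → β} (h : PT f) : PB sz fun a => sz (f a) :=
  (pb_conv' (RPT.pb h)).mono fun a => by simp [T.length_bits, sz]; omega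

theorem pb_nat {f : α → ℕ} (h : PT f) : PB sz f := by simpa using h.pb

theorem head_bits (t : T) : t.bits.head? = some true ↔ t ≠ T.nil := by
  cases t <;> simp [T.bits]

/-- definition by cases on whether a code is `nil` -/
theorem cases {c : α → γ} {F : α → β} (hc : PT c)
    (h0 : PT fun a : {a // enc (c a) = T.nil} => F a.1)
    (h1 : PT fun a : {a // enc (c a) ≠ T.nil} => F a.1) : PT F :=
  RPT.cases hc
    (RPT.congr h1 (fun a => ⟨a.1, (head_bits _).1 a.2⟩) (fun _ => rfl) fun _ => rfl)
    (RPT.congr h0 (fun a => ⟨a.1, by simpa [head_bits] using a.2⟩) (fun _ => rfl) fun _ => rfl)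

theorem restrict {f : α → β} (h : PT f) (p : α → Prop) : PT fun a : Subtype p => f a.1 :=
  comp h (subtype_val id)

@[fun_prop] theorem cond {c : α → Bool} {f g : α → β} (hc : PT c) (hf : PT f) (hg : PT g) :
    PT fun a => cond (c a) (f a) (g a) :=
  cases hc ((hg.restrict _).of_eq fun a => by rw [enc_eq_nil_bool.1 a.2]; rfl)
    ((hf.restrict _).of_eq fun a => by
      have : c a.1 = true := by simpa [enc_eq_nil_bool] using a.2
      rw [this]; rfl)

@[fun_prop] theorem ite {p : α → Prop} [DecidablePred p] {f g : α → β}
    (hc : PT fun a => decide (p a)) (hf : PT f) (hg : PT g) :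
    PT fun a => if p a then f a else g a :=
  (cond hc hf hg).of_eq fun a => by by_cases h : p a <;> simp [h]

/-- definition by cases on a decidable predicate -/
theorem by_cases {p : α → Prop} [DecidablePred p] {F : α → β} (hc : PT fun a => decide (p a))
    (h1 : PT fun a : {a // p a} => F a.1) (h0 : PT fun a : {a // ¬ p a} => F a.1) : PT F :=
  cases hc (h0.recode (fun a => ⟨a.1, by simpa [enc_eq_nil_bool] using a.2⟩) (fun _ => rfl)
      fun _ => rfl)
    (h1.recode (fun a => ⟨a.1, by simpa [enc_eq_nil_bool] using a.2⟩) (fun _ => rfl) fun _ => rfl)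

theorem isNil {c : α → γ} (hc : PT c) : PT fun a => decide (enc (c a) = T.nil) :=
  cases hc ((const true).of_eq fun a => by simp [a.2]) ((const false).of_eq fun a => by simp [a.2])

@[fun_prop] theorem not {f : α → Bool} (hf : PT f) : PT fun a => !(f a) :=
  (cond hf (const false) (const true)).of_eq fun a => by cases f a <;> rfl
@[fun_prop] theorem and {f g : α → Bool} (hf : PT f) (hg : PT g) : PT fun a => (f a && g a) :=
  (cond hf hg (const false)).of_eq fun a => by cases f a <;> rfl
@[fun_prop] theorem or {f g : α → Bool} (hf : PT f) (hg : PT g) : PT fun a => (f a || g a) :=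
  (cond hf (const true) hg).of_eq fun a => by cases f a <;> rfl
@[fun_prop] theorem xor {f g : α → Bool} (hf : PT f) (hg : PT g) : PT fun a => (f a ^^ g a) :=
  (cond hf hg.not hg).of_eq fun a => by cases f a <;> simp

/-! ### iteration -/

theorem iterate_sz {c : α → γ} {init : α → σ} {step : σ → σ} (hc : PT c) (hi : PT init)
    (hs : PT step) {B : α → ℕ} (hB : PB sz B)
    (hb : ∀ a, ∀ i < sz (c a), sz (step^[i] (init a)) ≤ B a) :
    PT fun a => step^[sz (c a)] (init a) := by
  have := RPT.iterate hc hi hs (fun a => 2 * B a + 1)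
    (pb_conv (((PB.const 2).mul hB).add (PB.const 1))) (fun a i hi => by
      rw [T.count_bits] at hi
      have := hb a i hi
      simp only [T.length_bits, sz] at this ⊢
      omega)
  simp only [T.count_bits] at this
  exact this

theorem iterate_param {α σ : Type} (step : α → σ → σ) (a : α) (x : σ) (n : ℕ) :
    (fun p : α × σ => (p.1, step p.1 p.2))^[n] (a, x) = (a, (step a)^[n] x) := by
  induction n generalizing x with
  | zero => rfl
  | succ n ih => simp [ih]

/-- bounded iteration with a parameter -/
theorem iterate {n : α → ℕ} {init : α → σ} {step : α → σ → σ} (hn : PT n) (hi : PT init)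
    (hs : PT fun p : α × σ => step p.1 p.2) {B : α → ℕ} (hB : PB sz B)
    (hb : ∀ a, ∀ i < n a, sz ((step a)^[i] (init a)) ≤ B a) :
    PT fun a => (step a)^[n a] (init a) := by
  have := iterate_sz (step := fun p : α × σ => (p.1, step p.1 p.2)) hn (prodMk id hi)
    (prodMk (fst id) hs) (B := fun a => sz a + B a + 1) ((PB.self.add hB).add (PB.const 1))
    (fun a i hi => by
      rw [iterate_param]
      have := hb a i (by simpa using hi)
      simp; omega)
  exact this.snd.of_eq fun a => by simp [iterate_param]

theorem iterate_sz_add {σ : Type} [Enc σ] {step : σ → σ} {x : σ} {C : ℕ} {I : σ → Prop}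
    (h0 : I x) (hI : ∀ y, I y → I (step y)) (h : ∀ y, I y → sz (step y) ≤ sz y + C) (i : ℕ) :
    I (step^[i] x) ∧ sz (step^[i] x) ≤ sz x + i * C := by
  induction i with
  | zero => simpa using h0
  | succ i ih =>
    rw [iterate_succ_apply']
    refine ⟨hI _ ih.1, ?_⟩
    have := h _ ih.1
    nlinarith [ih.2]

/-- iteration of a step that increases the size by a polynomial amount -/
theorem iterate_add {n : α → ℕ} {init : α → σ} {step : α → σ → σ} (hn : PT n) (hi : PT init)
    (hs : PT fun p : α × σ => step p.1 p.2) {C : α → ℕ} (hC : PB sz C)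
    (hc : ∀ a x, sz (step a x) ≤ sz x + C a) : PT fun a => (step a)^[n a] (init a) :=
  iterate hn hi hs (B := fun a => sz (init a) + n a * C a) (hi.pb.add (hn.pb_nat.mul hC))
    fun a i hi => by
      have := (iterate_sz_add (I := fun _ => True) (step := step a) (x := init a)
        trivial (fun _ _ => trivial) (fun y _ => hc a y) i).2
      have h2 : i * C a ≤ n a * C a := Nat.mul_le_mul_right _ hi.le
      omega

/-! ### unary numbers -/

theorem succ {f : α → ℕ} (hf : PT f) : PT fun a => f a + 1 :=
  ((const T.nil).node hf.enc').out fun _ => rfl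

theorem pred {f : α → ℕ} (hf : PT f) : PT fun a => f a - 1 :=
  hf.enc'.right.out fun a => by cases f a <;> rfl

theorem iter_succ (n m : ℕ) : (fun x => x + 1)^[n] m = m + n := by
  induction n generalizing m with
  | zero => rfl
  | succ n ih => simp [ih]; omega

@[fun_prop] theorem sz' {f : α → β} (hf : PT f) : PT fun a => sz (f a) :=
  (iterate_sz (step := fun x : ℕ => x + 1) hf (const 0) (succ id) hf.pb fun a i hi => by
    simp [iter_succ]; omega).of_eq fun a => by simp [iter_succ]

@[fun_prop] theorem add {f g : α → ℕ} (hf : PT f) (hg : PT g) : PT fun a => f a + g a :=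
  (iterate_add (step := fun _ x => x + 1) hg hf (succ (snd id)) (PB.const 1)
    fun a x => by simp).of_eq fun a => by simp [iter_succ]

@[fun_prop] theorem nat_succ {f : α → ℕ} (hf : PT f) : PT fun a => (f a).succ := succ hf

theorem iter_pred (n m : ℕ) : (fun x => x - 1)^[n] m = m - n := by
  induction n generalizing m with
  | zero => rfl
  | succ n ih => simp [ih]; omega

@[fun_prop] theorem sub {f g : α → ℕ} (hf : PT f) (hg : PT g) : PT fun a => f a - g a :=
  (iterate_add (step := fun _ x => x - 1) hg hf (pred (snd id)) (PB.const 0)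
    fun a x => by simp).of_eq fun a => by simp [iter_pred]

theorem iter_add (k n m : ℕ) : (fun x => x + k)^[n] m = m + n * k := by
  induction n generalizing m with
  | zero => simp
  | succ n ih => simp [ih]; ring

@[fun_prop] theorem mul {f g : α → ℕ} (hf : PT f) (hg : PT g) : PT fun a => f a * g a :=
  (iterate_add (step := fun a x => x + g a) hf (const 0) (add (snd id) (comp hg (fst id)))
    hg.pb_nat fun a x => by simp).of_eq fun a => by simp [iter_add]

@[fun_prop] theorem pow_const {f : α → ℕ} (hf : PT f) (k : ℕ) : PT fun a => f a ^ k := by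
  induction k with
  | zero => exact (const 1).of_eq fun a => by simp
  | succ k ih => exact (ih.mul hf).of_eq fun a => by rw [pow_succ]

theorem poly_eval {f : α → ℕ} (hf : PT f) (p : Polynomial ℕ) : PT fun a => p.eval (f a) := by
  induction p using Polynomial.induction_on' with
  | add p q hp hq => exact (hp.add hq).of_eq fun a => by simp
  | monomial k c => exact ((const c).mul (hf.pow_const k)).of_eq fun a => by simp

theorem isZero {f : α → ℕ} (hf : PT f) : PT fun a => decide (f a = 0) :=
  (isNil hf).of_eq fun a => by simp [enc_eq_nil_nat]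

@[fun_prop] theorem dec_le {f g : α → ℕ} (hf : PT f) (hg : PT g) :
    PT fun a => decide (f a ≤ g a) :=
  (isZero (hf.sub hg)).of_eq fun a => by simp [Nat.sub_eq_zero_iff_le]

@[fun_prop] theorem dec_lt {f g : α → ℕ} (hf : PT f) (hg : PT g) :
    PT fun a => decide (f a < g a) :=
  (dec_le hf.succ hg).of_eq fun a => by simp [Nat.succ_le_iff]

@[fun_prop] theorem dec_and {p q : α → Prop} [DecidablePred p] [DecidablePred q]
    (hp : PT fun a => decide (p a)) (hq : PT fun a => decide (q a)) :
    PT fun a => decide (p a ∧ q a) := (hp.and hq).of_eq fun a => by simp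

@[fun_prop] theorem dec_or {p q : α → Prop} [DecidablePred p] [DecidablePred q]
    (hp : PT fun a => decide (p a)) (hq : PT fun a => decide (q a)) :
    PT fun a => decide (p a ∨ q a) := (hp.or hq).of_eq fun a => by simp

@[fun_prop] theorem dec_not {p : α → Prop} [DecidablePred p]
    (hp : PT fun a => decide (p a)) : PT fun a => decide (¬ p a) :=
  hp.not.of_eq fun a => by simp

@[fun_prop] theorem dec_true {f : α → Bool} (hf : PT f) : PT fun a => decide (f a = true) :=
  hf.of_eq fun a => by simp

@[fun_prop] theorem min {f g : α → ℕ} (hf : PT f) (hg : PT g) : PT fun a => min (f a) (g a) :=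
  (hf.sub (hf.sub hg)).of_eq fun a => by omega

@[fun_prop] theorem max {f g : α → ℕ} (hf : PT f) (hg : PT g) : PT fun a => max (f a) (g a) :=
  (hg.add (hf.sub hg)).of_eq fun a => by omega

end PT

example : PT fun p : ℕ × ℕ => if p.1 ≤ p.2 * p.2 + 3 ∧ p.2 < 7 then (p.1, p.2 ^ 2) else (p.2, 1) := by
  fun_prop

example {f : ℕ → ℕ → Bool} (hf : PT fun p : ℕ × ℕ => f p.1 p.2) :
    PT fun p : ℕ × ℕ × ℕ => (f p.2.1 (p.1 + 1) && !f p.1 p.1) := by
  fun_prop

end Pool.Agent.Lib.Complexity
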