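import Pool.Agent.Lib.Complexity.Rec

/-!
Binary arithmetic. `PTB f` says that the binary digits of `f a : ℕ` are computable in polynomial
time; the integers are coded in binary.
-/

set_option autoImplicit false
set_option linter.unusedSimpArgs false

namespace Pool.Agent.Lib.Complexity

open Function

/-- value of a list of binary digits, least significant first -/
def bval : Str → ℕ
  | [] => 0
  | b :: l => 2 * bval l + b.toNat

@[simp] theorem bval_nil : bval [] = 0 := rfl
@[simp] theorem bval_cons (b : Bool) (l : Str) : bval (b :: l) = 2 * bval l + b.toNat := rfl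

theorem bval_bits (n : ℕ) : bval n.bits = n := by
  induction n using Nat.binaryRec' with
  | zero => simp
  | bit b n h ih => rw [Nat.bits_append_bit n b h, bval_cons, ih, Nat.bit_val]

theorem bits_injective : Injective Nat.bits := fun m n h => by
  rw [← bval_bits m, h, bval_bits]

theorem bval_lt (l : Str) : bval l < 2 ^ l.length := by
  induction l with
  | nil => simp
  | cons b l ih => cases b <;> simp [pow_succ] <;> omega

theorem bval_append (l l' : Str) : bval (l ++ l') = bval l + 2 ^ l.length * bval l' := by
  induction l with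
  | nil => simp
  | cons b l ih => simp [ih, pow_succ]; ring

theorem bval_replicate_false (n : ℕ) : bval (List.replicate n false) = 0 := by
  induction n with
  | zero => rfl
  | succ n ih => simp [List.replicate_succ, ih]

theorem bval_map_not (l : Str) : bval (l.map fun b => !b) + bval l + 1 = 2 ^ l.length := by
  induction l with
  | nil => simp
  | cons b l ih => cases b <;> simp [pow_succ] <;> omega

theorem length_bits_le {n k : ℕ} (h : n < 2 ^ k) : n.bits.length ≤ k := by
  rw [Nat.size_eq_bits_len]; exact Nat.size_le.2 h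

theorem lt_two_pow_bits (n : ℕ) : n < 2 ^ n.bits.length := by
  rw [Nat.size_eq_bits_len]; exact Nat.lt_size_self n

theorem sz_bits_le {n k : ℕ} (h : n < 2 ^ k) : sz n.bits ≤ 2 * k := by
  have := PT.sz_str_le n.bits
  have := length_bits_le h
  omega

theorem lt_two_pow_sz (n : ℕ) : n < 2 ^ sz n.bits :=
  (lt_two_pow_bits n).trans_le (Nat.pow_le_pow_right (by omega) (length_le_sz _))

def normStep (b : Bool) (l : Str) : Str := bif l.isEmpty && !b then [] else b :: l

theorem foldr_normStep (l : Str) : l.foldr normStep [] = (bval l).bits := by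
  induction l with
  | nil => simp
  | cons b l ih =>
    rw [List.foldr_cons, ih, bval_cons, ← Nat.bit_val]
    by_cases h : bval l = 0
    · cases b <;> simp [normStep, h, Nat.bit]
    · rw [Nat.bits_append_bit _ _ fun h' => absurd h' h]
      have : (bval l).bits ≠ [] := fun e => h (bits_injective (by rw [e, Nat.zero_bits]))
      have h2 : (bval l).bits.isEmpty = false := by simpa using this
      simp [normStep, h2]

def addStep (s : Bool × Str) (p : Bool × Bool) : Bool × Str :=
  ((p.1 && p.2) || (s.1 && (p.1 || p.2)), ((p.1 ^^ p.2) ^^ s.1) :: s.2)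

theorem foldl_addStep (l : List (Bool × Bool)) (c : Bool) (acc : Str) :
    (l.foldl addStep (c, acc)).2.length = acc.length + l.length ∧
    bval ((l.foldl addStep (c, acc)).1 :: (l.foldl addStep (c, acc)).2).reverse
      = bval acc.reverse + 2 ^ acc.length * (bval (l.map Prod.fst) + bval (l.map Prod.snd) + c.toNat)
      := by
  induction l generalizing c acc with
  | nil => simp [bval_append]
  | cons p l ih =>
    obtain ⟨x, y⟩ := p
    have := ih ((x && y) || (c && (x || y))) (((x ^^ y) ^^ c) :: acc)
    simp only [List.foldl_cons, addStep] at this ⊢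
    refine ⟨by rw [this.1]; simp; omega, ?_⟩
    rw [this.2]
    cases x <;> cases y <;> cases c <;> simp [bval_append, pow_succ] <;> ring

/-- sum of two digit strings with a carry, of length `x.length + y.length + 1` -/
def addc (x y : Str) (c : Bool) : Bool × Str :=
  (x.zip y).foldl addStep (c, [])

theorem addc_spec {x y : Str} (h : x.length = y.length) (c : Bool) :
    bval (addc x y c).2.reverse + 2 ^ x.length * (addc x y c).1.toNat = bval x + bval y + c.toNat
      ∧ bval (addc x y c).2.reverse < 2 ^ x.length := by
  obtain ⟨h1, h2⟩ := foldl_addStep (x.zip y) c []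
  rw [List.map_fst_zip (by omega), List.map_snd_zip (by omega)] at h2
  have hl : (addc x y c).2.length = x.length := by simpa [h, addc] using h1
  refine ⟨?_, by simpa [hl] using bval_lt (addc x y c).2.reverse⟩
  have : bval ((addc x y c).1 :: (addc x y c).2).reverse = bval x + bval y + c.toNat := by
    simpa [addc] using h2
  rw [← this, List.reverse_cons, bval_append]
  simp [hl]

def pad (x y : Str) : Str := x ++ List.replicate y.length false

theorem bval_pad (x y : Str) : bval (pad x y) = bval x := by
  simp [pad, bval_append, bval_replicate_false]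

theorem length_pad (x y : Str) : (pad x y).length = (pad y x).length := by
  simp [pad]; omega

/-- the binary digits of `f a` are computable in polynomial time -/
abbrev PTB {α : Type} [Enc α] (f : α → ℕ) : Prop := PT fun a => (f a).bits

namespace PT
variable {α β : Type} [Enc α] [Enc β]

theorem bval {l : α → Str} (hl : PT l) : PTB fun a => bval (l a) :=
  (foldr_add' (f := fun _ => normStep) (g := fun _ _ => 2) hl (const []) (by unfold normStep; fun_prop)
    (const 2) fun a b x => by
      have := sz_bool b
      unfold normStep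
      cases (x.isEmpty && !b) <;> simp; omega).of_eq fun a => foldr_normStep _

@[fun_prop] theorem addc {x y : α → Str} {c : α → Bool} (hx : PT x) (hy : PT y) (hc : PT c) :
    PT fun a => addc (x a) (y a) (c a) :=
  foldl_add' (f := fun _ => addStep) (g := fun _ _ => 3) (hx.zip hy) (hc.prodMk (const []))
    (by unfold addStep; fun_prop) (const 3) fun a s p => by
      rw [sz_prod s]
      simp only [addStep, sz_pair, sz_cons]
      have := sz_bool ((p.1 && p.2) || (s.1 && (p.1 || p.2)))
      have := sz_bool ((p.1 ^^ p.2) ^^ s.1)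
      omega

@[fun_prop] theorem pad {x y : α → Str} (hx : PT x) (hy : PT y) : PT fun a => pad (x a) (y a) := by
  unfold Complexity.pad; fun_prop

end PT

namespace PTB
variable {α β : Type} [Enc α] [Enc β] {f g : α → ℕ}

theorem of_eq (h : PTB f) (e : ∀ a, f a = g a) : PTB g := PT.of_eq h fun a => by rw [e]

theorem const (n : ℕ) : PTB fun _ : α => n := PT.const _

theorem comp {f : β → ℕ} {g : α → β} (hf : PTB f) (hg : PT g) : PTB fun a => f (g a) :=
  PT.comp (g := fun b => (f b).bits) hf hg

theorem ite {p : α → Prop} [DecidablePred p] (hc : PT fun a => decide (p a)) (hf : PTB f)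
    (hg : PTB g) : PTB fun a => if p a then f a else g a :=
  (PT.ite hc hf hg).of_eq fun a => by by_cases h : p a <;> simp [h]

theorem add (hf : PTB f) (hg : PTB g) : PTB fun a => f a + g a := by
  have h : PT fun a => addc (pad (f a).bits (g a).bits) (pad (g a).bits (f a).bits) false := by
    fun_prop
  refine PTB.of_eq (PT.bval (h.fst.cons h.snd).reverse) fun a => ?_
  have := addc_spec (length_pad (f a).bits (g a).bits) false
  have hl := (foldl_addStep ((pad (f a).bits (g a).bits).zip (pad (g a).bits (f a).bits)) false []).1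
  rw [List.reverse_cons, bval_append, List.length_reverse]
  simp only [bval_pad, bval_bits, Bool.toNat_false, add_zero] at this
  rw [← this.1]
  simp only [List.length_nil, zero_add, List.length_zip, ← length_pad (f a).bits (g a).bits,
    min_self] at hl
  simp only [addc] at this ⊢
  rw [hl]; simp

theorem sub_aux (x y : ℕ) :
    let r := addc (pad x.bits y.bits) ((pad y.bits x.bits).map fun b => !b) true
    (r.1 = true ↔ y ≤ x) ∧ (y ≤ x → bval r.2.reverse = x - y) := by
  intro r
  have h1 := addc_spec (x := pad x.bits y.bits) (y := (pad y.bits x.bits).map fun b => !b)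
    (by simp [length_pad x.bits]) true
  have h2 := bval_map_not (pad y.bits x.bits)
  have h3 := bval_lt (pad x.bits y.bits)
  rw [← length_pad] at h2
  simp only [bval_pad, bval_bits, Bool.toNat_true] at h1 h2 h3
  change bval r.2.reverse + _ * r.1.toNat = _ ∧ bval r.2.reverse < _ at h1
  cases hr : r.1 <;> simp [hr] at h1 ⊢ <;> omega

theorem le (hf : PTB f) (hg : PTB g) : PT fun a => decide (f a ≤ g a) := by
  have h : PT fun a => (addc (pad (g a).bits (f a).bits)
      ((pad (f a).bits (g a).bits).map fun b => !b) true).1 := by fun_prop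
  refine h.of_eq fun a => ?_
  rw [Bool.eq_iff_iff, (sub_aux (g a) (f a)).1]; simp

theorem lt (hf : PTB f) (hg : PTB g) : PT fun a => decide (f a < g a) :=
  (le hg hf).not.of_eq fun a => by rw [Bool.eq_iff_iff]; simp

theorem eq (hf : PTB f) (hg : PTB g) : PT fun a => decide (f a = g a) :=
  (PT.dec_eq hf hg).of_eq fun a => by simp [bits_injective.eq_iff]

theorem sub (hf : PTB f) (hg : PTB g) : PTB fun a => f a - g a := by
  have h : PT fun a => (addc (pad (f a).bits (g a).bits)
      ((pad (g a).bits (f a).bits).map fun b => !b) true).2.reverse := by fun_prop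
  refine (ite (le hg hf) (PT.bval h) (const 0)).of_eq fun a => ?_
  split_ifs with h
  · exact (sub_aux (f a) (g a)).2 h
  · omega

theorem bit {b : α → Bool} (hb : PT b) (hf : PTB f) : PTB fun a => 2 * f a + (b a).toNat :=
  PTB.of_eq (PT.bval (hb.cons hf)) fun a => by simp [bval_bits]

theorem div2 (hf : PTB f) : PTB fun a => f a / 2 :=
  PTB.of_eq (PT.bval (PT.tail hf)) fun a => by
    conv_rhs => rw [← bval_bits (f a)]
    cases (f a).bits with
    | nil => simp
    | cons b l => cases b <;> simp; omega

/-- a fold whose accumulator is a binary number below `2 ^ B a` -/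
theorem foldr {l : α → List β} {init : α → ℕ} {F : α → β → ℕ → ℕ} (hl : PT l) (hi : PTB init)
    (hF : PTB fun p : α × β × Str => F p.1 p.2.1 (bval p.2.2)) {B : α → ℕ} (hB : PB sz B)
    (hb : ∀ a i, ((l a).drop i).foldr (F a) (init a) < 2 ^ B a) :
    PTB fun a => (l a).foldr (F a) (init a) := by
  have e : ∀ a (l : List β), l.foldr (fun b s => (F a b (bval s)).bits) (init a).bits
      = (l.foldr (F a) (init a)).bits := by
    intro a l
    induction l with
    | nil => rfl
    | cons b l ih => simp [ih, bval_bits]
  exact (PT.foldr (f := fun a b s => (F a b (bval s)).bits) hl hi hF ((PB.const 2).mul hB)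
    fun a i => by rw [e]; exact sz_bits_le (hb a i)).of_eq fun a => e a _

theorem foldr_mul (y : ℕ) (l : Str) :
    l.foldr (fun b s => 2 * s + if b = true then y else 0) 0 = bval l * y := by
  induction l with
  | nil => simp
  | cons b l ih => cases b <;> simp [ih] <;> ring

theorem mul (hf : PTB f) (hg : PTB g) : PTB fun a => f a * g a := by
  have h1 : PTB fun p : α × Bool × Str => 2 * bval p.2.2 + if p.2.1 = true then g p.1 else 0 :=
    add ((bit (PT.const false) (PT.bval (l := fun p : α × Bool × Str => p.2.2)
      (by fun_prop))).of_eq fun a => by simp)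
      (ite (by fun_prop) (hg.comp (by fun_prop)) (const 0))
  refine (foldr (F := fun a b s => 2 * s + if b = true then g a else 0) hf (const 0) h1
    ((PT.pb hf).add (PT.pb hg)) fun a i => ?_).of_eq fun a => by rw [foldr_mul, bval_bits]
  rw [foldr_mul, pow_add]
  have h2 := bval_lt ((f a).bits.drop i)
  have h3 : 2 ^ ((f a).bits.drop i).length ≤ 2 ^ sz (f a).bits :=
    Nat.pow_le_pow_right (by omega) (by have := length_le_sz (f a).bits; simp; omega)
  exact Nat.mul_lt_mul'' (h2.trans_le h3) (lt_two_pow_sz _)

/-- unary to binary -/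
theorem of_unary (hf : PT f) : PTB f := by
  have h1 : PTB fun p : α × ℕ × Str => bval p.2.2 + 1 := add (PT.bval (by fun_prop)) (const 1)
  have e : ∀ l : List ℕ, l.foldr (fun _ s => s + 1) 0 = l.length := by
    intro l; induction l <;> simp [*]
  refine (foldr (F := fun _ _ s => s + 1) hf.range (const 0) h1 hf.pb_nat
    fun a i => ?_).of_eq fun a => by simp [e]
  rw [e]
  have := Nat.lt_two_pow_self (n := f a)
  simp; omega

/-- binary to unary, truncated at a unary bound -/
theorem min_unary (hf : PTB f) (hg : PT g) : PT fun a => min (f a) (g a) := by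
  have h1 : PT fun p : α × ℕ => decide (p.2 < f p.1) :=
    lt (of_unary (by fun_prop)) (hf.comp (by fun_prop))
  refine (PT.countP (f := fun a i => decide (i < f a)) hg.range h1).of_eq fun a => ?_
  induction g a with
  | zero => simp
  | succ n ih =>
    rw [List.range_succ, List.countP_append, ih]
    by_cases h : n < f a <;> simp [h] <;> omega

theorem to_unary (hf : PTB f) (hb : PB sz f) : PT f := by
  obtain ⟨q, hq⟩ := hb
  exact (min_unary hf (PT.poly_eval (PT.sz' PT.id) q)).of_eq fun a => min_eq_left (hq a)

theorem pow (hf : PTB f) (hg : PT g) : PTB fun a => f a ^ g a := by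
  have h1 : PTB fun p : α × ℕ × Str => bval p.2.2 * f p.1 :=
    mul (PT.bval (by fun_prop)) (hf.comp (by fun_prop))
  have e : ∀ a (l : List ℕ), l.foldr (fun _ s => s * f a) 1 = f a ^ l.length := by
    intro a l; induction l <;> simp [*, pow_succ]
  refine (foldr (F := fun a _ s => s * f a) hg.range (const 1) h1
    (((PT.pb hf).mul hg.pb_nat).add (PB.const 1)) fun a i => ?_).of_eq fun a => by simp [e]
  rw [e]
  calc f a ^ ((List.range (g a)).drop i).length
      ≤ (2 ^ sz (f a).bits) ^ ((List.range (g a)).drop i).length :=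
        Nat.pow_le_pow_left (lt_two_pow_sz _).le _
    _ ≤ (2 ^ sz (f a).bits) ^ g a := Nat.pow_le_pow_right (by positivity) (by simp)
    _ < _ := by rw [← pow_mul]; exact Nat.pow_lt_pow_right (by omega) (by omega)

theorem foldr_mod (y : ℕ) (l : Str) :
    l.foldr (fun b s => if y ≤ 2 * s + b.toNat then 2 * s + b.toNat - y else 2 * s + b.toNat) 0
      = if y = 0 then bval l else bval l % y := by
  induction l with
  | nil => simp
  | cons b l ih =>
    rw [List.foldr_cons, ih]
    by_cases h : y = 0
    · simp [h]
    · simp only [h, if_false, bval_cons]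
      have h1 : bval l % y < y := Nat.mod_lt _ (by omega)
      have h2 : b.toNat ≤ 1 := Bool.toNat_le b
      have h3 : (2 * bval l + b.toNat) % y = (2 * (bval l % y) + b.toNat) % y := by
        simp [Nat.add_mod, Nat.mul_mod]
      rw [h3]
      generalize bval l % y = r at *
      split_ifs with h4
      · rw [Nat.mod_eq_sub_mod h4, Nat.mod_eq_of_lt (by omega)]
      · rw [Nat.mod_eq_of_lt (by omega)]

theorem mod (hf : PTB f) (hg : PTB g) : PTB fun a => f a % g a := by
  have h0 : PTB fun p : α × Bool × Str => 2 * bval p.2.2 + p.2.1.toNat :=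
    bit (by fun_prop) (PT.bval (by fun_prop))
  have hg' : PTB fun p : α × Bool × Str => g p.1 := hg.comp (by fun_prop)
  refine (foldr (F := fun a b s => if g a ≤ 2 * s + b.toNat then 2 * s + b.toNat - g a
    else 2 * s + b.toNat) hf (const 0) (ite (le hg' h0) (h0.sub hg') h0) (PT.pb hf)
    fun a i => ?_).of_eq fun a => ?_
  · rw [foldr_mod]
    have h2 := bval_lt ((f a).bits.drop i)
    have h3 : 2 ^ ((f a).bits.drop i).length ≤ 2 ^ sz (f a).bits :=
      Nat.pow_le_pow_right (by omega) (by have := length_le_sz (f a).bits; simp; omega)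
    have := Nat.mod_le (bval ((f a).bits.drop i)) (g a)
    split_ifs <;> omega
  · rw [foldr_mod, bval_bits]
    split_ifs with h
    · simp [h]
    · rfl

theorem div (hf : PTB f) (hg : PTB g) : PTB fun a => f a / g a := by
  have hf' : PT fun p : α × ℕ => (f p.1).bits := hf.comp (by fun_prop)
  have hm : PTB fun p : α × ℕ => bval ((f p.1).bits.drop p.2) % g p.1 :=
    mod (PT.bval (by fun_prop)) (hg.comp (by fun_prop))
  have hd : PT fun p : α × ℕ => decide (g p.1 ≤ 2 * (bval ((f p.1).bits.drop (p.2 + 1)) % g p.1)
      + ((f p.1).bits.getD p.2 false).toNat) :=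
    le (hg.comp (by fun_prop)) (bit (by fun_prop)
      (hm.comp (g := fun p : α × ℕ => (p.1, p.2 + 1)) (by fun_prop)))
  have h := PT.bval (PT.map (f := fun a i => decide (g a ≤ 2 * (bval ((f a).bits.drop (i + 1)) % g a)
      + ((f a).bits.getD i false).toNat)) (PT.length hf).range hd)
  refine (ite (eq hg (const 0)) (const 0) h).of_eq fun a => ?_
  split_ifs with h0
  · simp [h0]
  conv_rhs => rw [← bval_bits (f a)]
  generalize g a = y at h0
  induction (f a).bits with
  | nil => simp
  | cons b l ih =>
    rw [List.length_cons, List.range_succ_eq_map, List.map_cons, List.map_map, bval_cons]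
    have e : bval (List.map ((fun i => decide (y ≤ 2 * (bval ((b :: l).drop (i + 1)) % y)
        + ((b :: l).getD i false).toNat)) ∘ Nat.succ) (List.range l.length)) = bval l / y := by
      rw [← ih]; rfl
    rw [e]
    simp only [zero_add, List.drop_succ_cons, List.drop_zero, List.getD_cons_zero, bval_cons]
    have h1 : bval l % y < y := Nat.mod_lt _ (by omega)
    have h2 : b.toNat ≤ 1 := Bool.toNat_le b
    have h3 := Nat.div_add_mod (bval l) y
    symm
    by_cases h4 : y ≤ 2 * (bval l % y) + b.toNat
    · simp only [h4, decide_true, Bool.toNat_true]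
      rw [Nat.div_eq_iff (by omega)]
      have : (2 * (bval l / y) + 1) * y = 2 * (y * (bval l / y)) + y := by ring
      omega
    · simp only [h4, decide_false, Bool.toNat_false, add_zero]
      rw [Nat.div_eq_iff (by omega)]
      have : (2 * (bval l / y)) * y = 2 * (y * (bval l / y)) := by ring
      omega

end PTB

/-! ### integers in binary -/

instance : Enc ℤ :=
  Enc.ofInj (fun z => (z.toNat.bits, (-z).toNat.bits)) fun a b h => by
    simp only [Prod.mk.injEq, bits_injective.eq_iff] at h
    omega

theorem enc_int (z : ℤ) : enc z = enc (z.toNat.bits, (-z).toNat.bits) := rfl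

theorem sz_int (z : ℤ) : sz z = sz z.toNat.bits + sz (-z).toNat.bits + 1 := rfl

theorem sz_int_le {z : ℤ} {k : ℕ} (h : z.natAbs < 2 ^ k) : sz z ≤ 4 * k + 1 := by
  have h1 := sz_bits_le (n := z.toNat) (k := k) (by omega)
  have h2 := sz_bits_le (n := (-z).toNat) (k := k) (by omega)
  rw [sz_int]; omega

theorem natAbs_lt_two_pow_sz (z : ℤ) : z.natAbs < 2 ^ sz z := by
  have h1 := lt_two_pow_sz z.toNat
  have h2 := lt_two_pow_sz (-z).toNat
  have h3 : 2 ^ sz z.toNat.bits ≤ 2 ^ sz z := Nat.pow_le_pow_right (by omega) (by rw [sz_int]; omega)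
  have h4 : 2 ^ sz (-z).toNat.bits ≤ 2 ^ sz z :=
    Nat.pow_le_pow_right (by omega) (by rw [sz_int]; omega)
  omega

namespace PT
variable {α β : Type} [Enc α] [Enc β] {f g : α → ℤ}

@[fun_prop] theorem toNat_bits (hf : PT f) : PT fun a => (f a).toNat.bits :=
  fst (f := fun a => ((f a).toNat.bits, (-f a).toNat.bits)) (hf.out fun _ => rfl)

theorem neg_toNat_bits (hf : PT f) : PTB fun a => (-f a).toNat :=
  snd (f := fun a => ((f a).toNat.bits, (-f a).toNat.bits)) (hf.out fun _ => rfl)

theorem int_of_sub {f g : α → ℕ} (hf : PTB f) (hg : PTB g) : PT fun a => (f a : ℤ) - g a :=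
  (prodMk (hf.sub hg) (hg.sub hf)).out fun a => by
    rw [enc_int, show ((f a : ℤ) - g a).toNat = f a - g a by omega,
      show (-((f a : ℤ) - g a)).toNat = g a - f a by omega]

/-- a binary natural number as an integer -/
theorem int_of_bin {f : α → ℕ} (hf : PTB f) : PT fun a => (f a : ℤ) :=
  (int_of_sub hf (PTB.const 0)).of_eq fun a => by simp

theorem bin_of_int {f : α → ℕ} (hf : PT fun a => (f a : ℤ)) : PTB f :=
  PTB.of_eq (toNat_bits hf) fun a => by simp

/-- a unary natural number as an integer -/
@[fun_prop] theorem natCast {f : α → ℕ} (hf : PT f) : PT fun a => (f a : ℤ) :=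
  int_of_bin (PTB.of_unary hf)

@[fun_prop] theorem int_neg (hf : PT f) : PT fun a => -f a :=
  (int_of_sub hf.neg_toNat_bits hf.toNat_bits).of_eq fun a => by omega

@[fun_prop] theorem int_add (hf : PT f) (hg : PT g) : PT fun a => f a + g a :=
  (int_of_sub (PTB.add hf.toNat_bits hg.toNat_bits) (hf.neg_toNat_bits.add hg.neg_toNat_bits)).of_eq
    fun a => by omega

@[fun_prop] theorem int_sub (hf : PT f) (hg : PT g) : PT fun a => f a - g a :=
  (hf.int_add hg.int_neg).of_eq fun a => by ring

@[fun_prop] theorem int_mul (hf : PT f) (hg : PT g) : PT fun a => f a * g a :=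
  (int_of_sub ((PTB.mul hf.toNat_bits hg.toNat_bits).add (hf.neg_toNat_bits.mul hg.neg_toNat_bits))
    ((PTB.mul hf.toNat_bits hg.neg_toNat_bits).add (hf.neg_toNat_bits.mul hg.toNat_bits))).of_eq
    fun a => by
      have h1 := Int.toNat_sub_toNat_neg (f a)
      have h2 := Int.toNat_sub_toNat_neg (g a)
      conv_rhs => rw [← h1, ← h2]
      push_cast; ring

@[fun_prop] theorem int_le (hf : PT f) (hg : PT g) : PT fun a => decide (f a ≤ g a) :=
  (PTB.le (PTB.add hf.toNat_bits hg.neg_toNat_bits) (PTB.add hg.toNat_bits hf.neg_toNat_bits)).of_eq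
    fun a => by rw [decide_eq_decide]; omega

@[fun_prop] theorem int_lt (hf : PT f) (hg : PT g) : PT fun a => decide (f a < g a) :=
  (int_le hg hf).not.of_eq fun a => by rw [Bool.eq_iff_iff]; simp

theorem natAbs_bits (hf : PT f) : PTB fun a => (f a).natAbs :=
  (PTB.add hf.toNat_bits hf.neg_toNat_bits).of_eq fun a => by omega

@[fun_prop] theorem int_abs (hf : PT f) : PT fun a => |f a| :=
  (int_of_bin hf.natAbs_bits).of_eq fun a => by simp

@[fun_prop] theorem int_pow {g : α → ℕ} (hf : PT f) (hg : PT g) : PT fun a => f a ^ g a := by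
  have h1 := int_of_bin (hf.natAbs_bits.pow hg)
  refine (ite (p := fun a => f a < 0 ∧ g a % 2 = 1) (by fun_prop) h1.int_neg h1).of_eq fun a => ?_
  push_cast
  split_ifs with h
  · rw [abs_of_neg h.1, Odd.neg_pow (Nat.odd_iff.2 h.2), neg_neg]
  · by_cases h0 : f a < 0
    · rw [Even.pow_abs (Nat.even_iff.2 (by omega))]
    · rw [abs_of_nonneg (by omega)]

/-- truncated conversion to unary -/
@[fun_prop] theorem min_toNat {g : α → ℕ} (hf : PT f) (hg : PT g) :
    PT fun a => Min.min (f a).toNat (g a) := PTB.min_unary hf.toNat_bits hg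

@[fun_prop] theorem int_emod (hf : PT f) (hg : PT g) : PT fun a => f a % g a := by
  have h1 := int_of_bin (hf.natAbs_bits.mod hg.natAbs_bits)
  refine (ite (p := fun a => 0 ≤ f a ∨ (((f a).natAbs % (g a).natAbs : ℕ) : ℤ) = 0)
    (dec_or (by fun_prop) (dec_eq h1 (const 0))) h1
    (ite (p := fun a => g a = 0) (by fun_prop) hf (hg.int_abs.int_sub h1))).of_eq fun a => ?_
  generalize f a = x
  generalize g a = y
  rw [← Int.emod_abs x y]
  push_cast
  split_ifs with h h'
  · rcases h with h | h
    · rw [abs_of_nonneg h]
    · rw [h]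
      exact (Int.emod_eq_zero_of_dvd ((dvd_abs _ _).1 (Int.dvd_of_emod_eq_zero h))).symm
  · simp [h']
  · push Not at h
    have hy : 0 < |y| := abs_pos.2 h'
    have h2 := Int.emod_nonneg |x| hy.ne'
    have h3 := Int.emod_lt_of_pos |x| hy
    have h4 := Int.mul_ediv_add_emod |x| |y|
    have h5 := h.2
    have h6 : x = |y| - |x| % |y| + |y| * (-(|x| / |y|) - 1) := by
      have := abs_of_neg h.1
      linarith [h4, this]
    generalize |x| % |y| = r at *
    conv_rhs => rw [h6]
    rw [Int.add_mul_emod_self_left, Int.emod_eq_of_lt (by omega) (by omega)]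

@[fun_prop] theorem int_ediv (hf : PT f) (hg : PT g) : PT fun a => f a / g a := by
  have h0 : PT fun a => f a - f a % g a := by fun_prop
  have h1 := int_of_bin (h0.natAbs_bits.div hg.natAbs_bits)
  refine (ite (p := fun a => 0 ≤ (f a - f a % g a) * g a) (by fun_prop) h1 h1.int_neg).of_eq
    fun a => ?_
  generalize f a = x
  generalize g a = y
  have h2 : x - x % y = y * (x / y) := by linarith [Int.mul_ediv_add_emod x y]
  rw [h2]
  by_cases hy : y = 0
  · simp [hy]
  rw [Int.natAbs_mul, Nat.mul_div_cancel_left _ (Int.natAbs_pos.2 hy)]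
  have h3 : 0 < y * y := mul_self_pos.2 hy
  push_cast
  split_ifs with h
  · exact abs_of_nonneg (by nlinarith)
  · rw [abs_of_neg (by nlinarith), neg_neg]

@[fun_prop] theorem int_sum {l : α → List ℤ} (hl : PT l) : PT fun a => (l a).sum := by
  refine (foldr (f := fun _ b x => b + x) hl (const 0) (by fun_prop)
    (B := fun a => 4 * (2 * sz (l a)) + 1) (pb_nat (by fun_prop)) fun a i => ?_).of_eq
    fun a => by rfl
  have key : ∀ l : List ℤ, (l.foldr (fun b x => b + x) 0).natAbs < 2 ^ sz l := by
    intro l
    induction l with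
    | nil => simp
    | cons b l ih =>
      have h1 := natAbs_lt_two_pow_sz b
      have h2 : 2 ^ sz b ≤ 2 ^ (sz b + sz l) := Nat.pow_le_pow_right (by omega) (by omega)
      have h3 : 2 ^ sz l ≤ 2 ^ (sz b + sz l) := Nat.pow_le_pow_right (by omega) (by omega)
      simp only [List.foldr_cons, sz_cons, pow_succ]
      omega
  have h1 := sz_int_le (key ((l a).drop i))
  have h2 : sz ((l a).drop i) ≤ sz (l a) := sz_le_of_sublist (List.drop_sublist _ _)
  omega

end PT

end Pool.Agent.Lib.Complexity
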