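import Pool.Agent.Lib.Complexity.Binary
import Pool.Prelude.Def_F_458e953d

/-!
From `PT` to the polynomial time notion of the Prelude (bit string encodings).
-/

set_option autoImplicit false
set_option linter.unusedSimpArgs false

namespace Pool.Agent.Lib.Complexity

open Function N487b59b3 N68a2faeb Computability

theorem encodePosNum_eq (n : PosNum) : encodePosNum n = (n : ℕ).bits := by
  induction n with
  | one => simp [encodePosNum]
  | bit0 n ih =>
    rw [encodePosNum, ih, PosNum.cast_bit0, ← two_mul, Nat.bit0_bits _ (PosNum.to_nat_pos n).ne']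
  | bit1 n ih => rw [encodePosNum, ih, PosNum.cast_bit1, ← two_mul, Nat.bit1_bits]

theorem encodeNat_eq (n : ℕ) : encodeNat n = n.bits := by
  have : ∀ m : Num, encodeNum m = (m : ℕ).bits := by
    intro m
    cases m with
    | zero => simp [encodeNum]
    | pos p => exact encodePosNum_eq p
  rw [encodeNat, this, Num.to_of_nat]

theorem decodePosNum_eq (l : Str) :
    (decodePosNum l : ℕ) = if l.getLast? = some true then bval l else bval (l ++ [true]) := by
  induction l with
  | nil => simp [decodePosNum]
  | cons b l ih =>
    by_cases h : l = []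
    · subst h; cases b <;> simp [decodePosNum]
    · rw [List.getLast?_cons_of_ne_nil h]
      cases b
      · rw [decodePosNum, PosNum.cast_bit0, ih]; split_ifs <;> simp <;> omega
      · rw [decodePosNum, if_neg h, PosNum.cast_bit1, ih]; split_ifs <;> simp <;> omega

theorem decodeNat_eq (l : Str) :
    decodeNat l = bval (if l.getLast? = some false then l ++ [true] else l) := by
  by_cases h : l = []
  · subst h; simp [decodeNat, decodeNum]
  · simp only [decodeNat, decodeNum, if_neg h]
    have e : ((((decodePosNum l : PosNum) : Num)) : ℕ) = (decodePosNum l : ℕ) := by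
      rw [PosNum.cast_to_num]; rfl
    rw [e, decodePosNum_eq]
    rw [List.getLast?_eq_some_getLast h]
    cases l.getLast h <;> simp

namespace PT
variable {α β γ : Type} [Enc α] [Enc β] [Enc γ]

theorem decodeNat {l : α → Str} (hl : PT l) : PTB fun a => decodeNat (l a) :=
  PTB.of_eq (PT.bval (l := fun a => if (l a).getLast? = Option.some false then l a ++ [true] else l a)
    (by fun_prop)) fun a => (decodeNat_eq _).symm

@[fun_prop] theorem delimit {l : α → Str} (hl : PT l) : PT fun a => delimit (l a) :=
  (append (flatMap (f := fun _ b => [true, b]) hl (by fun_prop)) (const [false])).of_eq fun a => by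
    induction l a with
    | nil => rfl
    | cons b l ih => simp [N487b59b3.delimit, ← ih]

def undStep (s : ℕ × Str × Str) (b : Bool) : ℕ × Str × Str :=
  if s.1 = 0 then (bif b then (1, s.2) else (2, s.2))
  else if s.1 = 1 then (0, b :: s.2.1, s.2.2) else (2, s.2.1, b :: s.2.2)

def undOut (s : ℕ × Str × Str) : Option (Str × Str) :=
  if s.1 = 2 then Option.some (s.2.1.reverse, s.2.2.reverse) else none

theorem und_two (l acc rest : Str) : l.foldl undStep (2, acc, rest) = (2, acc, l.reverse ++ rest) := by
  induction l generalizing rest with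
  | nil => rfl
  | cons b l ih => simp [undStep, ih]

theorem und_zero (l acc : Str) : undOut (l.foldl undStep (0, acc, []))
    = (N487b59b3.undelimit l).map fun p => (acc.reverse ++ p.1, p.2) := by
  induction l using N487b59b3.undelimit.induct generalizing acc with
  | case1 rest => simp [undStep, und_two, undOut, N487b59b3.undelimit]
  | case2 b input ih =>
    simp only [List.foldl_cons, N487b59b3.undelimit]
    rw [show undStep (undStep (0, acc, []) true) b = (0, b :: acc, []) by simp [undStep], ih]
    cases N487b59b3.undelimit input <;> simp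
  | case3 l h1 h2 =>
    rcases l with _ | ⟨b, _ | ⟨c, l⟩⟩
    · simp [undOut, N487b59b3.undelimit]
    · cases b
      · exact absurd rfl (h1 _)
      · simp [undOut, undStep, N487b59b3.undelimit]
    · cases b
      · exact absurd rfl (h1 _)
      · exact absurd rfl (h2 _ _)

@[fun_prop] theorem undelimit {l : α → Str} (hl : PT l) : PT fun a => undelimit (l a) := by
  have h1 := foldl_add' (f := fun _ => undStep) (g := fun _ _ => 4) hl
    (const ((0, [], []) : ℕ × Str × Str)) (by unfold undStep; fun_prop) (const 4) (fun a s b => by
      obtain ⟨m, x, y⟩ := s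
      have := sz_bool b
      unfold undStep
      split_ifs
      · cases b <;> simp <;> omega
      · simp; omega
      · simp; omega)
  have h2 : PT undOut := by unfold undOut; fun_prop
  refine (comp h2 h1).of_eq fun a => ?_
  rw [und_zero]
  cases N487b59b3.undelimit (l a) <;> simp

theorem undelimit_sz {l : Str} {p : Str × Str} (h : N487b59b3.undelimit l = Option.some p) :
    sz p.1 + sz p.2 + 1 ≤ sz l ∧ p.2.length < l.length := by
  induction l using N487b59b3.undelimit.induct generalizing p with
  | case1 rest => simp [N487b59b3.undelimit] at h; subst h; simp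
  | case2 b input ih =>
    simp only [N487b59b3.undelimit, Option.map_eq_some_iff] at h
    obtain ⟨q, hq, rfl⟩ := h
    have := ih hq
    simp; omega
  | case3 l h1 h2 => rw [N487b59b3.undelimit.eq_3 _ h1 h2] at h; simp at h

def blkStep (s : Option (List Str × Str)) : Option (List Str × Str) :=
  s.bind fun p => bif p.2.isEmpty then Option.some p else
    (N487b59b3.undelimit p.2).map fun q => (q.1 :: p.1, q.2)

theorem blk_iter (n : ℕ) (acc : List Str) (l : Str) (h : l.length ≤ n) :
    (blkStep^[n] (Option.some (acc, l))).map (fun p => p.1.reverse)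
      = (undelimitBlocksAux n l).map fun r => acc.reverse ++ r := by
  induction n generalizing acc l with
  | zero =>
    obtain rfl : l = [] := List.eq_nil_of_length_eq_zero (by omega)
    simp [undelimitBlocksAux]
  | succ n ih =>
    cases l with
    | nil =>
      rw [iterate_fixed (by simp [blkStep])]; simp [undelimitBlocksAux]
    | cons b l =>
      rw [iterate_succ_apply, undelimitBlocksAux.eq_3 _ _ (by simp)]
      cases hq : N487b59b3.undelimit (b :: l) with
      | none =>
        rw [show blkStep (Option.some (acc, b :: l)) = none by simp [blkStep, hq],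
          iterate_fixed (by simp [blkStep])]
        simp
      | some q =>
        rw [show blkStep (Option.some (acc, b :: l)) = Option.some (q.1 :: acc, q.2) by
          simp [blkStep, hq], ih _ _ (by have := (undelimit_sz hq).2; simp at this h; omega)]
        simp only [Option.bind_some]
        cases undelimitBlocksAux n q.2 <;> simp

@[fun_prop] theorem undelimitBlocks {l : α → Str} (hl : PT l) :
    PT fun a => undelimitBlocks (l a) := by
  have h1 := iterate_add (step := fun _ => blkStep) hl.length
    (init := fun a => Option.some (([] : List Str), l a)) (by fun_prop)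
    (by unfold blkStep; fun_prop) (PB.const 0) (fun a s => by
      rcases s with _ | ⟨x, y⟩
      · simp [blkStep]
      · cases y with
        | nil => simp [blkStep]
        | cons b y =>
          cases hq : N487b59b3.undelimit (b :: y) with
          | none => simp [blkStep, hq]
          | some q =>
            have := (undelimit_sz hq).1
            simp [blkStep, hq] at this ⊢; omega)
  refine (option_map (f := fun _ p => p.1.reverse) h1 (by fun_prop)).of_eq fun a => ?_
  rw [blk_iter _ _ _ le_rfl, N487b59b3.undelimitBlocks]
  simp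

@[fun_prop] theorem mapM_option {l : α → List β} {f : α → β → Option γ} (hl : PT l)
    (hf : PT fun p : α × β => f p.1 p.2) : PT fun a => (l a).mapM (f a) := by
  have : PT fun a => bif (l a).all (fun b => (f a b).isSome)
      then Option.some ((l a).filterMap (f a)) else none := by fun_prop
  refine this.of_eq fun a => ?_
  induction l a with
  | nil => rfl
  | cons b l ih =>
    rw [List.mapM_cons, ← ih]
    cases h : f a b with
    | none => simp [h]
    | some c => cases h' : l.all (fun b => (f a b).isSome) <;> simp [h, h']

end PT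

/-- `α'` represents the Prelude-encoded type `α` in the `PT` world (binary `ℕ` becomes `ℤ`). -/
class Rep (α : Type) [N487b59b3 α] (α' : outParam Type) [Enc α'] where
  up : α → α'
  down : α' → α
  down_up : ∀ a, down (up a) = a
  dec_pt : PT fun l : Str => (bitDecode l : Option α).map up
  enc_pt : PT fun a : α' => bitEncode (down a)

attribute [simp] Rep.down_up

instance : Rep Bool Bool where
  up := id
  down := id
  down_up _ := rfl
  dec_pt := by
    have : PT fun l : Str => if l.length = 1 then l.head? else none := by fun_prop
    refine this.of_eq fun l => ?_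
    rcases l with _ | ⟨b, _ | ⟨c, l⟩⟩ <;> rfl
  enc_pt := (by fun_prop : PT fun b : Bool => [b])

instance : Rep ℕ ℤ where
  up n := n
  down z := z.toNat
  down_up _ := rfl
  dec_pt := (PT.int_of_bin (PT.decodeNat PT.id)).some
  enc_pt := (PT.toNat_bits PT.id).of_eq fun _ => (encodeNat_eq _).symm

instance {α β α' β' : Type} [N487b59b3 α] [N487b59b3 β] [Enc α'] [Enc β'] [Rep α α'] [Rep β β'] :
    Rep (α × β) (α' × β') where
  up p := (Rep.up p.1, Rep.up p.2)
  down p := (Rep.down p.1, Rep.down p.2)
  down_up _ := by simp
  dec_pt := by
    have h1 := Rep.dec_pt (α := α)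
    have h2 := Rep.dec_pt (α := β)
    have : PT fun l : Str => (undelimit l).bind fun p =>
        ((bitDecode p.1 : Option α).map Rep.up).bind fun a =>
          ((bitDecode p.2 : Option β).map Rep.up).map fun b => (a, b) :=
      PT.option_bind (by fun_prop) (PT.option_bind (h1.comp (f := fun p : Str × Str × Str => p.2.1)
        (by fun_prop)) (PT.option_map (h2.comp (f := fun p : (Str × Str × Str) × α' => p.1.2.2)
        (by fun_prop)) (by fun_prop)))
    refine this.of_eq fun l => ?_
    change _ = Option.map _ (match undelimit l with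
      | none => none
      | some (block, rest) =>
        match (bitDecode block : Option α), (bitDecode rest : Option β) with
        | some a, some b => some (a, b)
        | _, _ => none)
    rcases undelimit l with _ | ⟨x, y⟩
    · rfl
    · simp only [Option.bind_some]
      cases (bitDecode x : Option α) <;> cases (bitDecode y : Option β) <;> rfl
  enc_pt := PT.append (PT.delimit ((Rep.enc_pt (α := α)).comp (PT.fst PT.id)))
    ((Rep.enc_pt (α := β)).comp (PT.snd PT.id))

instance {α α' : Type} [N487b59b3 α] [Enc α'] [Rep α α'] : Rep (List α) (List α') where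
  up l := l.map Rep.up
  down l := l.map Rep.down
  down_up l := by simp [comp_def]
  dec_pt := by
    have h1 := Rep.dec_pt (α := α)
    have : PT fun l : Str => (undelimitBlocks l).bind fun bs =>
        bs.mapM fun b => (bitDecode b : Option α).map Rep.up :=
      PT.option_bind (by fun_prop) (PT.mapM_option (by fun_prop)
        (h1.comp (f := fun p : (Str × List Str) × Str => p.2) (by fun_prop)))
    refine this.of_eq fun l => ?_
    change _ = Option.map _ ((undelimitBlocks l).bind (·.mapM bitDecode))
    rcases undelimitBlocks l with _ | bs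
    · rfl
    · simp only [Option.bind_some]
      induction bs with
      | nil => rfl
      | cons b bs ih =>
        rw [List.mapM_cons, List.mapM_cons, ih]
        cases (bitDecode b : Option α) <;> cases (bs.mapM bitDecode : Option (List α)) <;> rfl
  enc_pt := by
    have h1 := Rep.enc_pt (α := α)
    have : PT fun l : List α' => l.flatMap fun a => delimit (bitEncode (Rep.down a : α)) :=
      PT.flatMap PT.id (PT.delimit (h1.comp (PT.snd PT.id)))
    refine this.of_eq fun l => ?_
    change _ = (((l.map Rep.down).map bitEncode).map delimit).flatten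
    simp [List.flatMap_def, comp_def]

instance : Rep ℤ ℤ where
  up := id
  down := id
  down_up _ := rfl
  dec_pt := by
    have h1 := Rep.dec_pt (α := ℕ × ℕ)
    refine (PT.option_map (f := fun _ p => p.1 - p.2) h1 (by fun_prop)).of_eq fun l => ?_
    change _ = Option.map _ ((bitDecode l : Option (ℕ × ℕ)).bind _)
    cases (bitDecode l : Option (ℕ × ℕ)) <;> rfl
  enc_pt := ((Rep.enc_pt (α := ℕ × ℕ)).comp (f := fun z : ℤ => (z, -z)) (by fun_prop)).of_eq
    fun _ => rfl

section simp_lemmas
variable {α β α' β' : Type} [N487b59b3 α] [N487b59b3 β] [Enc α'] [Enc β'] [Rep α α'] [Rep β β']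
@[simp] theorem up_bool (b : Bool) : Rep.up b = b := rfl
@[simp] theorem down_bool (b : Bool) : (Rep.down b : Bool) = b := rfl
@[simp] theorem up_nat (n : ℕ) : Rep.up n = (n : ℤ) := rfl
@[simp] theorem down_nat (z : ℤ) : (Rep.down z : ℕ) = z.toNat := rfl
@[simp] theorem up_int (z : ℤ) : Rep.up z = z := rfl
@[simp] theorem down_int (z : ℤ) : (Rep.down z : ℤ) = z := rfl
@[simp] theorem up_prod (p : α × β) : Rep.up p = ((Rep.up p.1 : α'), (Rep.up p.2 : β')) := rfl
@[simp] theorem down_prod (p : α' × β') :
    (Rep.down p : α × β) = (Rep.down p.1, Rep.down p.2) := rfl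
@[simp] theorem up_list (l : List α) : Rep.up l = (l.map Rep.up : List α') := rfl
@[simp] theorem down_list (l : List α') : (Rep.down l : List α) = l.map Rep.down := rfl
theorem up_str (l : Str) : Rep.up l = l := List.map_id l
theorem down_str (l : Str) : (Rep.down l : Str) = l := List.map_id l
end simp_lemmas

/-- general bridge -/
theorem isPolyTime_of_rep {α β α' β' : Type} [N487b59b3 α] [N487b59b3 β] [Enc α'] [Enc β']
    [Rep α α'] [Rep β β'] {f : α → β} {f' : α' → β'} (h : PT f')
    (e : ∀ a, Rep.down (f' (Rep.up a)) = f a) : IsPolyTime f := by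
  have h1 : PT fun l : Str => ((bitDecode l : Option α).map Rep.up).elim []
      fun a => bitEncode (Rep.down (f' a) : β) :=
    PT.option_elim (Rep.dec_pt (α := α)) (PT.const _)
      ((Rep.enc_pt (α := β)).comp (h.comp (PT.snd PT.id)))
  exact tm2_of_str h1 fun a => by
    change ((bitDecode (bitEncode a) : Option α).map Rep.up).elim _ _ = bitEncode (f a)
    simp [e]

theorem PT.isPolyTime_str {f : Str → Str} (h : PT f) : IsPolyTime f :=
  isPolyTime_of_rep h fun a => by rw [up_str, down_str]

theorem PT.isPolyTime_pred {f : Str → Bool} (h : PT f) : IsPolyTime f :=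
  isPolyTime_of_rep h fun a => by rw [up_str, down_bool]

theorem PT.isPolyTime_rel {f : Str × Str → Bool} (h : PT f) : IsPolyTime f :=
  isPolyTime_of_rep h fun a => by rw [up_prod, up_str, up_str, down_bool]

theorem PT.isPolyTime_str2 {f : Str × Str → Str} (h : PT f) : IsPolyTime f :=
  isPolyTime_of_rep h fun a => by rw [up_prod, up_str, up_str, down_str]

theorem PT.mem_P {L : DecisionProblem} (h : PT L) : L ∈ P := h.isPolyTime_pred

theorem mem_NP_of_PT {L : DecisionProblem} {R : Str × Str → Bool} (hR : PT R) (p : Polynomial ℕ)
    (h : ∀ x, L x ↔ ∃ w : Str, w.length ≤ p.eval x.length ∧ R (x, w)) : L ∈ NP :=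
  ⟨p, R, hR.isPolyTime_rel, h⟩

theorem manyOne_of_PT {A B : DecisionProblem} {f : Str → Str} (hf : PT f)
    (h : ∀ x, A x = B (f x)) : N793a5b8e.ManyOneReducible A B :=
  ⟨f, hf.isPolyTime_str, h⟩

/-- witnesses of any coded type may be used to show membership in `NP` -/
theorem mem_NP_of_witness {W : Type} [Enc W] {L : DecisionProblem} {R : Str × W → Bool}
    {rd : T → W} (hrd : PT rd) (hinv : ∀ w, rd (enc w) = w) (hR : PT R) (p : Polynomial ℕ)
    (h1 : ∀ x w, R (x, w) → L x) (h2 : ∀ x, L x → ∃ w, sz w ≤ p.eval x.length ∧ R (x, w)) :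
    L ∈ NP := by
  refine mem_NP_of_PT (R := fun q => R (q.1, rd (PT.parse q.2)))
    (hR.comp (PT.prodMk (by fun_prop) (hrd.comp (PT.parse'.comp (by fun_prop)))))
    (2 * p + 1) fun x => ⟨fun hx => ?_, fun ⟨w, _, hw⟩ => h1 x _ hw⟩
  obtain ⟨w, hw, hRw⟩ := h2 x hx
  refine ⟨(enc w).bits, ?_, by simpa [PT.parse_bits', hinv] using hRw⟩
  rw [T.length_bits]
  simp only [Polynomial.eval_add, Polynomial.eval_mul, Polynomial.eval_ofNat, Polynomial.eval_one]
  unfold sz at hw; omega

/-- a total polynomial time reader of codes -/
class Rd (α : Type) [Enc α] where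
  rd : T → α
  rd_enc : ∀ a, rd (enc a) = a
  rd_pt : PT rd

export Rd (rd)
attribute [simp] Rd.rd_enc

@[fun_prop] theorem PT.rd {α β : Type} [Enc α] [Enc β] [Rd β] {f : α → T} (hf : PT f) :
    PT fun a => (rd (f a) : β) := Rd.rd_pt.comp hf

def spine : T → List T
  | .nil => []
  | .node l r => l :: spine r

theorem enc_spine (t : T) : enc (spine t) = t := by
  induction t with
  | nil => rfl
  | node l r _ ih => rw [spine, enc_cons, ih]; rfl

theorem spine_enc {α : Type} [Enc α] (l : List α) : spine (enc l) = l.map enc := by
  induction l with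
  | nil => rfl
  | cons a l ih => simp [spine, ih]

@[fun_prop] theorem PT.spine {α : Type} [Enc α] {f : α → T} (hf : PT f) :
    PT fun a => spine (f a) := hf.out fun a => (enc_spine _).symm

instance : Rd T := ⟨fun t => t, fun _ => rfl, PT.id⟩
instance : Rd Unit := ⟨fun _ => (), fun _ => rfl, PT.const _⟩
instance : Rd Bool := ⟨fun t => decide (t ≠ .nil), fun b => by cases b <;> simp, by fun_prop⟩
instance : Rd ℕ := ⟨fun t => sz t, fun n => sz_nat n, by fun_prop⟩
instance {α β : Type} [Enc α] [Enc β] [Rd α] [Rd β] : Rd (α × β) :=
  ⟨fun t => (rd t.left, rd t.right), fun ⟨a, b⟩ => by simp [T.left, T.right], by fun_prop⟩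
instance {α : Type} [Enc α] [Rd α] : Rd (List α) :=
  ⟨fun t => (spine t).map fun x => rd x, fun l => by simp [spine_enc, comp_def], by fun_prop⟩
instance {α : Type} [Enc α] [Rd α] : Rd (Option α) :=
  ⟨fun t => if t = .nil then none else some (rd t.left),
    fun o => by cases o <;> simp [T.left], by fun_prop⟩
instance {α β : Type} [Enc α] [Enc β] [Rd α] [Rd β] : Rd (α ⊕ β) :=
  ⟨fun t => if t.left = .nil then Sum.inl (rd t.right) else Sum.inr (rd t.right),
    fun o => by cases o <;> simp [T.left, T.right], by fun_prop⟩
instance : Rd ℤ :=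
  ⟨fun t => (bval (rd t.left) : ℤ) - bval (rd t.right),
    fun z => by simp [enc_int, T.left, T.right, bval_bits],
    PT.int_of_sub (PT.bval (by fun_prop)) (PT.bval (by fun_prop))⟩

/-- membership in `NP` with typed witnesses -/
theorem mem_NP_of_rd {W : Type} [Enc W] [Rd W] {L : DecisionProblem} {R : Str × W → Bool}
    (hR : PT R) (p : Polynomial ℕ) (h1 : ∀ x w, R (x, w) → L x)
    (h2 : ∀ x, L x → ∃ w, sz w ≤ p.eval x.length ∧ R (x, w)) : L ∈ NP :=
  mem_NP_of_witness Rd.rd_pt Rd.rd_enc hR p h1 h2

/-- decoding a Prelude-encoded input, as a `PT` function -/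
theorem PT.decode (β : Type) {β' α : Type} [N487b59b3 β] [Enc β'] [Rep β β'] [Enc α]
    {l : α → Str} (hl : PT l) : PT fun a => ((bitDecode (l a) : Option β).map Rep.up : Option β') :=
  (Rep.dec_pt (α := β)).comp hl

/-- producing a Prelude-encoded output, as a `PT` function -/
theorem PT.encode (β : Type) {β' α : Type} [N487b59b3 β] [Enc β'] [Rep β β'] [Enc α]
    {f : α → β'} (hf : PT f) : PT fun a => bitEncode (Rep.down (f a) : β) :=
  (Rep.enc_pt (α := β)).comp hf

end Pool.Agent.Lib.Complexity
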