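import Pool.Agent.Lib.Complexity.Tableau
import Pool.Agent.Lib.Complexity.Bridge

/-!
From the polynomial time notion of the Prelude back to `PT`; the theorem of Cook and Levin;
hardness of satisfiability, of 3-satisfiability and of independent set.
-/

namespace Pool.Agent.Lib.Complexity

open Function N487b59b3 N68a2faeb

theorem pt_of_isPolyTime {α β α' β' : Type} [N487b59b3 α] [N487b59b3 β] [Enc α'] [Enc β']
    [Rep α α'] [Rep β β'] {f : α → β} (h : IsPolyTime f) :
    PT (fun a : α' => (Rep.up (f (Rep.down a)) : β')) := by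
  obtain ⟨h⟩ := h
  obtain ⟨F, hF, e⟩ := pt_of_tm2 h
  have h1 := PT.decode β (hF.comp (Rep.enc_pt (α := α)))
  refine h1.enc'.left.out fun a => ?_
  have e1 : F (bitEncode (Rep.down a : α)) = bitEncode (f (Rep.down a)) := e _
  rw [e1, bitDecode_bitEncode]
  rfl

theorem pt_of_isPolyTime_str {f : Str → Str} (h : IsPolyTime f) : PT f :=
  (pt_of_isPolyTime h).of_eq fun a => by rw [up_str, down_str]

theorem pt_of_isPolyTime_pred {f : Str → Bool} (h : IsPolyTime f) : PT f :=
  (pt_of_isPolyTime h).of_eq fun a => by rw [up_bool, down_str]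

theorem pt_of_isPolyTime_rel {f : Str × Str → Bool} (h : IsPolyTime f) : PT f :=
  (pt_of_isPolyTime h).of_eq fun a => by rw [up_bool, down_prod, down_str, down_str]

theorem pt_of_isPolyTime_str2 {f : Str × Str → Str} (h : IsPolyTime f) : PT f :=
  (pt_of_isPolyTime h).of_eq fun a => by rw [up_str, down_prod, down_str, down_str]

theorem isPolyTime_comp {α β γ : Type} [N487b59b3 α] [N487b59b3 β] [N487b59b3 γ] {f : α → β}
    {g : β → γ} (hg : IsPolyTime g) (hf : IsPolyTime f) : IsPolyTime (fun a => g (f a)) :=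
  tm2_comp hf hg

theorem mem_P_of_manyOne {A B : DecisionProblem} (h : N793a5b8e.ManyOneReducible A B)
    (hB : B ∈ P) : A ∈ P := by
  obtain ⟨f, hf, e⟩ := h
  have : IsPolyTime (fun x => B (f x)) := isPolyTime_comp hB hf
  rwa [show (fun x => B (f x)) = A from funext fun x => (e x).symm] at this

/-- Cook and Levin with designated witness variables, for the Prelude notion. -/
theorem cook_levin_rel {R : Str × Str → Bool} (hR : IsPolyTime R) :
    ∃ ψ : Str × ℕ → CNF, PT ψ ∧ ∀ (x w : Str), R (x, w) = true ↔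
      ∃ v : ℕ → Bool, (∀ i < w.length, w[i]? = some (v i)) ∧ (ψ (x, w.length)).Sat v :=
  cook_levin_pt (pt_of_isPolyTime_rel hR)

/-- witnesses of exactly the prescribed length -/
theorem np_exact {L : DecisionProblem} (hL : L ∈ NP) :
    ∃ (p : Polynomial ℕ) (R : Str × Str → Bool), PT R ∧
      ∀ x, L x = true ↔ ∃ w : Str, w.length = p.eval x.length ∧ R (x, w) = true := by
  obtain ⟨p, R, hR, h⟩ := hL
  have hR' := pt_of_isPolyTime_rel hR
  have hp : PT (fun x : Str => p.eval x.length) := PT.poly_eval (by fun_prop) p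
  refine ⟨2 * p + 1, fun q => (undelimit q.2).elim false
    (fun r => decide (r.1.length ≤ p.eval q.1.length) && R (q.1, r.1)), ?_, fun x => ?_⟩
  · refine PT.option_elim (by fun_prop) (by fun_prop) (PT.and (PT.dec_le (by fun_prop)
      (hp.comp (by fun_prop))) (hR'.comp (by fun_prop)))
  · rw [h]
    constructor
    · rintro ⟨w, hw, hR⟩
      refine ⟨delimit w ++ List.replicate (2 * (p.eval x.length - w.length)) false, ?_, ?_⟩
      · simp; omega
      · simp [hw, hR]
    · rintro ⟨w, -, hw⟩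
      rcases hu : undelimit w with _ | r
      · simp [hu] at hw
      · simp only [hu, Option.elim_some, Bool.and_eq_true, decide_eq_true_eq] at hw
        exact ⟨r.1, hw.1, hw.2⟩

/-- every problem in `NP` reduces to `Q` by a `PT` map -/
def HardPT {β : Type} [Enc β] (Q : β → Prop) : Prop :=
  ∀ L ∈ NP, ∃ g : Str → β, PT g ∧ ∀ x, L x = true ↔ Q (g x)

theorem HardPT.reduce {β γ : Type} [Enc β] [Enc γ] {Q : β → Prop} {Q' : γ → Prop} (h : HardPT Q)
    {f : β → γ} (hf : PT f) (e : ∀ b, Q b ↔ Q' (f b)) : HardPT Q' := by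
  intro L hL
  obtain ⟨g, hg, eg⟩ := h L hL
  exact ⟨fun x => f (g x), hf.comp hg, fun x => (eg x).trans (e _)⟩

/-- hardness in terms of the Prelude: a polynomial time map into codes of objects -/
theorem HardPT.prelude {β β' : Type} [N487b59b3 β] [Enc β'] [Rep β β'] {Q : β → Prop}
    (h : HardPT (fun b : β' => Q (Rep.down b))) :
    ∀ L ∈ NP, ∃ g : Str → β, IsPolyTime g ∧ ∀ x, L x = true ↔ Q (g x) := by
  intro L hL
  obtain ⟨g, hg, eg⟩ := h L hL
  exact ⟨fun x => Rep.down (g x), isPolyTime_of_rep hg (fun a => by rw [up_str]), eg⟩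

/-- hardness in terms of the Prelude: many-one reducibility to a language of codes -/
theorem HardPT.manyOne {β β' : Type} [N487b59b3 β] [Enc β'] [Rep β β'] {Q : β → Prop}
    (h : HardPT (fun b : β' => Q (Rep.down b))) {B : DecisionProblem}
    (hB : ∀ b : β, B (bitEncode b) = true ↔ Q b) :
    ∀ L ∈ NP, N793a5b8e.ManyOneReducible L B := by
  intro L hL
  obtain ⟨g, hg, eg⟩ := h L hL
  refine manyOne_of_PT (PT.encode β hg) fun x => ?_
  rw [Bool.eq_iff_iff, eg, hB]

theorem hard_sat : HardPT (fun φ : CNF => ∃ v, φ.Sat v) := by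
  intro L hL
  obtain ⟨p, R, hR, h⟩ := np_exact hL
  obtain ⟨ψ, hψ, e⟩ := cook_levin_pt hR
  refine ⟨fun x => ψ (x, p.eval x.length), hψ.comp (PT.prodMk PT.id
    (PT.poly_eval (by fun_prop) p)), fun x => ?_⟩
  rw [h]
  constructor
  · rintro ⟨w, hw, hR⟩
    obtain ⟨v, _, hv⟩ := (e x w).1 hR
    rw [hw] at hv
    exact ⟨v, hv⟩
  · rintro ⟨v, hv⟩
    refine ⟨(List.range (p.eval x.length)).map v, by simp, (e x _).2 ⟨v, ?_, by simpa using hv⟩⟩
    intro i hi
    simp only [List.length_map, List.length_range] at hi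
    simp [hi]

/-! ### three literals per clause -/

/-- a number above all variables -/
def CNF.top (φ : CNF) : ℕ := (φ.flatten.map (fun l => l.1 + 1)).sum

theorem CNF.lt_top {φ : CNF} {c : Clause} {l : ℕ × Bool} (hc : c ∈ φ) (hl : l ∈ c) :
    l.1 < φ.top :=
  Nat.lt_of_succ_le (List.le_sum_of_mem (List.mem_map.2
    ⟨l, List.mem_flatten.2 ⟨c, hc, hl⟩, rfl⟩ : l.1 + 1 ∈ φ.flatten.map (fun l => l.1 + 1)))

def split3 (N i : ℕ) (c : Clause) : CNF :=
  [(N + Nat.pair i 0, true), (N + Nat.pair i 0, true), (N + Nat.pair i 0, true)] ::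
  [(N + Nat.pair i c.length, false), (N + Nat.pair i c.length, false),
    (N + Nat.pair i c.length, false)] ::
  c.zipIdx.map (fun x => [(N + Nat.pair i x.2, false), x.1, (N + Nat.pair i (x.2 + 1), true)])

/-- formula with three literals per clause; new variables start at `N` -/
def to3 (N : ℕ) (φ : CNF) : CNF := φ.zipIdx.flatMap (fun x => split3 N x.2 x.1)

theorem pt_to3 : PT (fun x : ℕ × CNF => to3 x.1 x.2) := by
  unfold to3 split3
  fun_prop

theorem pt_top : PT CNF.top := by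
  unfold CNF.top
  fun_prop

theorem to3_length (N : ℕ) (φ : CNF) : ∀ c ∈ to3 N φ, c.length = 3 := by
  intro c hc
  simp only [to3, split3, List.mem_flatMap, List.mem_cons, List.mem_map] at hc
  obtain ⟨x, _, rfl | rfl | ⟨y, _, rfl⟩⟩ := hc <;> rfl

theorem sat_of_to3 {N : ℕ} {φ : CNF} {v : ℕ → Bool} (h : (to3 N φ).Sat v) : φ.Sat v := by
  intro c hc
  obtain ⟨i, hi, rfl⟩ := List.getElem_of_mem hc
  have hs : ∀ d ∈ split3 N i φ[i], ∃ l ∈ d, v l.1 = l.2 := fun d hd =>
    h d (List.mem_flatMap.2 ⟨(φ[i], i), by simp [List.mem_zipIdx_iff_getElem?], hd⟩)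
  by_contra hn
  have key : ∀ j ≤ φ[i].length, v (N + Nat.pair i j) = true := by
    intro j
    induction j with
    | zero => intro _; simpa using hs _ List.mem_cons_self
    | succ j ih =>
      intro hj
      have h1 := hs [(N + Nat.pair i j, false), φ[i][j], (N + Nat.pair i (j + 1), true)] (by
        simp only [split3, List.mem_cons, List.mem_map]
        exact Or.inr (Or.inr ⟨(φ[i][j], j), by simp [List.mem_zipIdx_iff_getElem?], rfl⟩))
      simp only [List.mem_cons, List.not_mem_nil, or_false, exists_eq_or_imp, exists_eq_left] at h1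
      rcases h1 with h1 | h1 | h1
      · rw [ih (by omega)] at h1; cases h1
      · exact absurd ⟨_, List.getElem_mem _, h1⟩ hn
      · exact h1
  have h2 := hs _ (List.mem_cons_of_mem _ List.mem_cons_self)
  simp [key _ le_rfl] at h2

theorem to3_of_sat {N : ℕ} {φ : CNF} (hN : φ.top ≤ N) {v : ℕ → Bool} (h : φ.Sat v) :
    ∃ v' : ℕ → Bool, (∀ x < N, v' x = v x) ∧ (to3 N φ).Sat v' := by
  classical
  let v' : ℕ → Bool := fun x => if x < N then v x else
    decide (∀ l ∈ (φ.getD (x - N).unpair.1 []).take (x - N).unpair.2, v l.1 ≠ l.2)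
  have h1 : ∀ x < N, v' x = v x := fun x hx => by simp [v', hx]
  have h2 : ∀ i j, v' (N + Nat.pair i j) = true ↔ ∀ l ∈ (φ.getD i []).take j, v l.1 ≠ l.2 := by
    intro i j
    simp [v']
  refine ⟨v', h1, fun d hd => ?_⟩
  simp only [to3, List.mem_flatMap, Prod.exists, List.mem_zipIdx_iff_getElem?] at hd
  obtain ⟨c, i, hc, hd⟩ := hd
  have hci : φ.getD i [] = c := by simp [hc]
  have hcm : c ∈ φ := List.mem_of_getElem? hc
  simp only [split3, List.mem_cons, List.mem_map, Prod.exists,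
    List.mem_zipIdx_iff_getElem?] at hd
  rcases hd with rfl | rfl | ⟨a, b, j, hj, rfl⟩
  · exact ⟨_, List.mem_cons_self, (h2 i 0).2 (by simp)⟩
  · refine ⟨_, List.mem_cons_self, ?_⟩
    rw [← Bool.not_eq_true, h2, hci, List.take_length]
    obtain ⟨l, hl, e⟩ := h c hcm
    exact fun hh => hh l hl e
  · have hm : (a, b) ∈ c := List.mem_of_getElem? hj
    by_cases e1 : v' (N + Nat.pair i j) = true
    · by_cases e2 : v a = b
      · exact ⟨(a, b), by simp, (h1 a (lt_of_lt_of_le (CNF.lt_top hcm hm) hN)).trans e2⟩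
      · refine ⟨(N + Nat.pair i (j + 1), true), by simp, (h2 _ _).2 ?_⟩
        rw [h2, hci] at e1
        rw [hci, List.take_add_one, hj]
        intro l hl
        rcases List.mem_append.1 hl with hl | hl
        · exact e1 l hl
        · obtain rfl : l = (a, b) := by simpa using hl
          exact e2
    · exact ⟨_, List.mem_cons_self, by simpa using e1⟩

theorem hard_3sat : HardPT (fun φ : {φ : CNF // ∀ c ∈ φ, c.length = 3} => ∃ v, φ.1.Sat v) :=
  hard_sat.reduce (f := fun φ => ⟨to3 φ.top φ, to3_length _ _⟩)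
    (PT.subtype_mk (pt_to3.comp (pt_top.prodMk PT.id)) _)
    (fun _ => ⟨fun ⟨_, hv⟩ => let ⟨v', _, h⟩ := to3_of_sat le_rfl hv; ⟨v', h⟩,
      fun ⟨v, hv⟩ => ⟨v, sat_of_to3 hv⟩⟩)

/-- Cook and Levin with designated witness variables and three literals per clause. -/
theorem cook_levin_pt3 {α : Type} [Enc α] {R : α × Str → Bool} (hR : PT R) :
    ∃ ψ : α × ℕ → CNF, PT ψ ∧ (∀ x, ∀ c ∈ ψ x, c.length = 3) ∧
      ∀ (a : α) (w : Str), R (a, w) = true ↔
      ∃ v : ℕ → Bool, (∀ i < w.length, w[i]? = some (v i)) ∧ (ψ (a, w.length)).Sat v := by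
  obtain ⟨ψ, hψ, e⟩ := cook_levin_pt hR
  refine ⟨fun x => to3 ((ψ x).top + x.2) (ψ x),
    pt_to3.comp (((pt_top.comp hψ).add (by fun_prop)).prodMk hψ), fun x => to3_length _ _,
    fun a w => (e a w).trans ⟨?_, fun ⟨v, h1, h2⟩ => ⟨v, h1, sat_of_to3 h2⟩⟩⟩
  rintro ⟨v, h1, h2⟩
  obtain ⟨v', h3, h4⟩ := to3_of_sat (Nat.le_add_right _ w.length) h2
  exact ⟨v', fun i hi => by rw [h3 i (by omega), h1 i hi], h4⟩

/-! ### independent sets -/

/-- vertex number, edge list -/
abbrev EGraph := ℕ × List (ℕ × ℕ)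

def EGraph.WF (G : EGraph) : Prop := G.2.Nodup ∧ ∀ e ∈ G.2, e.1 < e.2 ∧ e.2 < G.1

def EGraph.Indep (G : EGraph) (S : Finset ℕ) : Prop :=
  (∀ a ∈ S, a < G.1) ∧ ∀ e ∈ G.2, ¬ (e.1 ∈ S ∧ e.2 ∈ S)

def occ (φ : CNF) : List (ℕ × ℕ × Bool) := φ.zipIdx.flatMap (fun x => x.1.map (fun l => (x.2, l)))

def conflict (x y : ℕ × ℕ × Bool) : Bool :=
  decide (x.1 = y.1) || (decide (x.2.1 = y.2.1) && (x.2.2 ^^ y.2.2))

def satGraph (φ : CNF) : EGraph :=
  ((occ φ).length, ((List.range (occ φ).length).product (List.range (occ φ).length)).filter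
    (fun e => decide (e.1 < e.2) &&
      conflict ((occ φ).getD e.1 (0, 0, false)) ((occ φ).getD e.2 (0, 0, false))))

@[fun_prop] theorem PT.product {α β γ : Type} [Enc α] [Enc β] [Enc γ] {l : α → List β}
    {l' : α → List γ} (hl : PT l) (hl' : PT l') : PT (fun a => (l a).product (l' a)) :=
  (show PT (fun a => (l a).flatMap (fun b => (l' a).map (fun c => (b, c)))) by fun_prop).of_eq
    (fun _ => rfl)

theorem pt_satGraph : PT satGraph := by
  have h : PT occ := by unfold occ; fun_prop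
  unfold satGraph conflict
  fun_prop

theorem mem_satGraph {φ : CNF} {e : ℕ × ℕ} : e ∈ (satGraph φ).2 ↔ e.1 < e.2 ∧
    e.2 < (occ φ).length ∧
    conflict ((occ φ).getD e.1 (0, 0, false)) ((occ φ).getD e.2 (0, 0, false)) = true := by
  obtain ⟨a, b⟩ := e
  simp only [satGraph, List.mem_filter, List.pair_mem_product, List.mem_range, Bool.and_eq_true,
    decide_eq_true_eq]
  constructor
  · rintro ⟨⟨_, h2⟩, h3, h4⟩; exact ⟨h3, h2, h4⟩
  · rintro ⟨h1, h2, h3⟩; exact ⟨⟨by omega, h2⟩, h1, h3⟩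

theorem satGraph_wf (φ : CNF) : (satGraph φ).WF :=
  ⟨(List.Nodup.product List.nodup_range List.nodup_range).filter _, fun _ he =>
    ⟨(mem_satGraph.1 he).1, (mem_satGraph.1 he).2.1⟩⟩

theorem mem_occ {φ : CNF} {x : ℕ × ℕ × Bool} : x ∈ occ φ ↔ ∃ c, φ[x.1]? = some c ∧ x.2 ∈ c := by
  obtain ⟨i, l⟩ := x
  simp only [occ, List.mem_flatMap, List.mem_map, Prod.exists, List.mem_zipIdx_iff_getElem?,
    Prod.mk.injEq]
  constructor
  · rintro ⟨c, j, h1, a, b, h2, rfl, rfl⟩; exact ⟨c, by simpa using h1, h2⟩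
  · rintro ⟨c, h1, h2⟩; exact ⟨c, i, by simpa using h1, l.1, l.2, h2, rfl, rfl⟩

theorem conflict_comm (x y : ℕ × ℕ × Bool) : conflict x y = conflict y x := by
  simp [conflict, eq_comm, Bool.xor_comm]

theorem satGraph_iff (φ : CNF) :
    (∃ v, φ.Sat v) ↔ ∃ S, (satGraph φ).Indep S ∧ φ.length ≤ S.card := by
  classical
  constructor
  · rintro ⟨v, hv⟩
    have key : ∀ i : Fin φ.length, ∃ a < (occ φ).length,
        ((occ φ).getD a (0, 0, false)).1 = i ∧
        v ((occ φ).getD a (0, 0, false)).2.1 = ((occ φ).getD a (0, 0, false)).2.2 := by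
      intro i
      obtain ⟨l, hl, e⟩ := hv φ[i] (List.getElem_mem _)
      have : ((i : ℕ), l) ∈ occ φ := mem_occ.2 ⟨φ[i], by simp, hl⟩
      obtain ⟨a, ha, e'⟩ := List.getElem_of_mem this
      exact ⟨a, ha, by simp [ha, e'], by simpa [ha, e'] using e⟩
    choose f h1 h2 h3 using key
    have hinj : Injective f := fun i j e => Fin.ext (by rw [← h2 i, ← h2 j, e])
    refine ⟨Finset.univ.image f, ⟨?_, ?_⟩, by rw [Finset.card_image_of_injective _ hinj]; simp⟩
    · intro a ha
      obtain ⟨i, _, rfl⟩ := Finset.mem_image.1 ha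
      exact h1 i
    · rintro e he ⟨ha, hb⟩
      obtain ⟨i, _, hi⟩ := Finset.mem_image.1 ha
      obtain ⟨j, _, hj⟩ := Finset.mem_image.1 hb
      obtain ⟨e1, _, e3⟩ := mem_satGraph.1 he
      rw [← hi, ← hj] at e1 e3
      simp only [conflict, Bool.or_eq_true, decide_eq_true_eq, Bool.and_eq_true] at e3
      rcases e3 with e3 | ⟨e3, e4⟩
      · rw [h2, h2] at e3
        rw [Fin.ext e3] at e1
        exact lt_irrefl _ e1
      · rw [← h3 i, ← h3 j, e3] at e4
        simp at e4
  · rintro ⟨S, ⟨h1, h2⟩, h3⟩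
    have hc : ∀ a ∈ S, ∀ b ∈ S, a ≠ b →
        conflict ((occ φ).getD a (0, 0, false)) ((occ φ).getD b (0, 0, false)) ≠ true := by
      intro a ha b hb hab hcon
      rcases lt_or_gt_of_ne hab with h | h
      · exact h2 (a, b) (mem_satGraph.2 ⟨h, h1 b hb, hcon⟩) ⟨ha, hb⟩
      · exact h2 (b, a) (mem_satGraph.2 ⟨h, h1 a ha, by rwa [conflict_comm]⟩) ⟨hb, ha⟩
    have hm : ∀ a ∈ S, (occ φ).getD a (0, 0, false) ∈ occ φ := fun a ha => by
      have : a < (occ φ).length := h1 a ha
      simp [this]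
    have hsurj := Finset.surj_on_of_inj_on_of_card_le (s := S) (t := Finset.range φ.length)
      (fun a _ => ((occ φ).getD a (0, 0, false)).1) (fun a ha => by
        obtain ⟨c, hc, _⟩ := mem_occ.1 (hm a ha)
        exact Finset.mem_range.2 (List.getElem?_eq_some_iff.1 hc).1)
      (fun a b ha hb e => by
        by_contra hab
        exact hc a ha b hb hab (by simp only [conflict, e, decide_true, Bool.true_or]))
      (by simpa using h3)
    refine ⟨fun x => decide (∃ a ∈ S, ((occ φ).getD a (0, 0, false)).2 = (x, true)), ?_⟩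
    intro c hcφ
    obtain ⟨i, hi, rfl⟩ := List.getElem_of_mem hcφ
    obtain ⟨a, ha, e⟩ := hsurj i (Finset.mem_range.2 hi)
    obtain ⟨c, hc1, hc2⟩ := mem_occ.1 (hm a ha)
    rw [← e, List.getElem?_eq_getElem hi, Option.some.injEq] at hc1
    subst hc1
    refine ⟨_, hc2, ?_⟩
    cases hb : ((occ φ).getD a (0, 0, false)).2.2
    · rw [decide_eq_false_iff_not]
      rintro ⟨b, hb', e'⟩
      by_cases hab : a = b
      · subst hab; rw [e'] at hb; cases hb
      · refine hc a ha b hb' hab ?_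
        simp only [conflict, e', hb, decide_true, Bool.false_xor, Bool.and_self, Bool.or_true]
    · rw [decide_eq_true_eq]
      exact ⟨a, ha, by rw [← hb]⟩

theorem hard_indep : HardPT (fun x : {G : EGraph // G.WF} × ℕ =>
    ∃ S, x.1.1.Indep S ∧ x.2 ≤ S.card) :=
  hard_sat.reduce (f := fun φ => (⟨satGraph φ, satGraph_wf φ⟩, φ.length))
    ((PT.subtype_mk pt_satGraph _).prodMk (by fun_prop)) satGraph_iff

end Pool.Agent.Lib.Complexity
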