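import Pool.Agent.Lib.Complexity.Machine

/-!
Closure properties of `RPT` proved at the level of register programs.
-/

set_option autoImplicit false
set_option linter.unusedSimpArgs false

namespace Pool.Agent.Lib.Complexity

open Function

/-! ### polynomial bounds -/

theorem peval_mono (p : Polynomial ℕ) {m n : ℕ} (h : m ≤ n) : p.eval m ≤ p.eval n := by
  induction p using Polynomial.induction_on' with
  | add p q hp hq => simp only [Polynomial.eval_add]; omega
  | monomial k a =>
    simp only [Polynomial.eval_monomial]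
    exact Nat.mul_le_mul_left _ (Nat.pow_le_pow_left h k)

/-- `g` is bounded by a polynomial in `sz`. -/
def PB {α : Type} (sz : α → ℕ) (g : α → ℕ) : Prop :=
  ∃ p : Polynomial ℕ, ∀ a, g a ≤ p.eval (sz a)

namespace PB
variable {α : Type} {sz : α → ℕ}

theorem self : PB sz sz := ⟨Polynomial.X, fun a => by simp⟩
theorem const (c : ℕ) : PB sz fun _ => c := ⟨Polynomial.C c, fun a => by simp⟩
theorem add {f g : α → ℕ} (hf : PB sz f) (hg : PB sz g) : PB sz fun a => f a + g a := by
  obtain ⟨p, hp⟩ := hf
  obtain ⟨q, hq⟩ := hg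
  exact ⟨p + q, fun a => by simpa using Nat.add_le_add (hp a) (hq a)⟩
theorem mul {f g : α → ℕ} (hf : PB sz f) (hg : PB sz g) : PB sz fun a => f a * g a := by
  obtain ⟨p, hp⟩ := hf
  obtain ⟨q, hq⟩ := hg
  exact ⟨p * q, fun a => by simpa using Nat.mul_le_mul (hp a) (hq a)⟩
theorem pow {f : α → ℕ} (hf : PB sz f) (k : ℕ) : PB sz fun a => f a ^ k := by
  obtain ⟨p, hp⟩ := hf
  exact ⟨p ^ k, fun a => by simpa using Nat.pow_le_pow_left (hp a) k⟩
theorem mono {f g : α → ℕ} (hg : PB sz g) (h : ∀ a, f a ≤ g a) : PB sz f := by
  obtain ⟨q, hq⟩ := hg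
  exact ⟨q, fun a => (h a).trans (hq a)⟩
theorem eval {f : α → ℕ} (hf : PB sz f) (q : Polynomial ℕ) : PB sz fun a => q.eval (f a) := by
  obtain ⟨p, hp⟩ := hf
  exact ⟨q.comp p, fun a => by simpa [Polynomial.eval_comp] using peval_mono q (hp a)⟩
theorem comp {β : Type} {szb : β → ℕ} {g : β → ℕ} (hg : PB szb g) {f : α → β}
    (hf : PB sz fun a => szb (f a)) : PB sz fun a => g (f a) := by
  obtain ⟨q, hq⟩ := hg
  exact (hf.eval q).mono fun a => hq (f a)
end PB

theorem rpt_iff {α β : Type} {ea : α → Str} {eb : β → Str} {f : α → β} :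
    RPT ea eb f ↔ ∃ (P : Prog) (N : ℕ) (T : α → ℕ), PB (fun a => (ea a).length) T ∧
      ∀ a, Spec P N (ea a) (eb (f a)) (T a) := by
  constructor
  · rintro ⟨P, N, p, h⟩
    exact ⟨P, N, _, PB.self.eval p, h⟩
  · rintro ⟨P, N, T, ⟨p, hp⟩, h⟩
    exact ⟨P, N, p, fun a => (h a).mono le_rfl (hp a)⟩

theorem RPT.pb {α β : Type} {ea : α → Str} {eb : β → Str} {f : α → β} (h : RPT ea eb f) :
    PB (fun a => (ea a).length) fun a => (eb (f a)).length := by
  obtain ⟨P, N, T, hT, h⟩ := rpt_iff.1 h
  exact (PB.self.add hT).mono fun a => (h a).length_le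

/-! ### basic programs -/

def forEach (r : ℕ) (B : Bool → Prog) : Prog :=
  .loop r (.ite r (.seq (.pop r) (B true)) (.seq (.pop r) (B false)))

theorem forEach_nil {r : ℕ} {B : Bool → Prog} {s : St} (h : s r = []) :
    Eval (forEach r B) s s 1 := Eval.loop0 h

theorem forEach_cons {r : ℕ} {B : Bool → Prog} {s s' s'' : St} {b : Bool} {l : Str} {t u : ℕ}
    (h : s r = b :: l) (h1 : Eval (B b) (update s r l) s' t) (h2 : Eval (forEach r B) s' s'' u) :
    Eval (forEach r B) s s'' (t + u + 3) := by
  have hp : Eval (.pop r) s (update s r l) 1 := (Eval.pop r s).of_eq (by rw [h]; rfl) le_rfl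
  have hb : Eval (.ite r (.seq (.pop r) (B true)) (.seq (.pop r) (B false))) s s' (1 + t + 1) := by
    cases b
    · exact Eval.iteF (by rw [h]; simp) (hp.seq h1)
    · exact Eval.iteT (by rw [h]; simp) (hp.seq h1)
  exact (Eval.loopS (by rw [h]; simp) hb h2).mono (by omega)

def clear (r : ℕ) : Prog := forEach r fun _ => .skip

theorem clear_eval (r : ℕ) (s : St) :
    Eval (clear r) s (update s r []) (4 * (s r).length + 1) := by
  generalize hl : s r = l
  induction l generalizing s with
  | nil => exact (forEach_nil hl).of_eq (by rw [← hl]; simp) (by simp)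
  | cons b l ih =>
    exact (forEach_cons hl (Eval.skip _) (ih _ (by simp))).of_eq (by simp) (by simp; omega)

def mv (r r' : ℕ) : Prog := forEach r fun b => .push r' b

theorem mv_eval {r r' : ℕ} (h : r ≠ r') (s : St) :
    Eval (mv r r') s (update (update s r []) r' ((s r).reverse ++ s r')) (4 * (s r).length + 1) := by
  generalize hl : s r = l
  induction l generalizing s with
  | nil =>
    refine (forEach_nil hl).of_eq ?_ (by simp)
    rw [show update s r [] = s by rw [← hl]; simp]; simp
  | cons b l ih =>
    refine (forEach_cons hl (Eval.push _ _ _) (ih _ (by simp [h]))).of_eq ?_ (by simp; omega)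
    funext i
    simp only [update_apply]
    split_ifs <;> simp_all

def cp2 (r r1 r2 : ℕ) : Prog := forEach r fun b => .seq (.push r1 b) (.push r2 b)

theorem cp2_eval {r r1 r2 : ℕ} (h1 : r ≠ r1) (h2 : r ≠ r2) (h3 : r1 ≠ r2) (s : St) :
    Eval (cp2 r r1 r2) s
      (update (update (update s r []) r1 ((s r).reverse ++ s r1)) r2 ((s r).reverse ++ s r2))
      (5 * (s r).length + 1) := by
  generalize hl : s r = l
  induction l generalizing s with
  | nil =>
    refine (forEach_nil hl).of_eq ?_ (by simp)
    rw [show update s r [] = s by rw [← hl]; simp]; simp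
  | cons b l ih =>
    refine (forEach_cons hl ((Eval.push _ _ _).seq (Eval.push _ _ _))
      (ih _ (by simp [h1, h2]))).of_eq ?_ (by simp; omega)
    funext i
    simp only [update_apply]
    split_ifs <;> simp_all

def pushs (r : ℕ) : Str → Prog
  | [] => .skip
  | b :: l => .seq (pushs r l) (.push r b)

theorem pushs_eval (r : ℕ) (l : Str) (s : St) :
    Eval (pushs r l) s (update s r (l ++ s r)) (l.length + 1) := by
  induction l with
  | nil => exact (Eval.skip s).of_eq (by simp) (by simp)
  | cons b l ih => exact (ih.seq (Eval.push _ _ _)).of_eq (by simp) (by simp)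

/-- save a reversed copy of register `0` in `N + 1`, using `N` -/
def save (N : ℕ) : Prog := .seq (cp2 0 N (N + 1)) (mv N 0)

theorem save_eval {N : ℕ} (hN : 0 < N) (s : St) (h1 : s N = []) (h2 : s (N + 1) = []) :
    Eval (save N) s (update s (N + 1) (s 0).reverse) (9 * (s 0).length + 2) := by
  have a1 := cp2_eval (r := 0) (r1 := N) (r2 := N + 1) (by omega) (by omega) (by omega) s
  have a2 := a1.seq (mv_eval (r := N) (r' := 0) (by omega) _)
  refine a2.of_eq ?_ ?_
  · funext i
    have n0 : N ≠ 0 := by omega
    by_cases e0 : i = 0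
    · subst e0; simp [update_apply, n0, n0.symm, h1]
    by_cases e1 : i = N
    · subst e1; simp [update_apply, n0, h1]
    by_cases e2 : i = N + 1
    · subst e2; simp [update_apply, h2]
    · simp [update_apply, e0, e1, e2]
  · simp [h1]; omega

section closure
variable {α β γ : Type} {ea : α → Str} {eb : β → Str} {ec : γ → Str}

theorem RPT.congr {α' β' : Type} {ea' : α' → Str} {eb' : β' → Str} {f : α → β} {f' : α' → β'}
    (h : RPT ea eb f) (φ : α' → α) (h1 : ∀ a, ea (φ a) = ea' a)
    (h2 : ∀ a, eb (f (φ a)) = eb' (f' a)) : RPT ea' eb' f' := by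
  obtain ⟨P, N, p, h⟩ := h
  exact ⟨P, N, p, fun a => by rw [← h1, ← h2]; exact h _⟩

theorem RPT.id : RPT ea ea fun a => a :=
  rpt_iff.2 ⟨.skip, 0, fun _ => 1, PB.const 1, fun a s h0 _ =>
    (Eval.skip s).of_eq (by rw [← h0]; simp) le_rfl⟩

theorem RPT.comp {g : β → γ} {f : α → β} (hg : RPT eb ec g) (hf : RPT ea eb f) :
    RPT ea ec fun a => g (f a) := by
  have hpb := hf.pb
  obtain ⟨P, N, T, hT, hf⟩ := rpt_iff.1 hf
  obtain ⟨Q, M, U, hU, hg⟩ := rpt_iff.1 hg
  refine rpt_iff.2 ⟨.seq P Q, max N M, fun a => T a + U (f a), hT.add (hU.comp hpb), ?_⟩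
  intro a s h0 hs
  have a1 := hf a s h0 fun i h1 h2 => hs i h1 (by omega)
  have a2 := hg (f a) (update s 0 (eb (f a))) (by simp) fun i h1 h2 => by
    rw [update_of_ne (by omega)]; exact hs i h1 (by omega)
  exact (a1.seq a2).of_eq (by simp) le_rfl

theorem RPT.const (b : β) : RPT ea eb fun _ => b := by
  refine rpt_iff.2 ⟨.seq (clear 0) (pushs 0 (eb b)), 0,
    fun a => 4 * (ea a).length + 1 + ((eb b).length + 1),
    (((PB.const 4).mul PB.self).add (PB.const 1)).add (PB.const _), ?_⟩
  intro a s h0 _
  exact ((clear_eval 0 s).seq (pushs_eval 0 (eb b) _)).of_eq (by simp) (by rw [h0])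

theorem RPT.pair {f : α → β} {g : α → γ} (hf : RPT ea eb f) (hg : RPT ea ec g) :
    RPT ea (fun p : β × γ => true :: (eb p.1 ++ ec p.2)) fun a => (f a, g a) := by
  have hpb := hf.pb
  obtain ⟨P, N1, T, hT, hf⟩ := rpt_iff.1 hf
  obtain ⟨Q, N2, U, hU, hg⟩ := rpt_iff.1 hg
  obtain ⟨N, hN⟩ : ∃ N, N = max N1 N2 + 1 := ⟨_, rfl⟩
  refine rpt_iff.2 ⟨.seq (.seq (.seq (.seq (.seq (.seq (save N) P) (mv 0 N)) (mv (N + 1) 0)) Q)
    (mv N 0)) (.push 0 true), N + 2,
    fun a => 9 * (ea a).length + 2 + T a + (4 * (eb (f a)).length + 1) + (4 * (ea a).length + 1)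
      + U a + (4 * (eb (f a)).length + 1) + 1, ?_, ?_⟩
  · refine ((((((((PB.const 9).mul PB.self).add (PB.const 2)).add hT).add
      (((PB.const 4).mul hpb).add (PB.const 1))).add
      (((PB.const 4).mul PB.self).add (PB.const 1))).add hU).add
      (((PB.const 4).mul hpb).add (PB.const 1))).add (PB.const 1)
  intro a s h0 hs
  have n0 : N ≠ 0 := by omega
  have sN : s N = [] := hs N (by omega) (by omega)
  have sN1 : s (N + 1) = [] := hs (N + 1) (by omega) (by omega)
  have a1 := save_eval (N := N) (by omega) s sN sN1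
  have a2 := hf a (update s (N + 1) (s 0).reverse) (by simpa using h0) fun i h1 h2 => by
    rw [update_of_ne (by omega)]; exact hs i h1 (by omega)
  have a3 := (a1.seq a2).seq (mv_eval (r := 0) (r' := N) (by omega) _)
  have a4 := a3.seq (mv_eval (r := N + 1) (r' := 0) (by omega) _)
  have a5 := a4.seq (hg a _ (by simp [update_apply, n0, n0.symm, h0]) fun i h1 h2 => by
    rw [update_of_ne (by omega), update_of_ne (by omega), update_of_ne (by omega),
      update_of_ne (by omega), update_of_ne (by omega), update_of_ne (by omega)]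
    exact hs i h1 (by omega))
  have a6 := (a5.seq (mv_eval (r := N) (r' := 0) (by omega) _)).seq (Eval.push 0 true _)
  refine a6.of_eq ?_ ?_
  · funext i
    by_cases e0 : i = 0
    · subst e0; simp [update_apply, n0, n0.symm, sN]
    by_cases e1 : i = N
    · subst e1; simp [update_apply, n0, sN]
    by_cases e2 : i = N + 1
    · subst e2; simp [update_apply, sN1]
    · simp [update_apply, e0, e1, e2]
  · simp [update_apply, n0, n0.symm, h0, sN]

theorem RPT.cases {c : α → γ} {F : α → β} (hc : RPT ea ec c)
    (hf : RPT (fun a : {a // (ec (c a)).head? = some true} => ea a.1) eb fun a => F a.1)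
    (hg : RPT (fun a : {a // ¬ (ec (c a)).head? = some true} => ea a.1) eb fun a => F a.1) :
    RPT ea eb F := by
  have hpb := hc.pb
  obtain ⟨P, N1, p, hf⟩ := hf
  obtain ⟨Q, N2, q, hg⟩ := hg
  obtain ⟨R, N3, V, hV, hc⟩ := rpt_iff.1 hc
  obtain ⟨N, hN⟩ : ∃ N, N = max (max N1 N2) N3 + 1 := ⟨_, rfl⟩
  refine rpt_iff.2 ⟨.seq (.seq (save N) R)
    (.ite 0 (.seq (.seq (clear 0) (mv (N + 1) 0)) P) (.seq (.seq (clear 0) (mv (N + 1) 0)) Q)),
    N + 2, fun a => 9 * (ea a).length + 2 + V a + ((4 * (ec (c a)).length + 1)
      + (4 * (ea a).length + 1) + (p.eval (ea a).length + q.eval (ea a).length) + 1), ?_, ?_⟩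
  · exact ((((PB.const 9).mul PB.self).add (PB.const 2)).add hV).add
      ((((((PB.const 4).mul hpb).add (PB.const 1)).add
      (((PB.const 4).mul PB.self).add (PB.const 1))).add
        ((PB.self.eval p).add (PB.self.eval q))).add (PB.const 1))
  intro a s h0 hs
  have n0 : N ≠ 0 := by omega
  have sN : s N = [] := hs N (by omega) (by omega)
  have sN1 : s (N + 1) = [] := hs (N + 1) (by omega) (by omega)
  have a1 := save_eval (N := N) (by omega) s sN sN1
  have a2 := hc a (update s (N + 1) (s 0).reverse) (by simpa using h0) fun i h1 h2 => by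
    rw [update_of_ne (by omega)]; exact hs i h1 (by omega)
  have a3 : Eval (.seq (clear 0) (mv (N + 1) 0))
      (update (update s (N + 1) (s 0).reverse) 0 (ec (c a))) s
      ((4 * (ec (c a)).length + 1) + (4 * (ea a).length + 1)) := by
    refine ((clear_eval 0 _).seq (mv_eval (r := N + 1) (r' := 0) (by omega) _)).of_eq ?_ ?_
    · funext i
      simp only [update_apply]
      split_ifs <;> simp_all
    · simp [h0]
  have h12 := a1.seq a2
  rw [h0] at h12 a3
  by_cases hh : (ec (c a)).head? = some true
  · refine (h12.seq (Eval.iteT (by simpa using hh)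
      (a3.seq (hf ⟨a, hh⟩ s h0 fun i h1 h2 => hs i h1 (by omega))))).mono
      (by beta_reduce; dsimp only; omega)
  · refine (h12.seq (Eval.iteF (by simpa using hh)
      (a3.seq (hg ⟨a, hh⟩ s h0 fun i h1 h2 => hs i h1 (by omega))))).mono
      (by beta_reduce; dsimp only; omega)

theorem iter_eval {P : Prog} {N : ℕ} (hN : 0 < N) {step : β → β} {U : β → ℕ}
    (hstep : ∀ b, Spec P N (eb b) (eb (step b)) (U b)) (W : ℕ) (c : Str) :
    ∀ (b : β) (s : St), s 0 = eb b → s N = c → (∀ i, 0 < i → i < N → s i = []) →
      (∀ i < c.count true, U (step^[i] b) ≤ W) →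
      Eval (forEach N fun x => if x then P else .skip) s
        (update (update s N []) 0 (eb (step^[c.count true] b))) (c.length * (W + 4) + 1) := by
  have n0 : N ≠ 0 := by omega
  induction c with
  | nil =>
    intro b s h0 hc _ _
    refine (forEach_nil hc).of_eq ?_ (by simp)
    funext i
    simp only [update_apply]
    split_ifs <;> simp_all
  | cons x c ih =>
    intro b s h0 hc hs hW
    cases x
    · have := ih b (update s N c) (by simp [n0.symm, h0]) (by simp)
        (fun i h1 h2 => by rw [update_of_ne (by omega)]; exact hs i h1 h2)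
        (fun i hi => hW i (by simpa using hi))
      refine (forEach_cons hc (Eval.skip _) this).of_eq (by simp) ?_
      simp only [List.length_cons]; nlinarith
    · have a1 := hstep b (update s N c) (by simp [n0.symm, h0])
        (fun i h1 h2 => by rw [update_of_ne (by omega)]; exact hs i h1 h2)
      have := ih (step b) (update (update s N c) 0 (eb (step b))) (by simp) (by simp [n0])
        (fun i h1 h2 => by
          rw [update_of_ne (by omega), update_of_ne (by omega)]; exact hs i h1 h2)
        (fun i hi => by
          have := hW (i + 1) (by simpa using hi)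
          simpa using this)
      have hW0 := hW 0 (by simp)
      refine (forEach_cons hc a1 this).of_eq ?_ ?_
      · funext i
        simp only [update_apply]
        split_ifs <;> simp_all
      · simp only [List.length_cons, iterate_zero, id_eq] at hW0 ⊢; nlinarith

theorem RPT.iterate {c : α → γ} {init : α → β} {step : β → β} (hc : RPT ea ec c)
    (hi : RPT ea eb init) (hs : RPT eb eb step) (B : α → ℕ) (hB : PB (fun a => (ea a).length) B)
    (hb : ∀ a, ∀ i < (ec (c a)).count true, (eb (step^[i] (init a))).length ≤ B a) :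
    RPT ea eb fun a => step^[(ec (c a)).count true] (init a) := by
  have hpb := hc.pb
  obtain ⟨P, N1, p, hs⟩ := hs
  obtain ⟨Q, N2, U, hU, hi⟩ := rpt_iff.1 hi
  obtain ⟨R, N3, V, hV, hc⟩ := rpt_iff.1 hc
  obtain ⟨N, hN⟩ : ∃ N, N = max (max N1 N2) N3 + 1 := ⟨_, rfl⟩
  refine rpt_iff.2 ⟨.seq (.seq (.seq (.seq (.seq (save N) R) (mv 0 N)) (mv (N + 1) 0)) Q)
    (forEach N fun x => if x then P else .skip), N + 2,
    fun a => 9 * (ea a).length + 2 + V a + (4 * (ec (c a)).length + 1) + (4 * (ea a).length + 1)
      + U a + ((ec (c a)).length * (p.eval (B a) + 4) + 1), ?_, ?_⟩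
  · exact (((((((PB.const 9).mul PB.self).add (PB.const 2)).add hV).add
      (((PB.const 4).mul hpb).add (PB.const 1))).add
      (((PB.const 4).mul PB.self).add (PB.const 1))).add hU).add
      ((hpb.mul ((hB.eval p).add (PB.const 4))).add (PB.const 1))
  intro a s h0 hs'
  have n0 : N ≠ 0 := by omega
  have sN : s N = [] := hs' N (by omega) (by omega)
  have sN1 : s (N + 1) = [] := hs' (N + 1) (by omega) (by omega)
  have a1 := save_eval (N := N) (by omega) s sN sN1
  have a2 := hc a (update s (N + 1) (s 0).reverse) (by simpa using h0) fun i h1 h2 => by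
    rw [update_of_ne (by omega)]; exact hs' i h1 (by omega)
  have a3 := (a1.seq a2).seq (mv_eval (r := 0) (r' := N) (by omega) _)
  have a4 := a3.seq (mv_eval (r := N + 1) (r' := 0) (by omega) _)
  have a4' : Eval (.seq (.seq (.seq (save N) R) (mv 0 N)) (mv (N + 1) 0)) s
      (update s N (ec (c a)).reverse)
      (9 * (ea a).length + 2 + V a + (4 * (ec (c a)).length + 1) + (4 * (ea a).length + 1)) := by
    refine a4.of_eq ?_ ?_
    · funext i
      by_cases e0 : i = 0
      · subst e0; simp [update_apply, n0, n0.symm]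
      by_cases e1 : i = N
      · subst e1; simp [update_apply, n0, sN]
      by_cases e2 : i = N + 1
      · subst e2; simp [update_apply, sN1]
      · simp [update_apply, e0, e1, e2]
    · simp [update_apply, h0]
  have a5 := a4'.seq (hi a _ (by simp [n0.symm, h0]) fun i h1 h2 => by
    rw [update_of_ne (by omega)]; exact hs' i h1 (by omega))
  have a6 := iter_eval (eb := eb) (N := N) (by omega) (P := P) (step := step)
    (U := fun b => p.eval (eb b).length) (fun b => (hs b).mono (by omega) le_rfl)
    (p.eval (B a)) (ec (c a)).reverse (init a)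
    (update (update s N (ec (c a)).reverse) 0 (eb (init a))) (by simp) (by simp [n0])
    (fun i h1 h2 => by
      rw [update_of_ne (by omega), update_of_ne (by omega)]; exact hs' i h1 (by omega))
    (fun i hi => peval_mono p (hb a i (by simpa using hi)))
  refine (a5.seq a6).of_eq ?_ (by simp)
  funext i
  simp only [update_apply]
  split_ifs <;> simp_all

end closure

/-! ### binary trees -/

inductive T
  | nil
  | node (l r : T)
  deriving DecidableEq, Inhabited

namespace T

def bits : T → Str
  | nil => [false]
  | node l r => true :: (l.bits ++ r.bits)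

def left : T → T
  | nil => nil
  | node l _ => l

def right : T → T
  | nil => nil
  | node _ r => r

/-- number of inner nodes -/
def size : T → ℕ
  | nil => 0
  | node l r => l.size + r.size + 1

theorem length_bits (t : T) : t.bits.length = 2 * t.size + 1 := by
  induction t with
  | nil => rfl
  | node l r ihl ihr => simp [bits, size, ihl, ihr]; omega

theorem count_bits (t : T) : t.bits.count true = t.size := by
  induction t with
  | nil => rfl
  | node l r ihl ihr => simp [bits, size, ihl, ihr]

end T

/-- move one tree code from register `0` to register `2` (reversed), counting in register `1` -/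
def takeBody : Prog :=
  .ite 0 (.seq (.seq (.pop 0) (.push 2 true)) (.push 1 true))
    (.seq (.seq (.pop 0) (.push 2 false)) (.pop 1))

theorem take_eval (t : T) : ∀ (s s'' : St) (rest c : Str) (u : ℕ), s 0 = t.bits ++ rest →
    s 1 = true :: c →
    Eval (.loop 1 takeBody) (update (update (update s 0 rest) 1 c) 2 (t.bits.reverse ++ s 2))
      s'' u → Eval (.loop 1 takeBody) s s'' (u + 5 * t.bits.length) := by
  induction t with
  | nil =>
    intro s s'' rest c u h0 h1 h
    have hb : Eval takeBody s (update (update (update s 0 rest) 1 c) 2 (T.nil.bits.reverse ++ s 2))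
        4 := by
      refine (Eval.iteF (by simp [h0, T.bits])
        (((Eval.pop 0 s).seq (Eval.push 2 false _)).seq (Eval.pop 1 _))).of_eq ?_ le_rfl
      funext i
      simp only [update_apply]
      split_ifs <;> simp_all [T.bits]
    exact (Eval.loopS (by simp [h1]) hb h).mono (by simp [T.bits]; omega)
  | node l r ihl ihr =>
    intro s s'' rest c u h0 h1 h
    have hb : Eval takeBody s (update (update (update s 0 (l.bits ++ (r.bits ++ rest))) 1
        (true :: true :: c)) 2 (true :: s 2)) 4 := by
      refine (Eval.iteT (by simp [h0, T.bits])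
        (((Eval.pop 0 s).seq (Eval.push 2 true _)).seq (Eval.push 1 true _))).of_eq ?_ le_rfl
      funext i
      simp only [update_apply]
      split_ifs <;> simp_all [T.bits]
    have h2 := ihl (update (update (update s 0 (l.bits ++ (r.bits ++ rest))) 1
        (true :: true :: c)) 2 (true :: s 2)) s'' (r.bits ++ rest) (true :: c)
        (u + 5 * r.bits.length) (by simp) (by simp) (by
          refine ihr _ s'' rest c u (by simp) (by simp) ?_
          convert h using 1
          funext i
          simp only [update_apply]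
          split_ifs <;> simp_all [T.bits])
    exact (Eval.loopS (by simp [h1]) hb h2).mono (by simp [T.bits]; omega)

def splitP : Prog := .seq (.seq (.pop 0) (.push 1 true)) (.loop 1 takeBody)

theorem split_eval (l r : T) (s : St) (h0 : s 0 = (T.node l r).bits) (h1 : s 1 = [])
    (h2 : s 2 = []) :
    Eval splitP s (update (update s 0 r.bits) 2 l.bits.reverse) (5 * (s 0).length + 3) := by
  have a1 := (Eval.pop 0 s).seq (Eval.push 1 true _)
  have a2 := take_eval l _ _ r.bits [] 1 (by simp [h0, T.bits]) (by simp [h1])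
    (Eval.loop0 (P := takeBody) (r := 1)
      (s := update (update (update (update (update s 0 (s 0).tail) 1
        (true :: update s 0 (s 0).tail 1)) 0 r.bits) 1 []) 2
        (l.bits.reverse ++ update (update s 0 (s 0).tail) 1 (true :: update s 0 (s 0).tail 1) 2))
      (by simp))
  refine (a1.seq a2).of_eq ?_ (by simp [h0, T.bits]; omega)
  funext i
  simp only [update_apply]
  split_ifs <;> simp_all

theorem rpt_left : RPT T.bits T.bits T.left := by
  refine rpt_iff.2 ⟨.ite 0 (.seq (.seq splitP (clear 0)) (mv 2 0)) .skip, 3,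
    fun t => 13 * t.bits.length + 6, ((PB.const 13).mul PB.self).add (PB.const 6), ?_⟩
  intro t s h0 hs
  cases t with
  | nil =>
    exact (Eval.iteF (by simp [h0, T.bits]) (Eval.skip s)).of_eq (by rw [T.left, ← h0]; simp)
      (by beta_reduce; omega)
  | node l r =>
    have h2 := hs 2 (by omega) (by omega)
    have a1 := split_eval l r s h0 (hs 1 (by omega) (by omega)) h2
    have a2 := (a1.seq (clear_eval 0 _)).seq (mv_eval (r := 2) (r' := 0) (by omega) _)
    refine (Eval.iteT (by simp [h0, T.bits]) a2).of_eq ?_ (by simp [h0, T.bits]; omega)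
    funext i
    simp only [update_apply]
    split_ifs <;> simp_all [T.left]

theorem rpt_right : RPT T.bits T.bits T.right := by
  refine rpt_iff.2 ⟨.ite 0 (.seq splitP (clear 2)) .skip, 3,
    fun t => 9 * t.bits.length + 6, ((PB.const 9).mul PB.self).add (PB.const 6), ?_⟩
  intro t s h0 hs
  cases t with
  | nil =>
    exact (Eval.iteF (by simp [h0, T.bits]) (Eval.skip s)).of_eq (by rw [T.right, ← h0]; simp)
      (by beta_reduce; omega)
  | node l r =>
    have h2 := hs 2 (by omega) (by omega)
    have a1 := split_eval l r s h0 (hs 1 (by omega) (by omega)) h2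
    have a2 := a1.seq (clear_eval 2 _)
    refine (Eval.iteT (by simp [h0, T.bits]) a2).of_eq ?_ (by simp [h0, T.bits]; omega)
    funext i
    simp only [update_apply]
    split_ifs <;> simp_all [T.right]

/-! ### raw strings versus tree codes of strings -/

def boolT (b : Bool) : T := if b then .node .nil .nil else .nil

def strT : Str → T
  | [] => .nil
  | b :: l => .node (boolT b) (strT l)

theorem toT_eval (l : Str) : ∀ (s : St) (l' : Str), s 1 = l → s 0 = (strT l').bits →
    Eval (forEach 1 fun b => pushs 0 (true :: (boolT b).bits)) s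
      (update (update s 1 []) 0 (strT (l.reverse ++ l')).bits) (8 * l.length + 1) := by
  induction l with
  | nil =>
    intro s l' h1 h0
    refine (forEach_nil h1).of_eq ?_ (by simp)
    funext i
    simp only [update_apply]
    split_ifs <;> simp_all
  | cons b l ih =>
    intro s l' h1 h0
    refine (forEach_cons h1 (pushs_eval _ _ _) (ih _ (b :: l') (by simp)
      (by simp [h0, strT, T.bits]))).of_eq ?_ ?_
    · funext i
      simp only [update_apply]
      split_ifs <;> simp_all
    · cases b <;> simp [boolT, T.bits] <;> omega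

theorem rpt_toT : RPT (fun l : Str => l) (fun l : Str => (strT l).bits) fun l => l := by
  refine rpt_iff.2 ⟨.seq (.seq (mv 0 1) (.push 0 false))
    (forEach 1 fun b => pushs 0 (true :: (boolT b).bits)), 2,
    fun l => 12 * l.length + 3, ((PB.const 12).mul PB.self).add (PB.const 3), ?_⟩
  intro l s h0 hs
  have h1 := hs 1 (by omega) (by omega)
  have a1 := (mv_eval (r := 0) (r' := 1) (by omega) s).seq (Eval.push 0 false _)
  have a2 := a1.seq (toT_eval l.reverse _ [] (by simp [h0, h1]) (by simp [strT, T.bits]))
  refine a2.of_eq ?_ (by simp [h0]; omega)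
  funext i
  simp only [update_apply]
  split_ifs <;> simp_all

def ofTBody : Prog :=
  .ite 0 (.seq (.pop 0) (.ite 0 (.seq (.seq (.seq (.pop 0) (.pop 0)) (.pop 0)) (.push 1 true))
    (.seq (.pop 0) (.push 1 false)))) (.pop 0)

theorem ofT_eval (l : Str) : ∀ (s : St), s 0 = (strT l).bits →
    Eval (.loop 0 ofTBody) s (update (update s 0 []) 1 (l.reverse ++ s 1)) (8 * l.length + 4) := by
  induction l with
  | nil =>
    intro s h0
    have a1 : Eval ofTBody s (update s 0 []) 2 :=
      (Eval.iteF (by simp [h0, strT, T.bits]) (Eval.pop 0 s)).of_eq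
        (by simp [h0, strT, T.bits]) le_rfl
    refine (Eval.loopS (by simp [h0, strT, T.bits]) a1 (Eval.loop0 (by simp))).of_eq ?_ (by simp)
    funext i
    simp only [update_apply]
    split_ifs <;> simp_all
  | cons b l ih =>
    intro s h0
    have a1 : Eval ofTBody s (update (update s 0 (strT l).bits) 1 (b :: s 1)) 7 := by
      cases b
      · refine (Eval.iteT (by simp [h0, strT, T.bits]) ((Eval.pop 0 s).seq
          (Eval.iteF (by simp [h0, strT, T.bits, boolT])
            ((Eval.pop 0 _).seq (Eval.push 1 false _))))).of_eq ?_ (by omega)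
        simp [h0, strT, T.bits, boolT]
      · refine (Eval.iteT (by simp [h0, strT, T.bits]) ((Eval.pop 0 s).seq
          (Eval.iteT (by simp [h0, strT, T.bits, boolT])
            ((((Eval.pop 0 _).seq (Eval.pop 0 _)).seq (Eval.pop 0 _)).seq
              (Eval.push 1 true _))))).of_eq ?_ (by omega)
        simp [h0, strT, T.bits, boolT]
    refine (Eval.loopS (by simp [h0, strT, T.bits]) a1 (ih _ (by simp))).of_eq ?_
      (by simp; omega)
    funext i
    simp only [update_apply]
    split_ifs <;> simp_all

theorem length_le_strT (l : Str) : l.length ≤ (strT l).size := by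
  induction l with
  | nil => simp
  | cons b l ih => simp [strT, T.size]; omega

theorem rpt_ofT : RPT (fun l : Str => (strT l).bits) (fun l : Str => l) fun l => l := by
  refine rpt_iff.2 ⟨.seq (.loop 0 ofTBody) (mv 1 0), 2,
    fun l => 12 * (strT l).bits.length + 5, ((PB.const 12).mul PB.self).add (PB.const 5), ?_⟩
  intro l s h0 hs
  have h1 := hs 1 (by omega) (by omega)
  have a1 := (ofT_eval l s h0).seq (mv_eval (r := 1) (r' := 0) (by omega) _)
  refine a1.of_eq ?_ ?_
  · funext i
    simp only [update_apply]
    split_ifs <;> simp_all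
  · have := length_le_strT l
    simp [h1, T.length_bits]; omega

end Pool.Agent.Lib.Complexity
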