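import Pool.Agent.Lib.Complexity.Basic

/-!
Polynomial time closure under case analysis, folds and the usual list operations.
-/

set_option autoImplicit false
set_option linter.unusedSimpArgs false

namespace Pool.Agent.Lib.Complexity

open Function

namespace PT

variable {α β γ δ σ : Type} [Enc α] [Enc β] [Enc γ] [Enc δ] [Enc σ]

/-! ### constructors -/

@[fun_prop] theorem cons {f : α → β} {g : α → List β} (hf : PT f) (hg : PT g) :
    PT fun a => f a :: g a := (hf.prodMk hg).out fun _ => rfl

@[fun_prop] theorem some {f : α → β} (hf : PT f) : PT fun a => some (f a) :=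
  (hf.prodMk (const ())).out fun _ => rfl

@[fun_prop] theorem inl {f : α → β} (hf : PT f) : PT fun a => (Sum.inl (f a) : β ⊕ γ) :=
  ((const ()).prodMk hf).out fun _ => rfl

@[fun_prop] theorem inr {f : α → γ} (hf : PT f) : PT fun a => (Sum.inr (f a) : β ⊕ γ) :=
  ((const true).prodMk hf).out fun _ => rfl

@[fun_prop] theorem tail {f : α → List β} (hf : PT f) : PT fun a => (f a).tail :=
  hf.enc'.right.out fun a => by cases f a <;> rfl

@[fun_prop] theorem isEmpty {f : α → List β} (hf : PT f) : PT fun a => (f a).isEmpty :=
  (isNil hf).of_eq fun a => by cases f a <;> simp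

/-! ### case analysis -/

@[fun_prop] theorem list_casesOn {l : α → List β} {n : α → γ} {c : α → β → List β → γ}
    (hl : PT l) (hn : PT n) (hc : PT fun p : α × β × List β => c p.1 p.2.1 p.2.2) :
    PT fun a => (List.casesOn (motive := fun _ => γ) (l a) (n a) (c a) : γ) := by
  refine cases hl ((hn.restrict _).of_eq fun a => by rw [enc_eq_nil_list.1 a.2]) ?_
  have h1 : PT fun a : {a // enc (l a) ≠ T.nil} =>
      (a.1, (l a.1).head (fun e => a.2 (enc_eq_nil_list.2 e)), (l a.1).tail) :=
    ((subtype_val id).prodMk (hl.restrict _)).out fun a => by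
      obtain ⟨a, h⟩ := a
      dsimp only
      generalize_proofs h'
      generalize l a = x at *
      cases x with
      | nil => exact absurd rfl h'
      | cons _ _ => rfl
  refine (comp hc h1).of_eq fun a => ?_
  obtain ⟨a, h⟩ := a
  dsimp only
  generalize_proofs h'
  generalize l a = x at *
  cases x with
  | nil => exact absurd rfl h'
  | cons _ _ => rfl

@[fun_prop] theorem option_casesOn {o : α → Option β} {n : α → γ} {c : α → β → γ}
    (ho : PT o) (hn : PT n) (hc : PT fun p : α × β => c p.1 p.2) :
    PT fun a => (Option.casesOn (motive := fun _ => γ) (o a) (n a) (c a) : γ) := by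
  have h1 : PT fun a => (o a).toList := ho.out fun a => by cases o a <;> rfl
  exact (list_casesOn (c := fun a b _ => c a b) h1 hn (by fun_prop)).of_eq fun a => by
    cases o a <;> rfl

@[fun_prop] theorem option_elim {o : α → Option β} {n : α → γ} {c : α → β → γ}
    (ho : PT o) (hn : PT n) (hc : PT fun p : α × β => c p.1 p.2) :
    PT fun a => (o a).elim (n a) (c a) :=
  (option_casesOn ho hn hc).of_eq fun a => by cases o a <;> rfl

@[fun_prop] theorem option_toList {o : α → Option β} (ho : PT o) : PT fun a => (o a).toList :=
  ho.out fun a => by cases o a <;> rfl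

@[fun_prop] theorem option_getD {o : α → Option β} {d : α → β} (ho : PT o) (hd : PT d) :
    PT fun a => (o a).getD (d a) :=
  (option_casesOn (c := fun _ b => b) ho hd (by fun_prop)).of_eq fun a => by cases o a <;> rfl

@[fun_prop] theorem option_map {o : α → Option β} {f : α → β → γ} (ho : PT o)
    (hf : PT fun p : α × β => f p.1 p.2) : PT fun a => (o a).map (f a) :=
  (option_casesOn (c := fun a b => Option.some (f a b)) ho (const none) (by fun_prop)).of_eq
    fun a => by cases o a <;> rfl

@[fun_prop] theorem option_bind {o : α → Option β} {f : α → β → Option γ} (ho : PT o)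
    (hf : PT fun p : α × β => f p.1 p.2) : PT fun a => (o a).bind (f a) :=
  (option_casesOn (c := f) ho (const none) hf).of_eq fun a => by cases o a <;> rfl

@[fun_prop] theorem isSome {o : α → Option β} (ho : PT o) : PT fun a => (o a).isSome :=
  (isNil ho).not.of_eq fun a => by cases o a <;> simp

@[fun_prop] theorem isNone {o : α → Option β} (ho : PT o) : PT fun a => (o a).isNone :=
  (isNil ho).of_eq fun a => by cases o a <;> simp

@[fun_prop] theorem nat_casesOn {n : α → ℕ} {z : α → γ} {c : α → ℕ → γ}
    (hn : PT n) (hz : PT z) (hc : PT fun p : α × ℕ => c p.1 p.2) :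
    PT fun a => (Nat.casesOn (motive := fun _ => γ) (n a) (z a) (c a) : γ) :=
  (ite (isZero hn) hz (comp hc (prodMk id (pred hn)))).of_eq fun a => by
    cases n a <;> simp

@[fun_prop] theorem tree_casesOn {t : α → T} {z : α → γ} {c : α → T → T → γ}
    (ht : PT t) (hz : PT z) (hc : PT fun p : α × T × T => c p.1 p.2.1 p.2.2) :
    PT fun a => (T.casesOn (motive := fun _ => γ) (t a) (z a) (c a) : γ) :=
  (ite (isNil ht) hz (comp hc (prodMk id (prodMk ht.left ht.right)))).of_eq fun a => by
    cases t a <;> simp [T.left, T.right]

@[fun_prop] theorem sum_casesOn {s : α → β ⊕ γ} {f : α → β → δ} {g : α → γ → δ}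
    (hs : PT s) (hf : PT fun p : α × β => f p.1 p.2) (hg : PT fun p : α × γ => g p.1 p.2) :
    PT fun a => (Sum.casesOn (motive := fun _ => δ) (s a) (f a) (g a) : δ) := by
  have h1 : PT fun a => (s a).getLeft? :=
    (ite (isNil hs.enc'.left) (hs.enc'.right.node (const T.nil)) (const T.nil)).out fun a => by
      cases s a <;> simp [T.left, T.right]
  have h2 : PT fun a => (s a).getRight? :=
    (ite (isNil hs.enc'.left) (const T.nil) (hs.enc'.right.node (const T.nil))).out fun a => by
      cases s a <;> simp [T.left, T.right]
  have h3 := option_casesOn (c := fun a b => enc (f a b)) h1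
    (option_casesOn (c := fun a b => enc (g a b)) h2 (const T.nil) hg.enc') hf.enc'
  exact h3.out fun a => by cases s a <;> rfl

@[fun_prop] theorem sum_elim {s : α → β ⊕ γ} {f : α → β → δ} {g : α → γ → δ}
    (hs : PT s) (hf : PT fun p : α × β => f p.1 p.2) (hg : PT fun p : α × γ => g p.1 p.2) :
    PT fun a => Sum.elim (f a) (g a) (s a) :=
  (sum_casesOn hs hf hg).of_eq fun a => by cases s a <;> rfl

@[fun_prop] theorem head? {l : α → List β} (hl : PT l) : PT fun a => (l a).head? :=
  (list_casesOn (c := fun _ b _ => Option.some b) hl (const none) (by fun_prop)).of_eq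
    fun a => by cases l a <;> rfl

@[fun_prop] theorem headD {l : α → List β} {d : α → β} (hl : PT l) (hd : PT d) :
    PT fun a => (l a).headD (d a) :=
  (list_casesOn (c := fun _ b _ => b) hl hd (by fun_prop)).of_eq fun a => by cases l a <;> rfl

/-! ### folds -/

def foldStep {β σ : Type} (f : σ → β → σ) (p : List β × σ) : List β × σ :=
  List.casesOn (motive := fun _ => List β × σ) p.1 p fun b l => (l, f p.2 b)

theorem foldStep_iter {β σ : Type} (f : σ → β → σ) (i : ℕ) (l : List β) (x : σ) :
    (foldStep f)^[i] (l, x) = (l.drop i, (l.take i).foldl f x) := by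
  induction i generalizing l x with
  | zero => simp
  | succ i ih =>
    cases l with
    | nil => rw [iterate_succ_apply, show foldStep f ([], x) = ([], x) from rfl, ih]; simp
    | cons b l => rw [iterate_succ_apply, show foldStep f (b :: l, x) = (l, f x b) from rfl, ih]; simp

/-- left fold whose accumulators have polynomial size -/
theorem foldl {l : α → List β} {init : α → σ} {f : α → σ → β → σ} (hl : PT l) (hi : PT init)
    (hf : PT fun p : α × σ × β => f p.1 p.2.1 p.2.2) {B : α → ℕ} (hB : PB sz B)
    (hb : ∀ a i, sz (((l a).take i).foldl (f a) (init a)) ≤ B a) :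
    PT fun a => (l a).foldl (f a) (init a) := by
  have hs : PT fun p : α × List β × σ => foldStep (f p.1) p.2 := by
    unfold foldStep; fun_prop
  have := iterate (step := fun a => foldStep (f a)) hl.sz' (hl.prodMk hi) hs
    (B := fun a => sz (l a) + B a + 1) ((hl.pb.add hB).add (PB.const 1)) fun a i _ => by
      rw [foldStep_iter]
      have h1 := hb a i
      have h2 : sz ((l a).drop i) ≤ sz (l a) := sz_le_of_sublist (List.drop_sublist _ _)
      simp only [sz_pair]; omega
  exact this.snd.of_eq fun a => by
    rw [foldStep_iter, List.take_of_length_le (length_le_sz _)]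

theorem sz_foldl_le {β σ : Type} [Enc σ] {f : σ → β → σ} {C : ℕ} (l : List β) (x : σ)
    (h : ∀ y, ∀ b ∈ l, sz (f y b) ≤ sz y + C) : sz (l.foldl f x) ≤ sz x + l.length * C := by
  induction l generalizing x with
  | nil => simp
  | cons b l ih =>
    have h1 := ih (f x b) fun y c hc => h y c (by simp [hc])
    have h2 := h x b (by simp)
    simp only [List.foldl_cons, List.length_cons]
    nlinarith

/-- left fold whose accumulator grows by a polynomial amount in each step -/
theorem foldl_add {l : α → List β} {init : α → σ} {f : α → σ → β → σ} (hl : PT l) (hi : PT init)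
    (hf : PT fun p : α × σ × β => f p.1 p.2.1 p.2.2) {C : α → ℕ} (hC : PB sz C)
    (hc : ∀ a x, ∀ b ∈ l a, sz (f a x b) ≤ sz x + C a) :
    PT fun a => (l a).foldl (f a) (init a) :=
  foldl hl hi hf (B := fun a => sz (init a) + sz (l a) * C a) (hi.pb.add (hl.pb.mul hC))
    fun a i => by
      have h1 := sz_foldl_le (f := f a) (C := C a) ((l a).take i) (init a)
        fun y b hb => hc a y b (List.mem_of_mem_take hb)
      have h2 : ((l a).take i).length ≤ sz (l a) :=
        (List.length_take_le' _ _).trans (length_le_sz _)
      have h3 := Nat.mul_le_mul_right (C a) h2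
      omega

/-- a polynomial bound for a function on the members of a list -/
theorem mem_bound {l : α → List β} {g : α → β → ℕ} (hl : PT l)
    (hg : PB sz fun p : α × β => g p.1 p.2) :
    ∃ C : α → ℕ, PB sz C ∧ ∀ a, ∀ b ∈ l a, g a b ≤ C a := by
  obtain ⟨p, hp⟩ := hg
  refine ⟨fun a => p.eval (sz a + sz (l a)), (PB.self.add hl.pb).eval p, fun a b hb => ?_⟩
  refine (hp (a, b)).trans (peval_mono p ?_)
  have := sz_lt_of_mem hb
  simp only [sz_pair]; omega

/-- as `foldl_add`, the increment may depend on the list member -/
theorem foldl_add' {l : α → List β} {init : α → σ} {f : α → σ → β → σ} (hl : PT l) (hi : PT init)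
    (hf : PT fun p : α × σ × β => f p.1 p.2.1 p.2.2) {g : α → β → ℕ}
    (hg : PT fun p : α × β => g p.1 p.2)
    (hc : ∀ a x b, sz (f a x b) ≤ sz x + g a b) :
    PT fun a => (l a).foldl (f a) (init a) := by
  obtain ⟨C, hC, h⟩ := mem_bound hl hg.pb_nat
  exact foldl_add hl hi hf hC fun a x b hb => (hc a x b).trans (Nat.add_le_add_left (h a b hb) _)

theorem reverseAux {l l' : α → List β} (hl : PT l) (hl' : PT l') :
    PT fun a => (l a).reverse ++ l' a :=
  (foldl_add' (f := fun _ x b => b :: x) (g := fun _ b => sz b + 1) hl hl' (by fun_prop)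
    (by fun_prop) fun a x b => by simp; omega).of_eq fun a => by
      generalize l' a = x
      induction l a generalizing x with
      | nil => rfl
      | cons b l ih => simp [ih]

@[fun_prop] theorem reverse {l : α → List β} (hl : PT l) : PT fun a => (l a).reverse :=
  (reverseAux hl (const [])).of_eq fun a => by simp

@[fun_prop] theorem append {l l' : α → List β} (hl : PT l) (hl' : PT l') :
    PT fun a => l a ++ l' a :=
  (reverseAux hl.reverse hl').of_eq fun a => by simp

theorem foldr {l : α → List β} {init : α → σ} {f : α → β → σ → σ} (hl : PT l) (hi : PT init)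
    (hf : PT fun p : α × β × σ => f p.1 p.2.1 p.2.2) {B : α → ℕ} (hB : PB sz B)
    (hb : ∀ a i, sz (((l a).drop i).foldr (f a) (init a)) ≤ B a) :
    PT fun a => (l a).foldr (f a) (init a) :=
  (foldl (f := fun a x b => f a b x) hl.reverse hi (by fun_prop) hB fun a i => by
    rw [List.take_reverse, List.foldl_reverse]; exact hb a _).of_eq fun a => by
      rw [List.foldl_reverse]

theorem foldr_add' {l : α → List β} {init : α → σ} {f : α → β → σ → σ} (hl : PT l) (hi : PT init)
    (hf : PT fun p : α × β × σ => f p.1 p.2.1 p.2.2) {g : α → β → ℕ}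
    (hg : PT fun p : α × β => g p.1 p.2)
    (hc : ∀ a b x, sz (f a b x) ≤ sz x + g a b) :
    PT fun a => (l a).foldr (f a) (init a) :=
  (foldl_add' (f := fun a x b => f a b x) hl.reverse hi (by fun_prop) hg
    fun a x b => hc a b x).of_eq fun a => by rw [List.foldl_reverse]

@[fun_prop] theorem flatMap {l : α → List β} {f : α → β → List γ} (hl : PT l)
    (hf : PT fun p : α × β => f p.1 p.2) : PT fun a => (l a).flatMap (f a) :=
  (foldr_add' (f := fun a b x => f a b ++ x) (g := fun a b => sz (f a b)) hl (const [])
    (by fun_prop) (by fun_prop) fun a x b => by simp; omega).of_eq fun a => by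
      induction l a with
      | nil => rfl
      | cons b l ih => simp [ih]

@[fun_prop] theorem map {l : α → List β} {f : α → β → γ} (hl : PT l)
    (hf : PT fun p : α × β => f p.1 p.2) : PT fun a => (l a).map (f a) :=
  (flatMap (f := fun a b => [f a b]) hl (by fun_prop)).of_eq fun a => by
    induction l a with
    | nil => rfl
    | cons b l ih => simp [ih]

@[fun_prop] theorem flatten {l : α → List (List β)} (hl : PT l) : PT fun a => (l a).flatten :=
  (flatMap (f := fun _ b => b) hl (by fun_prop)).of_eq fun a => by simp

@[fun_prop] theorem filter {l : α → List β} {f : α → β → Bool} (hl : PT l)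
    (hf : PT fun p : α × β => f p.1 p.2) : PT fun a => (l a).filter (f a) :=
  (flatMap (f := fun a b => bif f a b then [b] else []) hl (by fun_prop)).of_eq fun a => by
    induction l a with
    | nil => rfl
    | cons b l ih => cases h : f a b <;> simp [ih, h]

@[fun_prop] theorem filterMap {l : α → List β} {f : α → β → Option γ} (hl : PT l)
    (hf : PT fun p : α × β => f p.1 p.2) : PT fun a => (l a).filterMap (f a) :=
  (flatMap (f := fun a b => (f a b).toList) hl (by fun_prop)).of_eq fun a => by
    induction l a with
    | nil => rfl
    | cons b l ih => cases h : f a b <;> simp [ih, h]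

@[fun_prop] theorem length {l : α → List β} (hl : PT l) : PT fun a => (l a).length :=
  (map (f := fun _ _ => ()) hl (by fun_prop)).out fun a => by
    induction l a with
    | nil => rfl
    | cons b l ih => rw [List.map_cons, enc_cons, ih]; rfl

@[fun_prop] theorem list_sum {l : α → List ℕ} (hl : PT l) : PT fun a => (l a).sum :=
  (foldr_add' (f := fun _ b x => b + x) (g := fun _ b => b) hl (const 0)
    (by fun_prop) (by fun_prop) fun a x b => by simp; omega).of_eq fun a => by
      induction l a with
      | nil => rfl
      | cons b l ih => simp [ih]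

@[fun_prop] theorem all {l : α → List β} {f : α → β → Bool} (hl : PT l)
    (hf : PT fun p : α × β => f p.1 p.2) : PT fun a => (l a).all (f a) :=
  (isEmpty (filter (f := fun a b => !f a b) hl (by fun_prop))).of_eq fun a => by
    induction l a with
    | nil => rfl
    | cons b l ih => cases h : f a b <;> simp [h, ← ih]

@[fun_prop] theorem any {l : α → List β} {f : α → β → Bool} (hl : PT l)
    (hf : PT fun p : α × β => f p.1 p.2) : PT fun a => (l a).any (f a) :=
  (isEmpty (filter hl hf)).not.of_eq fun a => by
    induction l a with
    | nil => rfl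
    | cons b l ih => cases h : f a b <;> simp [h, ← ih]

@[fun_prop] theorem find? {l : α → List β} {f : α → β → Bool} (hl : PT l)
    (hf : PT fun p : α × β => f p.1 p.2) : PT fun a => (l a).find? (f a) :=
  (filter hl hf).head?.of_eq fun a => by simp

@[fun_prop] theorem countP {l : α → List β} {f : α → β → Bool} (hl : PT l)
    (hf : PT fun p : α × β => f p.1 p.2) : PT fun a => (l a).countP (f a) :=
  (filter hl hf).length.of_eq fun a => by simp [List.countP_eq_length_filter]

@[fun_prop] theorem replicate {n : α → ℕ} {x : α → β} (hn : PT n) (hx : PT x) :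
    PT fun a => List.replicate (n a) (x a) :=
  (iterate_add (step := fun a l => x a :: l) hn (const []) (by fun_prop)
    (C := fun a => sz (x a) + 1) (hx.pb.add (PB.const 1)) fun a l => by simp; omega).of_eq
    fun a => by
      induction n a with
      | zero => rfl
      | succ n ih => rw [iterate_succ_apply', ih]; rfl

theorem iter_range (n : ℕ) :
    (fun l : List ℕ => l.length :: l)^[n] [] = (List.range n).reverse := by
  induction n with
  | zero => rfl
  | succ n ih => rw [iterate_succ_apply', ih]; simp [List.range_succ]

@[fun_prop] theorem range {n : α → ℕ} (hn : PT n) : PT fun a => List.range (n a) :=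
  (iterate (step := fun _ (l : List ℕ) => l.length :: l) hn (const []) (by fun_prop)
    (B := fun a => n a * (n a + 1)) (hn.pb_nat.mul (hn.pb_nat.add (PB.const 1)))
    fun a i hi => by
      rw [iter_range, sz_reverse]
      have := sz_list_le (l := List.range i) (B := n a) fun x hx => by
        simp at hx ⊢; omega
      simp only [List.length_range] at this
      nlinarith).reverse.of_eq fun a => by simp [iter_range]

@[fun_prop] theorem drop {n : α → ℕ} {l : α → List β} (hn : PT n) (hl : PT l) :
    PT fun a => (l a).drop (n a) :=
  (iterate_add (step := fun _ (l : List β) => l.tail) hn hl (by fun_prop) (PB.const 0)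
    fun a l => sz_le_of_sublist (List.tail_sublist l)).of_eq fun a => by
      induction n a with
      | zero => rfl
      | succ n ih => rw [iterate_succ_apply', ih]; simp

@[fun_prop] theorem take {n : α → ℕ} {l : α → List β} (hn : PT n) (hl : PT l) :
    PT fun a => (l a).take (n a) :=
  (drop (hl.length.sub hn) hl.reverse).reverse.of_eq fun a => by
    rw [List.drop_reverse, List.reverse_reverse]
    by_cases h : n a ≤ (l a).length
    · congr 1; omega
    · rw [List.take_of_length_le (by omega), List.take_of_length_le (by omega)]

@[fun_prop] theorem getElem? {n : α → ℕ} {l : α → List β} (hl : PT l) (hn : PT n) :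
    PT fun a => (l a)[n a]? :=
  (drop hn hl).head?.of_eq fun a => by simp

@[fun_prop] theorem getD {n : α → ℕ} {l : α → List β} {d : α → β} (hl : PT l) (hn : PT n)
    (hd : PT d) : PT fun a => (l a).getD (n a) (d a) :=
  ((getElem? hl hn).option_getD hd).of_eq fun a => by simp

@[fun_prop] theorem getLast? {l : α → List β} (hl : PT l) : PT fun a => (l a).getLast? :=
  hl.reverse.head?.of_eq fun a => by simp

@[fun_prop] theorem dropLast {l : α → List β} (hl : PT l) : PT fun a => (l a).dropLast :=
  (take (hl.length.sub (const 1)) hl).of_eq fun a => by rw [List.dropLast_eq_take]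

@[fun_prop] theorem range' {s n : α → ℕ} (hs : PT s) (hn : PT n) :
    PT fun a => List.range' (s a) (n a) :=
  (map (f := fun a i => s a + i) hn.range (by fun_prop)).of_eq fun a => by
    rw [List.range'_eq_map_range]

@[fun_prop] theorem zipWith {l : α → List β} {l' : α → List γ} {f : α → β → γ → δ} (hl : PT l)
    (hl' : PT l') (hf : PT fun p : α × β × γ => f p.1 p.2.1 p.2.2) :
    PT fun a => List.zipWith (f a) (l a) (l' a) := by
  have := filterMap (f := fun a i => ((l a)[i]?).bind fun x => ((l' a)[i]?).map fun y => f a x y)
    hl.length.range (by fun_prop)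
  refine this.of_eq fun a => ?_
  generalize l' a = y
  induction l a generalizing y with
  | nil => simp
  | cons b l ih =>
    cases y with
    | nil => simp
    | cons c y =>
      simp only [List.length_cons, List.range_succ_eq_map, List.filterMap_cons,
        List.getElem?_cons_zero, Option.bind_some, Option.map_some, List.filterMap_map,
        List.zipWith_cons_cons, List.cons.injEq, true_and]
      exact ih y

@[fun_prop] theorem zip {l : α → List β} {l' : α → List γ} (hl : PT l) (hl' : PT l') :
    PT fun a => (l a).zip (l' a) :=
  zipWith (f := fun _ b c => (b, c)) hl hl' (by fun_prop)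

@[fun_prop] theorem zipIdx {l : α → List β} {n : α → ℕ} (hl : PT l) (hn : PT n) :
    PT fun a => (l a).zipIdx (n a) :=
  (zip hl (range' hn hl.length)).of_eq fun a => by rw [List.zipIdx_eq_zip_range']

@[fun_prop] theorem set {l : α → List β} {n : α → ℕ} {x : α → β} (hl : PT l) (hn : PT n)
    (hx : PT x) : PT fun a => (l a).set (n a) (x a) :=
  (ite (dec_lt hn hl.length) ((take hn hl).append (hx.cons (drop hn.succ hl))) hl).of_eq
    fun a => by rw [List.set_eq_take_append_cons_drop]

@[fun_prop] theorem div {f g : α → ℕ} (hf : PT f) (hg : PT g) : PT fun a => f a / g a := by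
  have := ite (isZero hg) (const 0)
    (countP (f := fun a i => decide ((i + 1) * g a ≤ f a)) hf.range (by fun_prop))
  refine this.of_eq fun a => ?_
  split_ifs with h
  · simp [h]
  · have hpos : 0 < g a := Nat.pos_of_ne_zero h
    have e : ∀ i, ((i + 1) * g a ≤ f a) ↔ i < f a / g a := fun i => by
      rw [← Nat.le_div_iff_mul_le hpos]; omega
    simp only [e]
    rw [List.countP_eq_length_filter]
    have hle : f a / g a ≤ f a := Nat.div_le_self _ _
    have : (List.range (f a)).filter (fun i => decide (i < f a / g a)) = List.range (f a / g a) := by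
      obtain ⟨k, hk⟩ := Nat.exists_eq_add_of_le hle
      conv_lhs => rw [hk]
      rw [List.range_add, List.filter_append, List.filter_eq_self.2 (by simp [← hk]),
        List.filter_eq_nil_iff.2 (by simp [← hk])]
      simp
    rw [this]; simp

@[fun_prop] theorem mod {f g : α → ℕ} (hf : PT f) (hg : PT g) : PT fun a => f a % g a :=
  (hf.sub (hg.mul (hf.div hg))).of_eq fun a => by rw [Nat.mod_def]

end PT

example : PT fun p : List ℕ × ℕ =>
    (p.1.flatMap fun x => (List.range (x + p.2)).map fun y => (x, y, p.1.getD y 0)).length := by
  fun_prop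

end Pool.Agent.Lib.Complexity
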