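import Mathlib

/-!
A small structured language over registers holding bit strings, its cost semantics, and its
compilation to the stack machines of Mathlib.
-/

set_option autoImplicit false

namespace Pool.Agent.Lib.Complexity

open Function Turing

abbrev Str := List Bool
abbrev St := ℕ → Str

inductive Prog
  | skip
  | push (r : ℕ) (b : Bool)
  | pop (r : ℕ)
  | seq (P Q : Prog)
  | ite (r : ℕ) (P Q : Prog)
  | loop (r : ℕ) (P : Prog)

inductive Eval : Prog → St → St → ℕ → Prop
  | skip (s : St) : Eval .skip s s 1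
  | push (r : ℕ) (b : Bool) (s : St) : Eval (.push r b) s (update s r (b :: s r)) 1
  | pop (r : ℕ) (s : St) : Eval (.pop r) s (update s r (s r).tail) 1
  | seq {P Q : Prog} {s s' s'' : St} {t u : ℕ} :
      Eval P s s' t → Eval Q s' s'' u → Eval (.seq P Q) s s'' (t + u)
  | iteT {r : ℕ} {P Q : Prog} {s s' : St} {t : ℕ} :
      (s r).head? = some true → Eval P s s' t → Eval (.ite r P Q) s s' (t + 1)
  | iteF {r : ℕ} {P Q : Prog} {s s' : St} {t : ℕ} :
      (s r).head? ≠ some true → Eval Q s s' t → Eval (.ite r P Q) s s' (t + 1)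
  | loop0 {r : ℕ} {P : Prog} {s : St} : s r = [] → Eval (.loop r P) s s 1
  | loopS {r : ℕ} {P : Prog} {s s' s'' : St} {t u : ℕ} :
      s r ≠ [] → Eval P s s' t → Eval (.loop r P) s' s'' u → Eval (.loop r P) s s'' (t + u + 1)
  | mono {P : Prog} {s s' : St} {t u : ℕ} : Eval P s s' t → t ≤ u → Eval P s s' u

theorem Eval.length_le {P : Prog} {s s' : St} {t : ℕ} (h : Eval P s s' t) (r : ℕ) :
    (s' r).length ≤ (s r).length + t := by
  induction h with
  | skip s => omega
  | push r' b s =>
    by_cases h : r = r'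
    · subst h; simp
    · simp [update_of_ne h]
  | pop r' s =>
    by_cases h : r = r'
    · subst h; simp; omega
    · simp [update_of_ne h]
  | seq _ _ ih1 ih2 => omega
  | iteT _ _ ih => omega
  | iteF _ _ ih => omega
  | loop0 _ => omega
  | loopS _ _ _ ih1 ih2 => omega
  | mono _ _ ih => omega

theorem Eval.of_eq {P : Prog} {s s' s'' : St} {t u : ℕ} (h : Eval P s s' t) (e : s' = s'')
    (l : t ≤ u) : Eval P s s'' u := (e ▸ h).mono l

namespace Prog

def Lab : Prog → Type
  | skip => Unit
  | push _ _ => Unit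
  | pop _ => Unit
  | seq P Q => P.Lab ⊕ Q.Lab
  | ite _ P Q => Option (P.Lab ⊕ Q.Lab)
  | loop _ P => Option P.Lab

@[instance_reducible]
def labFintype : (P : Prog) → Fintype P.Lab
  | skip => inferInstanceAs (Fintype Unit)
  | push _ _ => inferInstanceAs (Fintype Unit)
  | pop _ => inferInstanceAs (Fintype Unit)
  | seq P Q =>
    letI := labFintype P
    letI := labFintype Q
    inferInstanceAs (Fintype (P.Lab ⊕ Q.Lab))
  | ite _ P Q =>
    letI := labFintype P
    letI := labFintype Q
    inferInstanceAs (Fintype (Option (P.Lab ⊕ Q.Lab)))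
  | loop _ P =>
    letI := labFintype P
    inferInstanceAs (Fintype (Option P.Lab))

def entry : (P : Prog) → P.Lab
  | skip => ()
  | push _ _ => ()
  | pop _ => ()
  | seq P _ => Sum.inl P.entry
  | ite _ _ _ => none
  | loop _ _ => none

/-- all registers mentioned are at most this number -/
def bnd : Prog → ℕ
  | skip => 0
  | push r _ => r
  | pop r => r
  | seq P Q => max P.bnd Q.bnd
  | ite r P Q => max r (max P.bnd Q.bnd)
  | loop r P => max r P.bnd

abbrev Sm (K Λ : Type) := TM2.Stmt (fun _ : K => Bool) Λ Bool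

def code {K Λ : Type} (ρ : ℕ → K) : (P : Prog) → (P.Lab → Λ) → Sm K Λ → P.Lab → Sm K Λ
  | skip, _, k, _ => k
  | push r b, _, k, _ => .push (ρ r) (fun _ => b) k
  | pop r, _, k, _ => .pop (ρ r) (fun v _ => v) k
  | seq P Q, ι, _, Sum.inl l =>
      code ρ P (fun x => ι (Sum.inl x)) (.goto fun _ => ι (Sum.inr Q.entry)) l
  | seq _ Q, ι, k, Sum.inr l => code ρ Q (fun x => ι (Sum.inr x)) k l
  | ite r P Q, ι, _, none =>
      .peek (ρ r) (fun _ o => decide (o = some true))
        (.branch id (.load (fun _ => false) (.goto fun _ => ι (some (Sum.inl P.entry))))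
          (.goto fun _ => ι (some (Sum.inr Q.entry))))
  | ite _ P _, ι, k, some (Sum.inl l) => code ρ P (fun x => ι (some (Sum.inl x))) k l
  | ite _ _ Q, ι, k, some (Sum.inr l) => code ρ Q (fun x => ι (some (Sum.inr x))) k l
  | loop r P, ι, k, none =>
      .peek (ρ r) (fun _ o => o.isSome)
        (.branch id (.load (fun _ => false) (.goto fun _ => ι (some P.entry))) k)
  | loop _ P, ι, _, some l => code ρ P (fun x => ι (some x)) (.goto fun _ => ι none) l

end Prog

section Sim

variable {M : ℕ}

def rho (M : ℕ) (r : ℕ) : Fin (M + 1) := Fin.ofNat (M + 1) r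

def res (M : ℕ) (s : St) : Fin (M + 1) → Str := fun k => s k.val

theorem rho_val {r : ℕ} (h : r ≤ M) : (rho M r).val = r := by
  simp [rho, Fin.ofNat, Nat.mod_eq_of_lt (Nat.lt_succ_of_le h)]

theorem res_rho {r : ℕ} (h : r ≤ M) (s : St) : res M s (rho M r) = s r := by
  simp [res, rho_val h]

theorem res_update {r : ℕ} (h : r ≤ M) (s : St) (v : Str) :
    res M (update s r v) = update (res M s) (rho M r) v := by
  funext k
  by_cases hk : k = rho M r
  · subst hk; simp [res, rho_val h]
  · have : k.val ≠ r := fun e => hk (Fin.ext (by rw [rho_val h, e]))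
    simp [res, update_of_ne this, update_of_ne hk]

def Reach {Λ : Type} (m : Λ → Prog.Sm (Fin (M + 1)) Λ)
    (a b : TM2.Cfg (fun _ : Fin (M + 1) => Bool) Λ Bool) (t : ℕ) : Prop :=
  ∃ n ≤ t, (flip bind (TM2.step m))^[n] (some a) = some b

theorem Reach.trans {Λ : Type} {m : Λ → Prog.Sm (Fin (M + 1)) Λ}
    {a b c : TM2.Cfg (fun _ : Fin (M + 1) => Bool) Λ Bool} {t u : ℕ}
    (h1 : Reach m a b t) (h2 : Reach m b c u) : Reach m a c (t + u) := by
  obtain ⟨n1, l1, e1⟩ := h1
  obtain ⟨n2, l2, e2⟩ := h2
  exact ⟨n2 + n1, by omega, by rw [iterate_add_apply, e1, e2]⟩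

theorem Reach.one {Λ : Type} {m : Λ → Prog.Sm (Fin (M + 1)) Λ} (l : Λ) (v : Bool)
    (S : Fin (M + 1) → Str) : Reach m ⟨some l, v, S⟩ (TM2.stepAux (m l) v S) 1 :=
  ⟨1, le_rfl, rfl⟩

theorem Reach.mono {Λ : Type} {m : Λ → Prog.Sm (Fin (M + 1)) Λ}
    {a b : TM2.Cfg (fun _ : Fin (M + 1) => Bool) Λ Bool} {t u : ℕ}
    (h : Reach m a b t) (l : t ≤ u) : Reach m a b u := by
  obtain ⟨n, ln, e⟩ := h
  exact ⟨n, by omega, e⟩

theorem Eval.sim {Λ : Type} (m : Λ → Prog.Sm (Fin (M + 1)) Λ) {P : Prog} {s s' : St} {t : ℕ}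
    (h : Eval P s s' t) : ∀ (ι : P.Lab → Λ) (k : Prog.Sm (Fin (M + 1)) Λ), P.bnd ≤ M →
      (∀ l, m (ι l) = P.code (rho M) ι k l) →
      Reach m ⟨some (ι P.entry), false, res M s⟩ (TM2.stepAux k false (res M s')) t := by
  induction h with
  | skip s =>
    intro ι k _ hm
    have := Reach.one (m := m) (ι Prog.skip.entry) false (res M s)
    rwa [hm] at this
  | push r b s =>
    intro ι k hb hm
    have := Reach.one (m := m) (ι (Prog.push r b).entry) false (res M s)
    rw [hm] at this
    have hb' : r ≤ M := hb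
    rw [res_update hb']
    simpa [Prog.code, res_rho hb'] using this
  | pop r s =>
    intro ι k hb hm
    have := Reach.one (m := m) (ι (Prog.pop r).entry) false (res M s)
    rw [hm] at this
    have hb' : r ≤ M := hb
    rw [res_update hb']
    simpa [Prog.code, res_rho hb'] using this
  | @seq P Q s s' s'' t u _ _ ih1 ih2 =>
    intro ι k hb hm
    have hb' : max P.bnd Q.bnd ≤ M := hb
    have h1 := ih1 (fun x => ι (Sum.inl x)) (.goto fun _ => ι (Sum.inr Q.entry)) (by omega)
      (fun l => hm (Sum.inl l))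
    have h2 := ih2 (fun x => ι (Sum.inr x)) k (by omega) (fun l => hm (Sum.inr l))
    exact h1.trans h2
  | @iteT r P Q s s' t hh _ ih =>
    intro ι k hb hm
    have hb' : max r (max P.bnd Q.bnd) ≤ M := hb
    have h1 := Reach.one (m := m) (ι (Prog.ite r P Q).entry) false (res M s)
    rw [hm] at h1
    have h2 := ih (fun x => ι (some (Sum.inl x))) k (by omega) (fun l => hm (some (Sum.inl l)))
    have hr : r ≤ M := by omega
    have e : TM2.stepAux ((Prog.ite r P Q).code (rho M) ι k (Prog.ite r P Q).entry) false (res M s)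
        = ⟨some (ι (some (Sum.inl P.entry))), false, res M s⟩ := by
      simp [Prog.code, Prog.entry, res_rho hr, hh]
    rw [e] at h1
    exact (h1.trans h2).mono (by omega)
  | @iteF r P Q s s' t hh _ ih =>
    intro ι k hb hm
    have hb' : max r (max P.bnd Q.bnd) ≤ M := hb
    have h1 := Reach.one (m := m) (ι (Prog.ite r P Q).entry) false (res M s)
    rw [hm] at h1
    have h2 := ih (fun x => ι (some (Sum.inr x))) k (by omega) (fun l => hm (some (Sum.inr l)))
    have hr : r ≤ M := by omega
    have e : TM2.stepAux ((Prog.ite r P Q).code (rho M) ι k (Prog.ite r P Q).entry) false (res M s)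
        = ⟨some (ι (some (Sum.inr Q.entry))), false, res M s⟩ := by
      simp [Prog.code, Prog.entry, res_rho hr, hh]
    rw [e] at h1
    exact (h1.trans h2).mono (by omega)
  | @loop0 r P s hh =>
    intro ι k hb hm
    have hb' : max r P.bnd ≤ M := hb
    have h1 := Reach.one (m := m) (ι (Prog.loop r P).entry) false (res M s)
    rw [hm] at h1
    have hr : r ≤ M := by omega
    have e : TM2.stepAux ((Prog.loop r P).code (rho M) ι k (Prog.loop r P).entry) false (res M s)
        = TM2.stepAux k false (res M s) := by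
      simp [Prog.code, Prog.entry, res_rho hr, hh]
    rwa [e] at h1
  | @loopS r P s s' s'' t u hh _ _ ih1 ih2 =>
    intro ι k hb hm
    have hb' : max r P.bnd ≤ M := hb
    have h1 := Reach.one (m := m) (ι (Prog.loop r P).entry) false (res M s)
    rw [hm] at h1
    have hr : r ≤ M := by omega
    have e : TM2.stepAux ((Prog.loop r P).code (rho M) ι k (Prog.loop r P).entry) false (res M s)
        = ⟨some (ι (some P.entry)), false, res M s⟩ := by
      obtain ⟨b, l, hbl⟩ := List.exists_cons_of_ne_nil hh
      simp [Prog.code, Prog.entry, res_rho hr, hbl]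
    rw [e] at h1
    have h2 := ih1 (fun x => ι (some x)) (.goto fun _ => ι none) (by omega)
      (fun l => hm (some l))
    have h3 := ih2 ι k hb hm
    exact ((h1.trans h2).trans h3).mono (by omega)
  | mono _ l ih =>
    intro ι k hb hm
    exact (ih ι k hb hm).mono l

end Sim

/-- `P` turns `x` in register `0` into `y`, using registers below `N` as scratch. -/
def Spec (P : Prog) (N : ℕ) (x y : Str) (T : ℕ) : Prop :=
  ∀ s : St, s 0 = x → (∀ i, 0 < i → i < N → s i = []) → Eval P s (update s 0 y) T

theorem Spec.mono {P : Prog} {N N' : ℕ} {x y : Str} {T T' : ℕ} (h : Spec P N x y T)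
    (hN : N ≤ N') (hT : T ≤ T') : Spec P N' x y T' :=
  fun s h0 hs => (h s h0 fun i h1 h2 => hs i h1 (by omega)).mono hT

theorem Spec.length_le {P : Prog} {N : ℕ} {x y : Str} {T : ℕ} (h : Spec P N x y T) :
    y.length ≤ x.length + T := by
  have := (h (update (fun _ => []) 0 x) (by simp) (fun i h1 _ => by
    rw [update_of_ne (by omega)])).length_le 0
  simpa using this

/-- Polynomial time with respect to two string encodings. -/
def RPT {α β : Type} (ea : α → Str) (eb : β → Str) (f : α → β) : Prop :=
  ∃ (P : Prog) (N : ℕ) (p : Polynomial ℕ), ∀ a, Spec P N (ea a) (eb (f a)) (p.eval (ea a).length)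

/-- The stack machine of a program. -/
def Prog.machine (P : Prog) : FinTM2 where
  K := Fin (P.bnd + 1)
  k₀ := 0
  k₁ := 0
  Γ _ := Bool
  Λ := P.Lab
  main := P.entry
  ΛFin := P.labFintype
  σ := Bool
  initialState := false
  m := P.code (rho P.bnd) id .halt

theorem RPT.tm2 {α β : Type} {ea : α → Str} {eb : β → Str} {f : α → β} (h : RPT ea eb f) :
    Nonempty (TM2ComputableInPolyTime ea eb f) := by
  obtain ⟨P, N, p, h⟩ := h
  have key : ∀ a, ∃ n ≤ p.eval (ea a).length,
      (flip bind P.machine.step)^[n] (some (initList P.machine (ea a)))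
        = some (haltList P.machine (eb (f a))) := by
    intro a
    have h1 := h a (update (fun _ => []) 0 (ea a)) (by simp) (fun i h1 _ => by
      rw [update_of_ne (by omega)])
    have h2 := h1.sim (M := P.bnd) (P.code (rho P.bnd) id .halt) id .halt le_rfl (fun _ => rfl)
    obtain ⟨n, ln, e⟩ := h2
    refine ⟨n, ln, ?_⟩
    have e1 : initList P.machine (ea a)
        = ⟨some P.entry, false, res P.bnd (update (fun _ => []) 0 (ea a))⟩ := by
      simp only [initList, Prog.machine]
      congr 1
      funext k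
      by_cases hk : k = 0
      · subst hk; simp [res]
      · have : k.val ≠ 0 := fun e => hk (Fin.ext e)
        simp [res, hk]
    have e2 : haltList P.machine (eb (f a))
        = ⟨none, false, res P.bnd (update (update (fun _ => []) 0 (ea a)) 0 (eb (f a)))⟩ := by
      simp only [haltList, Prog.machine]
      congr 1
      funext k
      by_cases hk : k = 0
      · subst hk; simp [res]
      · have : k.val ≠ 0 := fun e => hk (Fin.ext e)
        simp [res, hk]
    rw [e1, e2]
    exact e
  choose n hn he using key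
  refine ⟨{ tm := P.machine
            inputAlphabet := Equiv.refl Bool
            outputAlphabet := Equiv.refl Bool
            time := p
            outputsFun := fun a => ⟨⟨n a, ?_⟩, hn a⟩ }⟩
  have e1 : List.map (Equiv.refl Bool).invFun (ea a) = ea a := List.map_id _
  have e2 : List.map (Equiv.refl Bool).invFun (eb (f a)) = eb (f a) := List.map_id _
  exact (congrArg₂ (fun x y => (flip bind P.machine.step)^[n a] (some (initList P.machine x))
    = some (haltList P.machine y)) e1 e2).mpr (he a)

end Pool.Agent.Lib.Complexity
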