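import Pool.Agent.Lib.Complexity.Lists

/-!
General recursion with polynomially bounded values, equality tests, serialisation of codes.
-/

set_option autoImplicit false
set_option linter.unusedSimpArgs false

namespace Pool.Agent.Lib.Complexity

open Function

section machine
variable {τ ρ : Type}

def recStep (dest : τ → List τ) (comb : τ → List ρ → ρ) (s : List (Bool × τ) × List ρ) :
    List (Bool × τ) × List ρ :=
  List.casesOn (motive := fun _ => List (Bool × τ) × List ρ) s.1 s fun p W =>
    bif p.1 then
      (W, comb p.2 (s.2.take (dest p.2).length).reverse :: s.2.drop (dest p.2).length)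
    else (((dest p.2).map fun z => (false, z)) ++ (true, p.2) :: W, s.2)

def RunG {σ : Type} (f : σ → σ) (G : σ → Prop) (s s' : σ) (n : ℕ) : Prop :=
  f^[n] s = s' ∧ ∀ i ≤ n, G (f^[i] s)

theorem RunG.trans {σ : Type} {f : σ → σ} {G : σ → Prop} {s s' s'' : σ} {n m : ℕ}
    (h1 : RunG f G s s' n) (h2 : RunG f G s' s'' m) : RunG f G s s'' (n + m) := by
  refine ⟨by rw [add_comm, iterate_add_apply, h1.1, h2.1], fun i hi => ?_⟩
  by_cases h : i ≤ n
  · exact h1.2 i h
  · obtain ⟨k, rfl⟩ : ∃ k, i = k + n := ⟨i - n, by omega⟩
    rw [iterate_add_apply, h1.1]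
    exact h2.2 k (by omega)

theorem RunG.zero {σ : Type} {f : σ → σ} {G : σ → Prop} {s : σ} (h : G s) : RunG f G s s 0 :=
  ⟨rfl, fun i hi => by obtain rfl : i = 0 := by omega
                       exact h⟩

theorem RunG.one {σ : Type} {f : σ → σ} {G : σ → Prop} {s s' : σ} (h : G s) (h' : G s')
    (e : f s = s') : RunG f G s s' 1 :=
  ⟨e, fun i hi => by
    rcases Nat.le_one_iff_eq_zero_or_eq_one.1 hi with rfl | rfl
    · exact h
    · simpa [e] using h'⟩

variable {dest : τ → List τ} {comb : τ → List ρ → ρ} {g : τ → ρ} {I : τ → Prop} {J : ρ → Prop}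
  {μ : τ → ℕ}

def recGood (I : τ → Prop) (J : ρ → Prop) (s : List (Bool × τ) × List ρ) : Prop :=
  (∀ p ∈ s.1, I p.2) ∧ ∀ r ∈ s.2, J r

theorem rec_run (hg : ∀ y, I y → g y = comb y ((dest y).map g))
    (hI : ∀ y, I y → ∀ z ∈ dest y, I z) (hJ : ∀ y, I y → J (g y))
    (hμ : ∀ y, I y → ((dest y).map μ).sum < μ y) (m : ℕ) :
    ∀ y, μ y ≤ m → I y → ∀ W R, recGood I J (W, R) →
      ∃ n ≤ 2 * μ y, RunG (recStep dest comb) (recGood I J) ((false, y) :: W, R) (W, g y :: R) n := by
  induction m with
  | zero =>
    intro y hy hIy
    have := hμ y hIy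
    omega
  | succ m ih =>
    intro y hy hIy W R hG
    have key : ∀ zs : List τ, (∀ z ∈ zs, I z) → (zs.map μ).sum ≤ m → ∀ W R, recGood I J (W, R) →
        ∃ n ≤ 2 * (zs.map μ).sum, RunG (recStep dest comb) (recGood I J)
          ((zs.map fun z => (false, z)) ++ W, R) (W, (zs.map g).reverse ++ R) n := by
      intro zs
      induction zs with
      | nil => intro _ _ W R hG; exact ⟨0, by simp, RunG.zero hG⟩
      | cons z zs ihz =>
        intro hz hs W R hG
        simp only [List.map_cons, List.sum_cons] at hs
        have hzI := hz z (by simp)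
        obtain ⟨n1, l1, r1⟩ := ih z (by omega) hzI ((zs.map fun z => (false, z)) ++ W) R
          ⟨by
            intro p hp
            rcases List.mem_append.1 hp with hp | hp
            · obtain ⟨w, hw, rfl⟩ := List.mem_map.1 hp
              exact hz w (by simp [hw])
            · exact hG.1 p hp, hG.2⟩
        obtain ⟨n2, l2, r2⟩ := ihz (fun w hw => hz w (by simp [hw])) (by omega) W (g z :: R)
          ⟨hG.1, by
            intro r hr
            rcases List.mem_cons.1 hr with rfl | hr
            · exact hJ z hzI
            · exact hG.2 r hr⟩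
        refine ⟨n1 + n2, by simp only [List.map_cons, List.sum_cons]; omega, ?_⟩
        simpa using r1.trans r2
    have hm := hμ y hIy
    have hG1 : recGood I J ((true, y) :: W, R) := ⟨by
      intro p hp
      rcases List.mem_cons.1 hp with rfl | hp
      · exact hIy
      · exact hG.1 p hp, hG.2⟩
    obtain ⟨n, ln, rn⟩ := key (dest y) (hI y hIy) (by omega) ((true, y) :: W) R hG1
    have hG0 : recGood I J ((false, y) :: W, R) := ⟨by
      intro p hp
      rcases List.mem_cons.1 hp with rfl | hp
      · exact hIy
      · exact hG.1 p hp, hG.2⟩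
    have hG3 : recGood I J (W, g y :: R) := ⟨hG.1, by
      intro r hr
      rcases List.mem_cons.1 hr with rfl | hr
      · exact hJ y hIy
      · exact hG.2 r hr⟩
    have r0 : RunG (recStep dest comb) (recGood I J) ((false, y) :: W, R)
        (((dest y).map fun z => (false, z)) ++ (true, y) :: W, R) 1 :=
      RunG.one hG0 (by simpa using rn.2 0 (by omega)) rfl
    have r2 : RunG (recStep dest comb) (recGood I J)
        ((true, y) :: W, ((dest y).map g).reverse ++ R) (W, g y :: R) 1 := by
      refine RunG.one (by simpa [rn.1] using rn.2 n le_rfl) hG3 ?_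
      simp [recStep, hg y hIy, List.take_append_of_le_length, List.drop_append_of_le_length]
    exact ⟨1 + n + 1, by omega, (r0.trans rn).trans r2⟩

theorem recStep_length (s : List (Bool × τ) × List ρ) {B : ℕ}
    (h : ∀ p ∈ s.1, (dest p.2).length ≤ B) :
    (recStep dest comb s).1.length + (recStep dest comb s).2.length
      ≤ s.1.length + s.2.length + B := by
  obtain ⟨W, R⟩ := s
  cases W with
  | nil => simp [recStep]
  | cons p W =>
    obtain ⟨b, y⟩ := p
    have := h (b, y) (by simp)
    cases b <;> simp [recStep] at this ⊢ <;> omega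

end machine

namespace PT

variable {α β γ τ ρ : Type} [Enc α] [Enc β] [Enc γ] [Enc τ] [Enc ρ]

/-- General recursion. `I a` is an invariant of the arguments met while computing `g a (x a)`. -/
theorem recursion_inv {x : α → τ} {dest : α → τ → List τ} {comb : α → τ → List ρ → ρ}
    {g : α → τ → ρ} (hx : PT x) (hd : PT fun p : α × τ => dest p.1 p.2)
    (hc : PT fun p : α × τ × List ρ => comb p.1 p.2.1 p.2.2)
    (I : α → τ → Prop) (μ : α → τ → ℕ) {B : α → ℕ} (hB : PB sz B)
    (hg : ∀ a y, I a y → g a y = comb a y ((dest a y).map (g a)))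
    (h0 : ∀ a, I a (x a)) (hI : ∀ a y, I a y → ∀ z ∈ dest a y, I a z)
    (hμ : ∀ a y, I a y → ((dest a y).map (μ a)).sum < μ a y)
    (hb : ∀ a y, I a y → sz y ≤ B a ∧ sz (g a y) ≤ B a ∧ μ a y ≤ B a) :
    PT fun a => g a (x a) := by
  obtain ⟨q, hq⟩ := hB
  have hB' : PT fun a : α => q.eval (sz a) := poly_eval (sz' id) q
  set B' : α → ℕ := fun a => q.eval (sz a) with hB'def
  have hs : PT fun p : α × List (Bool × τ) × List ρ => recStep (dest p.1) (comb p.1) p.2 := by
    unfold recStep; fun_prop
  have run : ∀ a, ∃ n ≤ 2 * μ a (x a), RunG (recStep (dest a) (comb a))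
      (recGood (I a) fun r => sz r ≤ B' a) ([(false, x a)], []) ([], [g a (x a)]) n := fun a =>
    rec_run (hg a) (hI a) (fun y hy => (hb a y hy).2.1.trans (hq a)) (hμ a) _ (x a) le_rfl (h0 a)
      [] [] ⟨by simp, by simp⟩
  have fin : ∀ a n i, (recStep (dest a) (comb a))^[n] ([(false, x a)], []) = ([], [g a (x a)]) →
      n ≤ i → (recStep (dest a) (comb a))^[i] ([(false, x a)], []) = ([], [g a (x a)]) := by
    intro a n i h hi
    obtain ⟨k, rfl⟩ : ∃ k, i = k + n := ⟨i - n, by omega⟩
    rw [iterate_add_apply, h]
    exact iterate_fixed rfl k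
  have good : ∀ a i, recGood (I a) (fun r => sz r ≤ B' a)
      ((recStep (dest a) (comb a))^[i] ([(false, x a)], [])) := by
    intro a i
    obtain ⟨n, _, rn⟩ := run a
    by_cases h : i ≤ n
    · exact rn.2 i h
    · rw [fin a n i rn.1 (by omega), ← rn.1]
      exact rn.2 n le_rfl
  have dlen : ∀ a y, I a y → (dest a y).length ≤ B' a := by
    intro a y hy
    have h1 := hμ a y hy
    have h2 := (hb a y hy).2.2.trans (hq a)
    have h3 : (dest a y).length ≤ ((dest a y).map (μ a)).sum := by
      have := List.card_nsmul_le_sum ((dest a y).map (μ a)) 1 (by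
        intro v hv
        obtain ⟨z, hz, rfl⟩ := List.mem_map.1 hv
        have := hμ a z (hI a y hy z hz)
        omega)
      simpa using this
    simp only [hB'def]; omega
  have len : ∀ a i, ((recStep (dest a) (comb a))^[i] ([(false, x a)], [])).1.length
      + ((recStep (dest a) (comb a))^[i] ([(false, x a)], [])).2.length ≤ 1 + i * B' a := by
    intro a i
    induction i with
    | zero => simp
    | succ i ih =>
      rw [iterate_succ_apply']
      have := recStep_length (comb := comb a) _ (B := B' a)
        fun p hp => dlen a p.2 ((good a i).1 p hp)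
      nlinarith
  have main := iterate (n := fun a => 2 * B' a) (init := fun a => ([(false, x a)], ([] : List ρ)))
    (step := fun a => recStep (dest a) (comb a)) (by fun_prop) (by fun_prop) hs
    (B := fun a => (1 + 2 * B' a * B' a) * (B' a + 3) + 1)
    (pb_nat (by fun_prop)) (fun a i hi => by
      have h1 := len a i
      have h2 := good a i
      generalize (recStep (dest a) (comb a))^[i] ([(false, x a)], []) = s at h1 h2
      obtain ⟨W, R⟩ := s
      have h3 : sz W ≤ W.length * (B' a + 2 + 1) := sz_list_le fun p hp => by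
        have := (hb a p.2 (h2.1 p hp)).1.trans (hq a)
        have := sz_bool p.1
        rw [sz_prod]; simp only [hB'def]; omega
      have h4 : sz R ≤ R.length * (B' a + 1) := sz_list_le h2.2
      have h5 : i * B' a ≤ 2 * B' a * B' a := Nat.mul_le_mul_right _ hi.le
      simp only [sz_pair] at h1 ⊢
      have h6 : (W.length + R.length) * (B' a + 3) ≤ (1 + 2 * B' a * B' a) * (B' a + 3) :=
        Nat.mul_le_mul_right _ (by omega)
      nlinarith)
  refine main.snd.enc'.left.out fun a => ?_
  obtain ⟨n, ln, rn⟩ := run a
  have := (hb a _ (h0 a)).2.2.trans (hq a)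
  rw [fin a n (2 * B' a) rn.1 (by simp only [hB'def]; omega)]
  rfl

/-- Structural recursion: the children are smaller, the values have polynomial size. -/
theorem recursion {dest : α → τ → List τ} {comb : α → τ → List ρ → ρ}
    {g : α → τ → ρ} (hd : PT fun p : α × τ => dest p.1 p.2)
    (hc : PT fun p : α × τ × List ρ => comb p.1 p.2.1 p.2.2)
    (hg : ∀ a y, g a y = comb a y ((dest a y).map (g a)))
    (hμ : ∀ a y, ((dest a y).map fun z => 2 * sz z + 1).sum ≤ 2 * sz y)
    (hb : PB sz fun p : α × τ => sz (g p.1 p.2)) : PT fun p : α × τ => g p.1 p.2 := by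
  obtain ⟨q, hq⟩ := hb
  refine recursion_inv (x := fun p : α × τ => p.2) (dest := fun p => dest p.1)
    (comb := fun p => comb p.1) (g := fun p => g p.1) (by fun_prop) (by fun_prop) (by fun_prop)
    (fun p y => sz y ≤ sz p.2) (fun _ y => 2 * sz y + 1)
    (B := fun p => q.eval (sz p) + 2 * sz p + 1)
    (((PB.self.eval q).add ((PB.const 2).mul PB.self)).add (PB.const 1))
    (fun p y _ => hg p.1 y) (fun _ => le_rfl) ?_ (fun p y _ => Nat.lt_succ_of_le (hμ p.1 y)) ?_
  · intro p y hy z hz
    have h1 := hμ p.1 y
    have h2 : 2 * sz z + 1 ≤ ((dest p.1 y).map fun z => 2 * sz z + 1).sum :=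
      List.le_sum_of_mem (List.mem_map.2 ⟨z, hz, rfl⟩)
    omega
  · intro p y hy
    have h1 := hq (p.1, y)
    have h2 : q.eval (sz (p.1, y)) ≤ q.eval (sz p) := peval_mono q (by
      rw [sz_prod p]; simp only [sz_pair]; omega)
    have h3 := sz_prod p
    dsimp only at h1
    omega

/-- the same without parameter -/
theorem recursion₀ {dest : τ → List τ} {comb : τ → List ρ → ρ} {g : τ → ρ} (hd : PT dest)
    (hc : PT fun p : τ × List ρ => comb p.1 p.2) (hg : ∀ y, g y = comb y ((dest y).map g))
    (hμ : ∀ y, ((dest y).map fun z => 2 * sz z + 1).sum ≤ 2 * sz y)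
    (hb : PB sz fun y => sz (g y)) : PT g := by
  have := recursion (α := Unit) (dest := fun _ => dest) (comb := fun _ => comb) (g := fun _ => g)
    (by fun_prop) (by fun_prop) (fun _ => hg) (fun _ => hμ)
    (hb.comp (f := fun p : Unit × τ => p.2) (pb (by fun_prop)))
  exact comp (f := fun y => ((), y)) this (by fun_prop)

def treeKids (t : T) : List T := T.casesOn (motive := fun _ => List T) t [] fun l r => [l, r]

theorem sz_str_le (l : Str) : sz l ≤ 2 * l.length := by
  have := sz_list_le (l := l) (B := 1) fun b _ => sz_bool b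
  omega

theorem bits' : PT T.bits := by
  refine recursion₀ (dest := treeKids)
    (comb := fun t rs => T.casesOn (motive := fun _ => Str) t [false] fun _ _ => true :: rs.flatten)
    (by unfold treeKids; fun_prop) (by fun_prop) ?_ ?_ ?_
  · intro y; cases y <;> simp [treeKids, T.bits]
  · intro y; cases y <;> simp [treeKids, T.size]; omega
  · refine (((PB.const 4).mul PB.self).add (PB.const 2)).mono fun y => ?_
    have := sz_str_le y.bits
    rw [T.length_bits] at this
    simp only [sz_T]; omega

@[fun_prop] theorem bits {f : α → T} (hf : PT f) : PT fun a => (f a).bits := comp bits' hf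

theorem bits_append_inj (s t : T) (l l' : Str) (h : s.bits ++ l = t.bits ++ l') :
    s = t ∧ l = l' := by
  induction s generalizing t l l' with
  | nil => cases t <;> simp_all [T.bits]
  | node a b iha ihb =>
    cases t with
    | nil => simp [T.bits] at h
    | node c d =>
      simp only [T.bits, List.cons_append, List.append_assoc, List.cons.injEq, true_and] at h
      obtain ⟨e1, h1⟩ := iha _ _ _ h
      obtain ⟨e2, h2⟩ := ihb _ _ _ h1
      exact ⟨by rw [e1, e2], h2⟩

theorem bits_inj : Injective T.bits := fun s t h =>
  (bits_append_inj s t [] [] (by simpa using h)).1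

theorem str_eq {f g : α → Str} (hf : PT f) (hg : PT g) : PT fun a => decide (f a = g a) := by
  have : PT fun a => (decide ((f a).length ≤ (g a).length ∧ (g a).length ≤ (f a).length)
      && ((f a).zip (g a)).all fun p => !(p.1 ^^ p.2)) := by fun_prop
  refine this.of_eq fun a => ?_
  generalize g a = y
  induction f a generalizing y with
  | nil => cases y <;> simp
  | cons b l ih =>
    cases y with
    | nil => simp
    | cons c y =>
      have := ih y
      cases b <;> cases c <;> simp_all

@[fun_prop] theorem dec_eq [DecidableEq β] {f g : α → β} (hf : PT f) (hg : PT g) :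
    PT fun a => decide (f a = g a) :=
  (str_eq hf.enc'.bits hg.enc'.bits).of_eq fun a => by
    simp [bits_inj.eq_iff, Enc.inj.eq_iff]

@[fun_prop] theorem dec_ne [DecidableEq β] {f g : α → β} (hf : PT f) (hg : PT g) :
    PT fun a => decide (f a ≠ g a) := (dec_eq hf hg).not.of_eq fun a => by simp

@[fun_prop] theorem beq [BEq β] [LawfulBEq β] {f g : α → β} (hf : PT f) (hg : PT g) :
    PT fun a => (f a == g a) := by
  classical
  exact (dec_eq hf hg).of_eq fun a => by by_cases h : f a = g a <;> simp [h]

@[fun_prop] theorem dec_mem [DecidableEq β] {f : α → β} {l : α → List β} (hf : PT f) (hl : PT l)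
    [∀ a, Decidable (f a ∈ l a)] : PT fun a => decide (f a ∈ l a) :=
  (any (f := fun a b => decide (f a = b)) hl (by fun_prop)).of_eq fun a => by
    rw [Bool.eq_iff_iff]; simp

@[fun_prop] theorem dec_forall_mem {l : α → List β} {p : α → β → Prop}
    [∀ a b, Decidable (p a b)] [∀ a, Decidable (∀ b ∈ l a, p a b)] (hl : PT l)
    (hp : PT fun q : α × β => decide (p q.1 q.2)) : PT fun a => decide (∀ b ∈ l a, p a b) :=
  (all (f := fun a b => decide (p a b)) hl hp).of_eq fun a => by rw [Bool.eq_iff_iff]; simp

@[fun_prop] theorem dec_exists_mem {l : α → List β} {p : α → β → Prop}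
    [∀ a b, Decidable (p a b)] [∀ a, Decidable (∃ b ∈ l a, p a b)] (hl : PT l)
    (hp : PT fun q : α × β => decide (p q.1 q.2)) : PT fun a => decide (∃ b ∈ l a, p a b) :=
  (any (f := fun a b => decide (p a b)) hl hp).of_eq fun a => by rw [Bool.eq_iff_iff]; simp

/-- every function on a finite type -/
theorem of_fintype [Fintype α] (f : α → β) : PT f := by
  classical
  have key : ∀ (l : List α) (g : α → β), PT g → PT fun a => if a ∈ l then f a else g a := by
    intro l
    induction l with
    | nil => intro g hg; exact hg.of_eq fun a => by simp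
    | cons b l ih =>
      intro g hg
      refine (ite (p := fun a => a = b) (dec_eq id (const b)) (const (f b)) (ih g hg)).of_eq
        fun a => ?_
      by_cases h : a = b <;> simp [h]
  by_cases h : Nonempty α
  · obtain ⟨a0⟩ := h
    exact (key Finset.univ.toList _ (const (f a0))).of_eq fun a => by simp
  · exact ⟨.skip, 0, 0, fun a => absurd ⟨a⟩ h⟩

/-! ### reading codes back from strings -/

def parseStep (b : Bool) (st : List T) : List T :=
  bif b then T.node (st.headD .nil) (st.tail.headD .nil) :: st.tail.tail else T.nil :: st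

theorem parse_bits (t : T) (l : Str) :
    (t.bits ++ l).foldr parseStep [] = t :: l.foldr parseStep [] := by
  induction t generalizing l with
  | nil => rfl
  | node a b iha ihb => simp [T.bits, iha, ihb, parseStep]

/-- a total left inverse of `T.bits` -/
def parse (l : Str) : T := (l.foldr parseStep []).headD .nil

theorem parse_bits' (t : T) : parse t.bits = t := by
  have := parse_bits t []
  simp only [List.append_nil] at this
  simp [parse, this]

theorem parse' : PT parse := by
  have := foldr_add' (l := fun l : Str => l) (init := fun _ => ([] : List T))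
    (f := fun _ => parseStep) (g := fun _ _ => 2) id (const _) (by unfold parseStep; fun_prop)
    (const 2) (fun a b x => by
      cases b
      · simp [parseStep, T.size]
      · rcases x with _ | ⟨u, _ | ⟨v, x⟩⟩ <;> simp [parseStep, T.size] <;> omega)
  exact this.headD (const _)

end PT

/-! ### bridge to the machines of Mathlib -/

theorem strT_eq (l : Str) : strT l = enc l := by
  induction l with
  | nil => rfl
  | cons b l ih => rw [strT, ih]; rfl

/-- `PT` on the tree codes is polynomial time on a Mathlib machine -/
theorem PT.tm2 {α β : Type} [Enc α] [Enc β] {f : α → β} (h : PT f) :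
    Nonempty (Turing.TM2ComputableInPolyTime (fun a : α => (enc a).bits)
      (fun b : β => (enc b).bits) f) := RPT.tm2 h

theorem PT.raw {F : Str → Str} (h : PT F) : RPT (fun l : Str => l) (fun l : Str => l) F := by
  have h1 : RPT (fun l : Str => (strT l).bits) (fun l : Str => (strT l).bits) F := by
    simp only [strT_eq]; exact h
  exact rpt_ofT.comp (h1.comp rpt_toT)

/-- arbitrary string encodings: give a `PT` function on strings that implements `f` -/
theorem tm2_of_str {α β : Type} {ea : α → Str} {eb : β → Str} {f : α → β} {F : Str → Str}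
    (h : PT F) (e : ∀ a, F (ea a) = eb (f a)) :
    Nonempty (Turing.TM2ComputableInPolyTime ea eb f) :=
  (RPT.congr h.raw ea (fun _ => rfl) e).tm2

/-- arbitrary string encodings: give a `PT` reader producing the tree code and a `PT` writer -/
theorem PT.tm2_of_codec {α β : Type} [Enc α] [Enc β] {ea : α → Str} {eb : β → Str} {f : α → β}
    (h : PT f) {rd : Str → T} (hrd : PT rd) (e : ∀ a, rd (ea a) = enc a) (hw : PT eb) :
    Nonempty (Turing.TM2ComputableInPolyTime ea eb f) := by
  have h1 : RPT ea (fun a : α => (enc a).bits) fun a => a := by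
    have h0 : RPT (fun l : Str => (strT l).bits) T.bits rd := by
      simp only [strT_eq]; exact hrd
    exact RPT.congr (h0.comp rpt_toT) ea (fun _ => rfl) fun a => by simp only [e]
  have h2 : RPT (fun b : β => (enc b).bits) eb fun b => b := by
    have h0 : RPT (fun b : β => (enc b).bits) (fun l : Str => (strT l).bits) eb := by
      simp only [strT_eq]; exact hw
    exact RPT.congr (rpt_ofT.comp h0) (fun b => b) (fun _ => rfl) fun _ => rfl
  exact (h2.comp (RPT.comp h h1)).tm2

end Pool.Agent.Lib.Complexity
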