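import Pool.Agent.Lib.Complexity.Rec

/-!
Polynomial time machines of Mathlib are simulated by `PT` functions.
-/

set_option linter.style.haveILetI false
set_option linter.unusedSectionVars false

namespace Pool.Agent.Lib.Complexity

open Function Turing

/-- a code for any finite type -/
@[instance_reducible] noncomputable def Enc.ofFintype (α : Type) [Fintype α] : Enc α :=
  Enc.ofInj (fun a => (Fintype.equivFin α a : ℕ))
    (fun _ _ h => (Fintype.equivFin α).injective (Fin.ext h))

noncomputable instance encPi {K β : Type} [Fintype K] [Enc β] : Enc (K → β) :=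
  Enc.ofInj (fun f => Finset.univ.toList.map f) (fun f g h => by
    funext k
    exact List.map_inj_left.1 h k (by simp))

namespace PT

variable {α β K : Type} [Enc α] [Enc β] [Fintype K]

theorem pi {f : α → K → β} (hf : ∀ k, PT (fun a => f a k)) : PT f := by
  have key : ∀ L : List K, PT (fun a => L.map (f a)) := by
    intro L
    induction L with
    | nil => exact const []
    | cons k L ih => exact (hf k).cons ih
  exact (key Finset.univ.toList).out fun _ => rfl

theorem apply {f : α → K → β} (hf : PT f) (k : K) : PT (fun a => f a k) := by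
  classical
  have h1 : PT (fun a => Finset.univ.toList.map (f a)) := hf.out fun _ => rfl
  have h2 := drop (const ((Finset.univ : Finset K).toList.idxOf k)) h1
  refine h2.enc'.left.out (fun a => ?_)
  have hk : (Finset.univ : Finset K).toList.idxOf k < (Finset.univ : Finset K).toList.length :=
    List.idxOf_lt_length_of_mem (by simp)
  rw [List.drop_eq_getElem_cons (by simpa using hk)]
  simp [T.left]

theorem update [DecidableEq K] {f : α → K → β} {b : α → β} (hf : PT f) (k : K) (hb : PT b) :
    PT (fun a => Function.update (f a) k (b a)) := by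
  refine pi (fun k' => ?_)
  by_cases h : k' = k
  · subst h; simpa using hb
  · simpa [h] using hf.apply k'

/-- finitely many branches according to a value in a finite type -/
theorem finCases {ι : Type} [Enc ι] [Finite ι] {k : α → ι} {f : ι → α → β} (hk : PT k)
    (hf : ∀ i, PT (f i)) : PT (fun a => f (k a) a) := by
  classical
  have key : ∀ (L : List ι) (g : α → β), PT g →
      PT (fun a => if k a ∈ L then f (k a) a else g a) := by
    intro L g hg
    induction L with
    | nil => simpa using hg
    | cons i L ih =>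
      refine (ite (p := fun a => k a = i) (dec_eq hk (const i)) (hf i) ih).of_eq (fun a => ?_)
      by_cases h : k a = i <;> simp [h]
  rcases isEmpty_or_nonempty ι with hι | ⟨⟨i⟩⟩
  · exact ⟨.skip, 0, 0, fun a => hι.elim (k a)⟩
  · have := Fintype.ofFinite ι
    exact (key Finset.univ.toList (f i) (hf i)).of_eq (fun a => by simp)

end PT

theorem sz_pi_le_add {β K : Type} [Enc β] [Fintype K] {f g : K → β} {C : ℕ}
    (h : ∀ k, sz (f k) ≤ sz (g k) + C) : sz f ≤ sz g + Fintype.card K * C := by
  have key : ∀ L : List K, sz (L.map f) ≤ sz (L.map g) + L.length * C := by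
    intro L
    induction L with
    | nil => simp
    | cons k L ih =>
      have := h k
      simp only [List.map_cons, sz_cons, List.length_cons, Nat.succ_mul]
      omega
  have := key Finset.univ.toList
  rw [Finset.length_toList, Finset.card_univ] at this
  exact this

theorem exists_sz_bound (α : Type) [Enc α] [Finite α] : ∃ C, ∀ a : α, sz a ≤ C := by
  have := Fintype.ofFinite α
  exact ⟨Finset.univ.sup sz, fun a => Finset.le_sup (f := sz) (Finset.mem_univ a)⟩

section coded

variable {K : Type} [DecidableEq K] {Γ : K → Type} {Λ σ : Type}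

/-- total step function -/
def nxt (m : Λ → TM2.Stmt Γ Λ σ) (c : TM2.Cfg Γ Λ σ) : TM2.Cfg Γ Λ σ := (TM2.step m c).getD c

theorem nxt_of_run (m : Λ → TM2.Stmt Γ Λ σ) : ∀ (n : ℕ) (c c' : TM2.Cfg Γ Λ σ),
    (flip bind (TM2.step m))^[n] (some c) = some c' → (nxt m)^[n] c = c' := by
  intro n
  induction n with
  | zero => intro c c' h; simpa using h
  | succ n ih =>
    intro c c' h
    rw [iterate_succ_apply] at h ⊢
    rcases hc : TM2.step m c with _ | d
    · have : flip bind (TM2.step m) (some c) = none := hc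
      rw [this, iterate_fixed (by rfl)] at h
      cases h
    · have : flip bind (TM2.step m) (some c) = some d := hc
      rw [this] at h
      rw [show nxt m c = d by simp [nxt, hc]]
      exact ih _ _ h

theorem nxt_of_run_le (m : Λ → TM2.Stmt Γ Λ σ) {n N : ℕ} {c c' : TM2.Cfg Γ Λ σ}
    (h : (flip bind (TM2.step m))^[n] (some c) = some c') (hl : c'.l = none) (hN : n ≤ N) :
    (nxt m)^[N] c = c' := by
  obtain ⟨k, rfl⟩ := Nat.exists_eq_add_of_le hN
  rw [add_comm, iterate_add_apply, nxt_of_run m _ _ _ h]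
  refine iterate_fixed ?_ _
  obtain ⟨l, v, S⟩ := c'
  cases hl
  rfl

/-- symbols that a statement may push -/
noncomputable def pushed [Fintype σ] : TM2.Stmt Γ Λ σ → List (Σ k, Γ k)
  | .push k f q => Finset.univ.toList.map (fun v => ⟨k, f v⟩) ++ pushed q
  | .peek _ _ q => pushed q
  | .pop _ _ q => pushed q
  | .load _ q => pushed q
  | .branch _ q₁ q₂ => pushed q₁ ++ pushed q₂
  | .goto _ => []
  | .halt => []

open Classical in
noncomputable def scode (L : List (Σ k, Γ k)) (k : K) (γ : Γ k) : ℕ := L.idxOf ⟨k, γ⟩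

open Classical in
noncomputable def sdec (L : List (Σ k, Γ k)) (k : K) (n : ℕ) : Option (Γ k) :=
  if h : ∃ γ, (⟨k, γ⟩ : Σ k, Γ k) ∈ L ∧ scode L k γ = n then some h.choose else none

open Classical in
theorem sdec_scode {L : List (Σ k, Γ k)} {k : K} {γ : Γ k} (h : (⟨k, γ⟩ : Σ k, Γ k) ∈ L) :
    sdec L k (scode L k γ) = some γ := by
  have hex : ∃ γ', (⟨k, γ'⟩ : Σ k, Γ k) ∈ L ∧ scode L k γ' = scode L k γ := ⟨γ, h, rfl⟩
  rw [sdec, dif_pos hex]
  obtain ⟨h1, h2⟩ := hex.choose_spec
  unfold scode at h2
  have := (List.idxOf_inj h1).1 h2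
  simp only [Sigma.mk.injEq, heq_eq_eq, true_and] at this
  rw [this]

open Classical in
theorem sdec_of_le {L : List (Σ k, Γ k)} {k : K} {n : ℕ} (h : L.length ≤ n) : sdec L k n = none := by
  rw [sdec, dif_neg]
  rintro ⟨γ, h1, h2⟩
  have : scode L k γ < L.length := by
    unfold scode
    exact List.idxOf_lt_length_of_mem h1
  omega

open Classical in
theorem scode_le (L : List (Σ k, Γ k)) (k : K) (γ : Γ k) : scode L k γ ≤ L.length := by
  unfold scode
  exact List.idxOf_le_length

theorem pt_sdec {β : Type} [Enc β] [Enc σ] [Fintype σ] (L : List (Σ k, Γ k)) (k : K)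
    (g : σ → Option (Γ k) → β) : PT (fun p : σ × Option ℕ => g p.1 (p.2.bind (sdec L k))) := by
  refine PT.finCases (k := fun p : σ × Option ℕ => p.1)
    (f := fun v p => g v (p.2.bind (sdec L k))) (by fun_prop) (fun v => ?_)
  have h : PT (fun p : σ × Option ℕ => p.2.elim (g v none) (fun n =>
      ((List.range L.length).map (fun i => g v (sdec L k i))).getD n (g v none))) := by
    fun_prop
  refine h.of_eq ?_
  rintro ⟨w, _ | n⟩
  · rfl
  · by_cases hn : n < L.length
    · simp [hn]
    · simp [hn, sdec_of_le (not_lt.1 hn)]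

/-- the step function on coded stacks -/
noncomputable def cstep (L : List (Σ k, Γ k)) :
    TM2.Stmt Γ Λ σ → σ → (K → List ℕ) → Option Λ × σ × (K → List ℕ)
  | .push k f q, v, S => cstep L q v (update S k (scode L k (f v) :: S k))
  | .peek k f q, v, S => cstep L q (f v ((S k).head?.bind (sdec L k))) S
  | .pop k f q, v, S => cstep L q (f v ((S k).head?.bind (sdec L k))) (update S k (S k).tail)
  | .load a q, v, S => cstep L q (a v) S
  | .branch f q₁ q₂, v, S => bif f v then cstep L q₁ v S else cstep L q₂ v S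
  | .goto f, v, S => (some (f v), v, S)
  | .halt, v, S => (none, v, S)

noncomputable def cstk (L : List (Σ k, Γ k)) (S : ∀ k, List (Γ k)) : K → List ℕ :=
  fun k => (S k).map (scode L k)

noncomputable def ccfg (L : List (Σ k, Γ k)) (c : TM2.Cfg Γ Λ σ) : Option Λ × σ × (K → List ℕ) :=
  (c.l, c.var, cstk L c.stk)

def Good (L : List (Σ k, Γ k)) (S : ∀ k, List (Γ k)) : Prop :=
  ∀ k, ∀ γ ∈ S k, (⟨k, γ⟩ : Σ k, Γ k) ∈ L

theorem cstk_update (L : List (Σ k, Γ k)) (S : ∀ k, List (Γ k)) (k : K) (l : List (Γ k)) :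
    cstk L (update S k l) = update (cstk L S) k (l.map (scode L k)) := by
  funext k'
  by_cases h : k' = k
  · subst h; simp [cstk]
  · simp [cstk, h]

theorem Good.update {L : List (Σ k, Γ k)} {S : ∀ k, List (Γ k)} (h : Good L S) (k : K)
    {l : List (Γ k)} (hl : ∀ γ ∈ l, (⟨k, γ⟩ : Σ k, Γ k) ∈ L) : Good L (update S k l) := by
  intro k'
  by_cases e : k' = k
  · subst e; simpa using hl
  · simpa [e] using h k'

theorem Good.head {L : List (Σ k, Γ k)} {S : ∀ k, List (Γ k)} (h : Good L S) (k : K) :
    (cstk L S k).head?.bind (sdec L k) = (S k).head? := by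
  have := h k
  unfold cstk
  rcases hS : S k with _ | ⟨γ, r⟩
  · rfl
  · rw [hS] at this
    simpa using sdec_scode (this γ (by simp))

theorem cstep_correct [Fintype σ] (L : List (Σ k, Γ k)) (q : TM2.Stmt Γ Λ σ) :
    ∀ (v : σ) (S : ∀ k, List (Γ k)), (∀ s ∈ pushed q, s ∈ L) → Good L S →
      cstep L q v (cstk L S) = ccfg L (TM2.stepAux q v S) ∧ Good L (TM2.stepAux q v S).stk := by
  induction q with
  | push k f q ih =>
    intro v S hp hS
    have h1 : (⟨k, f v⟩ : Σ k, Γ k) ∈ L := hp _ (by simp [pushed])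
    have := ih v (update S k (f v :: S k)) (fun s hs => hp s (by simp [pushed, hs]))
      (hS.update k (by
        intro γ hγ
        rcases List.mem_cons.1 hγ with rfl | hγ
        · exact h1
        · exact hS k γ hγ))
    rw [cstk_update] at this
    exact this
  | peek k f q ih =>
    intro v S hp hS
    simp only [cstep, hS.head, TM2.stepAux]
    exact ih _ S hp hS
  | pop k f q ih =>
    intro v S hp hS
    have := ih (f v (S k).head?) (update S k (S k).tail) hp
      (hS.update k (fun γ hγ => hS k γ (List.mem_of_mem_tail hγ)))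
    rw [cstk_update, List.map_tail] at this
    simp only [cstep, hS.head, TM2.stepAux]
    exact this
  | load a q ih => intro v S hp hS; exact ih _ S hp hS
  | branch f q₁ q₂ ih₁ ih₂ =>
    intro v S hp hS
    simp only [cstep, TM2.stepAux]
    cases f v
    · exact ih₂ v S (fun s hs => hp s (by simp [pushed, hs])) hS
    · exact ih₁ v S (fun s hs => hp s (by simp [pushed, hs])) hS
  | goto f => intro v S _ hS; exact ⟨rfl, hS⟩
  | halt => intro v S _ hS; exact ⟨rfl, hS⟩

theorem pt_cstep [Fintype K] [Fintype σ] [Enc σ] [Enc Λ] (L : List (Σ k, Γ k))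
    (q : TM2.Stmt Γ Λ σ) : PT (fun p : σ × (K → List ℕ) => cstep L q p.1 p.2) := by
  have hS : ∀ k, PT (fun p : σ × (K → List ℕ) => p.2 k) := fun k => (PT.snd PT.id).apply k
  induction q with
  | push k f q ih =>
    exact ih.comp (f := fun p : σ × (K → List ℕ) =>
      (p.1, update p.2 k (scode L k (f p.1) :: p.2 k))) ((PT.fst PT.id).prodMk
      ((PT.snd PT.id).update k
        (((PT.of_fintype (fun v => scode L k (f v))).comp (PT.fst PT.id)).cons (hS k))))
  | peek k f q ih =>
    exact ih.comp (f := fun p : σ × (K → List ℕ) =>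
      (f p.1 ((p.2 k).head?.bind (sdec L k)), p.2))
      (((pt_sdec L k f).comp ((PT.fst PT.id).prodMk (hS k).head?)).prodMk (PT.snd PT.id))
  | pop k f q ih =>
    exact ih.comp (f := fun p : σ × (K → List ℕ) =>
      (f p.1 ((p.2 k).head?.bind (sdec L k)), update p.2 k (p.2 k).tail))
      (((pt_sdec L k f).comp ((PT.fst PT.id).prodMk (hS k).head?)).prodMk
        ((PT.snd PT.id).update k (hS k).tail))
  | load a q ih =>
    exact ih.comp (f := fun p : σ × (K → List ℕ) => (a p.1, p.2))
      (((PT.of_fintype a).comp (PT.fst PT.id)).prodMk (PT.snd PT.id))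
  | branch f q₁ q₂ ih₁ ih₂ =>
    exact PT.cond ((PT.of_fintype f).comp (PT.fst PT.id)) ih₁ ih₂
  | goto f =>
    exact (((PT.of_fintype f).comp (PT.fst PT.id)).some).prodMk PT.id
  | halt => exact (PT.const none).prodMk PT.id

theorem cstep_growth (L : List (Σ k, Γ k)) (q : TM2.Stmt Γ Λ σ) :
    ∃ C, ∀ (v : σ) (S : K → List ℕ) (k : K), sz ((cstep L q v S).2.2 k) ≤ sz (S k) + C := by
  induction q with
  | push k f q ih =>
    obtain ⟨C, hC⟩ := ih
    refine ⟨C + L.length + 1, fun v S k' => (hC _ _ k').trans ?_⟩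
    by_cases h : k' = k
    · subst h
      have := scode_le L k' (f v)
      simp only [update_self, sz_cons, sz_nat]; omega
    · simp only [update_of_ne h]; omega
  | peek k f q ih => obtain ⟨C, hC⟩ := ih; exact ⟨C, fun v S k' => hC _ _ k'⟩
  | pop k f q ih =>
    obtain ⟨C, hC⟩ := ih
    refine ⟨C, fun v S k' => (hC _ _ k').trans ?_⟩
    by_cases h : k' = k
    · subst h
      have := sz_le_of_sublist (List.tail_sublist (S k'))
      simp only [update_self]; omega
    · simp only [update_of_ne h]; omega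
  | load a q ih => obtain ⟨C, hC⟩ := ih; exact ⟨C, fun v S k' => hC _ _ k'⟩
  | branch f q₁ q₂ ih₁ ih₂ =>
    obtain ⟨C₁, h₁⟩ := ih₁
    obtain ⟨C₂, h₂⟩ := ih₂
    refine ⟨C₁ + C₂, fun v S k' => ?_⟩
    have := h₁ v S k'
    have := h₂ v S k'
    simp only [cstep]
    cases f v <;> simp only [cond_true, cond_false] <;> omega
  | goto f => exact ⟨0, fun v S k' => le_rfl⟩
  | halt => exact ⟨0, fun v S k' => le_rfl⟩

/-- total coded step -/
noncomputable def cnxt (L : List (Σ k, Γ k)) (m : Λ → TM2.Stmt Γ Λ σ)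
    (c : Option Λ × σ × (K → List ℕ)) : Option Λ × σ × (K → List ℕ) :=
  c.1.elim c (fun l => cstep L (m l) c.2.1 c.2.2)

theorem cnxt_correct [Fintype σ] (L : List (Σ k, Γ k)) (m : Λ → TM2.Stmt Γ Λ σ)
    (hm : ∀ l, ∀ s ∈ pushed (m l), s ∈ L) (n : ℕ) (c : TM2.Cfg Γ Λ σ) (hc : Good L c.stk) :
    (cnxt L m)^[n] (ccfg L c) = ccfg L ((nxt m)^[n] c) ∧ Good L ((nxt m)^[n] c).stk := by
  induction n with
  | zero => exact ⟨rfl, hc⟩
  | succ n ih =>
    rw [iterate_succ_apply', iterate_succ_apply', ih.1]
    generalize (nxt m)^[n] c = d at ih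
    obtain ⟨_ | l, v, S⟩ := d
    · exact ⟨rfl, ih.2⟩
    · exact cstep_correct L (m l) v S (hm l) ih.2

theorem pt_cnxt [Fintype K] [Fintype σ] [Fintype Λ] [Enc σ] [Enc Λ] (L : List (Σ k, Γ k))
    (m : Λ → TM2.Stmt Γ Λ σ) : PT (cnxt L m) := by
  refine PT.finCases (k := fun c : Option Λ × σ × (K → List ℕ) => c.1)
    (f := fun o c => o.elim c (fun l => cstep L (m l) c.2.1 c.2.2)) (by fun_prop) ?_
  rintro (_ | l)
  · exact PT.id
  · exact (pt_cstep L (m l)).comp (PT.snd PT.id)

theorem cnxt_growth [Fintype K] [Fintype σ] [Fintype Λ] [Enc σ] [Enc Λ] (L : List (Σ k, Γ k))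
    (m : Λ → TM2.Stmt Γ Λ σ) : ∃ C, ∀ c, sz (cnxt L m c) ≤ sz c + C := by
  choose C hC using fun l => cstep_growth L (m l)
  obtain ⟨C₁, h₁⟩ := exists_sz_bound (Option Λ)
  obtain ⟨C₂, h₂⟩ := exists_sz_bound σ
  refine ⟨C₁ + C₂ + Fintype.card K * Finset.univ.sup C, ?_⟩
  rintro ⟨_ | l, v, S⟩
  · exact Nat.le_add_right _ _
  · have e1 := h₁ (cstep L (m l) v S).1
    have e2 := h₂ (cstep L (m l) v S).2.1
    have e3 := sz_pi_le_add (f := (cstep L (m l) v S).2.2) (g := S) (C := Finset.univ.sup C)
      (fun k => (hC l v S k).trans (Nat.add_le_add_left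
        (Finset.le_sup (f := C) (Finset.mem_univ l)) _))
    change sz (cstep L (m l) v S) ≤ _
    rw [sz_prod, sz_prod (cstep L (m l) v S).2]
    simp only [sz_pair]
    omega

end coded

/-- A polynomial time machine of Mathlib is simulated by a `PT` function on words. -/
theorem pt_of_tm2 {α β A B : Type} [Enc A] [Enc B] [Fintype B] {ea : α → List A} {eb : β → List B}
    {f : α → β} (h : TM2ComputableInPolyTime ea eb f) :
    ∃ F : List A → List B, PT F ∧ ∀ a, F (ea a) = eb (f a) := by
  classical
  obtain ⟨⟨tm, ia, oa⟩, time, out⟩ := h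
  letI := tm.kFin
  letI := tm.ΛFin
  letI := tm.σFin
  letI := tm.Γk₀Fin
  letI : Fintype A := Fintype.ofEquiv _ ia
  letI := Enc.ofFintype tm.Λ
  letI := Enc.ofFintype tm.σ
  let L : List (Σ k, tm.Γ k) := Finset.univ.toList.map (fun γ => ⟨tm.k₀, γ⟩) ++
    Finset.univ.toList.flatMap (fun l => pushed (tm.m l))
  have hm : ∀ l, ∀ s ∈ pushed (tm.m l), s ∈ L := fun l s hs => by
    simp only [L, List.mem_append, List.mem_flatMap]
    exact Or.inr ⟨l, by simp, hs⟩
  let init : List A → Option tm.Λ × tm.σ × (tm.K → List ℕ) := fun s =>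
    (some tm.main, tm.initialState,
      update (fun _ => []) tm.k₀ (s.map (fun x => scode L tm.k₀ (ia.symm x))))
  have hinit : PT init := (PT.const _).prodMk ((PT.const _).prodMk ((PT.const _).update _
    (PT.map (f := fun _ x => scode L tm.k₀ (ia.symm x)) PT.id
      ((PT.of_fintype (fun x => scode L tm.k₀ (ia.symm x))).comp (PT.snd PT.id)))))
  obtain ⟨C, hC⟩ := cnxt_growth L tm.m
  have hrun : PT (fun s : List A => (cnxt L tm.m)^[time.eval s.length] (init s)) :=
    PT.iterate_add (step := fun _ => cnxt L tm.m) (PT.poly_eval (PT.length PT.id) time) hinit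
      ((pt_cnxt L tm.m).comp (PT.snd PT.id)) (PB.const C) (fun _ c => hC c)
  refine ⟨fun s => (((cnxt L tm.m)^[time.eval s.length] (init s)).2.2 tm.k₁).filterMap
    (fun n => (sdec L tm.k₁ n).map oa), ?_, fun a => ?_⟩
  · refine PT.filterMap (f := fun _ n => (sdec L tm.k₁ n).map oa) (hrun.snd.snd.apply _) ?_
    exact (pt_sdec (σ := Unit) L tm.k₁ (fun _ o => o.map oa)).comp
      (f := fun p : List A × ℕ => ((), some p.2)) (by fun_prop)
  · obtain ⟨⟨n, hn⟩, hle⟩ := out a
    have hgood : Good L (initList tm (List.map ia.invFun (ea a))).stk := by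
      intro k γ hγ
      by_cases hk : k = tm.k₀
      · subst hk
        simp only [L, List.mem_append, List.mem_map]
        exact Or.inl ⟨γ, by simp, rfl⟩
      · simp [initList, hk] at hγ
    have h1 := nxt_of_run_le tm.m hn rfl hle
    have h2 := cnxt_correct L tm.m hm (time.eval (ea a).length) _ hgood
    have h3 : ccfg L (initList tm (List.map ia.invFun (ea a))) = init (ea a) := by
      simp only [ccfg, init, initList]
      congr 2
      funext k
      by_cases hk : k = tm.k₀
      · subst hk; simp [cstk]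
      · simp [cstk, hk]
    rw [h1, h3] at h2
    beta_reduce
    rw [h2.1]
    have h4 := h2.2 tm.k₁
    have h5 : (haltList tm (List.map oa.invFun (eb (f a)))).stk tm.k₁ =
        List.map oa.invFun (eb (f a)) := by simp [haltList]
    simp only [ccfg, cstk]
    rw [h5] at h4 ⊢
    generalize eb (f a) = y at h4
    induction y with
    | nil => rfl
    | cons b y ih =>
      simp only [List.map_cons, List.filterMap_cons]
      rw [sdec_scode (h4 _ (by simp))]
      simp only [Equiv.invFun_as_coe, Option.map_some, Equiv.apply_symm_apply, List.cons.injEq,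
        true_and]
      exact ih (fun γ hγ => h4 γ (List.mem_cons_of_mem _ hγ))

/-- Polynomial time machines of Mathlib on bit strings compose. -/
theorem tm2_comp {α β γ : Type} {ea : α → Str} {eb : β → Str} {ec : γ → Str} {f : α → β}
    {g : β → γ} (hf : Nonempty (TM2ComputableInPolyTime ea eb f))
    (hg : Nonempty (TM2ComputableInPolyTime eb ec g)) :
    Nonempty (TM2ComputableInPolyTime ea ec (fun a => g (f a))) := by
  obtain ⟨hf⟩ := hf
  obtain ⟨hg⟩ := hg
  obtain ⟨F, hF, eF⟩ := pt_of_tm2 hf
  obtain ⟨G, hG, eG⟩ := pt_of_tm2 hg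
  exact tm2_of_str (hG.comp hF) (fun a => by rw [eF, eG])

end Pool.Agent.Lib.Complexity
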