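import Pool.Agent.Lib.Complexity.Sim

/-!
The tableau of a stack machine as a formula in conjunctive normal form.
-/

set_option linter.unusedSectionVars false

namespace Pool.Agent.Lib.Complexity

open Function Turing

abbrev Clause := List (ℕ × Bool)
abbrev CNF := List Clause

/-- the assignment `α` satisfies the formula -/
def CNF.Sat (φ : CNF) (α : ℕ → Bool) : Prop := ∀ c ∈ φ, ∃ l ∈ c, α l.1 = l.2

section locality

variable {K : Type} [DecidableEq K] {Γ : K → Type} {Λ σ : Type}

def depth : TM2.Stmt Γ Λ σ → ℕ
  | .push _ _ q => depth q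
  | .peek _ _ q => depth q + 1
  | .pop _ _ q => depth q + 1
  | .load _ q => depth q
  | .branch _ q₁ q₂ => max (depth q₁) (depth q₂)
  | .goto _ => 0
  | .halt => 0

theorem update_append (A B : ∀ k, List (Γ k)) (k : K) (x : List (Γ k)) :
    update (fun k => A k ++ B k) k (x ++ B k) = fun k' => update A k x k' ++ B k' := by
  funext k'
  by_cases h : k' = k
  · subst h; simp
  · simp [h]

theorem stepAux_append (q : TM2.Stmt Γ Λ σ) : ∀ (v : σ) (A B : ∀ k, List (Γ k)),
    (∀ k, depth q ≤ (A k).length ∨ B k = []) →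
    TM2.stepAux q v (fun k => A k ++ B k) = ⟨(TM2.stepAux q v A).l, (TM2.stepAux q v A).var,
      fun k => (TM2.stepAux q v A).stk k ++ B k⟩ := by
  induction q with
  | push k f q ih =>
    intro v A B h
    simp only [TM2.stepAux]
    rw [← ih v (update A k (f v :: A k)) B, ← update_append]
    · rfl
    · intro k'
      by_cases e : k' = k
      · subst e
        rcases h k' with h | h
        · left; simp only [depth, update_self, List.length_cons] at h ⊢; omega
        · exact Or.inr h
      · simpa [e, depth] using h k'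
  | peek k f q ih =>
    intro v A B h
    have e : (A k ++ B k).head? = (A k).head? := by
      rcases h k with h | h
      · rcases hA : A k with _ | ⟨x, r⟩
        · simp [hA, depth] at h
        · rfl
      · simp [h]
    simp only [TM2.stepAux, e]
    refine ih _ A B (fun k' => ?_)
    rcases h k' with h | h
    · left; simp only [depth] at h; omega
    · exact Or.inr h
  | pop k f q ih =>
    intro v A B h
    have e : (A k ++ B k).head? = (A k).head? ∧ (A k ++ B k).tail = (A k).tail ++ B k := by
      rcases h k with h | h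
      · rcases hA : A k with _ | ⟨x, r⟩
        · simp [hA, depth] at h
        · exact ⟨rfl, rfl⟩
      · simp [h]
    simp only [TM2.stepAux, e.1, e.2]
    rw [update_append]
    refine ih _ _ B (fun k' => ?_)
    by_cases e : k' = k
    · subst e
      rcases h k' with h | h
      · left; simp only [depth, update_self, List.length_tail] at h ⊢; omega
      · exact Or.inr h
    · rcases h k' with h | h
      · left; simp only [depth, update_of_ne e] at h ⊢; omega
      · exact Or.inr h
  | load a q ih => intro v A B h; exact ih _ A B h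
  | branch f q₁ q₂ ih₁ ih₂ =>
    intro v A B h
    simp only [TM2.stepAux]
    cases f v
    · refine ih₂ v A B (fun k => (h k).imp_left fun h => ?_)
      simp only [depth] at h; omega
    · refine ih₁ v A B (fun k => (h k).imp_left fun h => ?_)
      simp only [depth] at h; omega
  | goto f => intro v A B _; rfl
  | halt => intro v A B _; rfl

theorem nxt_local (m : Λ → TM2.Stmt Γ Λ σ) {d : ℕ} (hd : ∀ l, depth (m l) ≤ d)
    (c : TM2.Cfg Γ Λ σ) :
    nxt m c = ⟨(nxt m ⟨c.l, c.var, fun k => (c.stk k).take d⟩).l,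
      (nxt m ⟨c.l, c.var, fun k => (c.stk k).take d⟩).var,
      fun k => (nxt m ⟨c.l, c.var, fun k => (c.stk k).take d⟩).stk k ++ (c.stk k).drop d⟩ := by
  obtain ⟨_ | l, v, S⟩ := c
  · simp [nxt]
  · have := stepAux_append (m l) v (fun k => (S k).take d) (fun k => (S k).drop d) (fun k => by
      have := hd l
      simp only [List.length_take, List.drop_eq_nil_iff]
      omega)
    simp only [List.take_append_drop] at this
    simpa [nxt] using this

end locality

theorem filterMap_ofFn (l : Str) (d : ℕ) :
    (List.ofFn (fun i : Fin d => l[i.1]?)).filterMap id = l.take d := by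
  induction d generalizing l with
  | zero => simp
  | succ d ih =>
    cases l with
    | nil => simp
    | cons x l => simpa [List.ofFn_succ] using ih l

section horn

variable {K Λ σ : Type} [DecidableEq K] [Fintype K] [Fintype Λ] [Fintype σ]

abbrev Sym (K Λ σ : Type) := (Option Λ × σ) ⊕ (K × Option Bool)
abbrev BCfg (K Λ σ : Type) := TM2.Cfg (fun _ : K => Bool) Λ σ
abbrev TL (S : Type) := ℕ × Bool × S

def tpos {S : Type} (j : ℕ) (p : TL S) : ℕ := p.1 + bif p.2.1 then j else 0

/-- the fact with position `i` and symbol `s` holds in the configuration `c` -/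
def Tr (c : BCfg K Λ σ) (i : ℕ) : Sym K Λ σ → Prop
  | .inl q => i = 0 ∧ q = (c.l, c.var)
  | .inr x => (c.stk x.1)[i]? = x.2

variable (m : Λ → TM2.Stmt (fun _ : K => Bool) Λ σ) (d : ℕ)

def tres (q : Option Λ × σ) (tops : K → Fin d → Option Bool) : BCfg K Λ σ :=
  nxt m ⟨q.1, q.2, fun k => (List.ofFn (tops k)).filterMap id⟩

noncomputable def tbase (q : Option Λ × σ) (tops : K → Fin d → Option Bool) :
    List (TL (Sym K Λ σ)) :=
  (0, false, .inl q) :: (Finset.univ : Finset (K × Fin d)).toList.map
    (fun x => (x.2.1, false, .inr (x.1, tops x.1 x.2)))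

noncomputable def rulesFor (q : Option Λ × σ) (tops : K → Fin d → Option Bool) :
    List (List (TL (Sym K Λ σ)) × TL (Sym K Λ σ)) :=
  (tbase d q tops, (0, false, .inl ((tres m d q tops).l, (tres m d q tops).var))) ::
    ((Finset.univ : Finset K).toList.flatMap (fun k =>
      (List.range ((tres m d q tops).stk k).length).map (fun i =>
        (tbase d q tops, (i, false, .inr (k, ((tres m d q tops).stk k)[i]?))))) ++
    (Finset.univ : Finset (K × Option Bool)).toList.map (fun x =>
      ((d, true, .inr x) :: tbase d q tops, (((tres m d q tops).stk x.1).length, true, .inr x))))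

noncomputable def rules : List (List (TL (Sym K Λ σ)) × TL (Sym K Λ σ)) :=
  (Finset.univ : Finset ((Option Λ × σ) × (K → Fin d → Option Bool))).toList.flatMap
    (fun x => rulesFor m d x.1 x.2)

variable {m d}

theorem tbase_iff (c : BCfg K Λ σ) (j : ℕ) (q : Option Λ × σ) (tops : K → Fin d → Option Bool) :
    (∀ p ∈ tbase d q tops, Tr c (tpos j p) p.2.2) ↔
      q = (c.l, c.var) ∧ tops = fun k i => (c.stk k)[i.1]? := by
  simp only [tbase, List.forall_mem_cons, List.forall_mem_map, Finset.mem_toList, Finset.mem_univ,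
    Tr, tpos, cond_false, add_zero, true_and, forall_const]
  refine and_congr Iff.rfl ⟨fun h => ?_, fun h x => by rw [h]⟩
  funext k i
  exact (h (k, i)).symm

theorem nxt_eq_tres (hd : ∀ l, depth (m l) ≤ d) (c : BCfg K Λ σ) :
    nxt m c = ⟨(tres m d (c.l, c.var) (fun k i => (c.stk k)[i.1]?)).l,
      (tres m d (c.l, c.var) (fun k i => (c.stk k)[i.1]?)).var,
      fun k => (tres m d (c.l, c.var) (fun k i => (c.stk k)[i.1]?)).stk k ++ (c.stk k).drop d⟩ := by
  simp only [tres, filterMap_ofFn]
  exact nxt_local m hd c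

theorem rules_valid (hd : ∀ l, depth (m l) ≤ d) (c : BCfg K Λ σ) (j : ℕ) :
    ∀ r ∈ rules m d, (∀ p ∈ r.1, Tr c (tpos j p) p.2.2) → Tr (nxt m c) (tpos j r.2) r.2.2.2 := by
  intro r hr hp
  simp only [rules, List.mem_flatMap, Finset.mem_toList, Finset.mem_univ, true_and] at hr
  obtain ⟨⟨q, tops⟩, hr⟩ := hr
  simp only [rulesFor, List.mem_cons, List.mem_append, List.mem_flatMap, List.mem_map,
    Finset.mem_toList, Finset.mem_univ, true_and, List.mem_range] at hr
  rcases hr with rfl | ⟨k, i, hi, rfl⟩ | ⟨x, rfl⟩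
  · obtain ⟨rfl, rfl⟩ := (tbase_iff c j q tops).1 hp
    rw [nxt_eq_tres hd c]
    exact ⟨rfl, rfl⟩
  · obtain ⟨rfl, rfl⟩ := (tbase_iff c j q tops).1 hp
    rw [nxt_eq_tres hd c]
    simp only [Tr, tpos, cond_false, add_zero]
    rw [List.getElem?_append_left hi]
  · obtain ⟨rfl, rfl⟩ := (tbase_iff c j q tops).1 (fun p hp' => hp p (List.mem_cons_of_mem _ hp'))
    have h1 := hp _ List.mem_cons_self
    rw [nxt_eq_tres hd c]
    simp only [Tr, tpos, cond_true] at h1 ⊢
    rw [List.getElem?_append_right (Nat.le_add_right _ _), ← h1]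
    simp

theorem rules_derive (hd : ∀ l, depth (m l) ≤ d) (c : BCfg K Λ σ) (i : ℕ) (s : Sym K Λ σ)
    (h : Tr (nxt m c) i s) : ∃ r ∈ rules m d, ∃ j ≤ i, tpos j r.2 = i ∧ r.2.2.2 = s ∧
      ∀ p ∈ r.1, tpos j p ≤ i + d ∧ Tr c (tpos j p) p.2.2 := by
  rw [nxt_eq_tres hd c] at h
  set q := (c.l, c.var) with hq
  set tops : K → Fin d → Option Bool := fun k i => (c.stk k)[i.1]? with htops
  have hb : ∀ j, ∀ p ∈ tbase d q tops, tpos j p ≤ i + d ∧ Tr c (tpos j p) p.2.2 := by
    intro j p hp
    refine ⟨?_, (tbase_iff c j q tops).2 ⟨rfl, rfl⟩ p hp⟩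
    simp only [tbase, List.mem_cons, List.mem_map] at hp
    rcases hp with rfl | ⟨x, _, rfl⟩
    · simp [tpos]
    · have := x.2.2
      simp only [tpos, cond_false]; omega
  have hm : ∀ r ∈ rulesFor m d q tops, r ∈ rules m d := fun r hr => by
    simp only [rules, List.mem_flatMap, Finset.mem_toList, Finset.mem_univ, true_and]
    exact ⟨(q, tops), hr⟩
  rcases s with q' | ⟨k, γ⟩
  · obtain ⟨rfl, rfl⟩ := h
    exact ⟨_, hm _ List.mem_cons_self, 0, le_rfl, rfl, rfl, hb 0⟩
  · simp only [Tr] at h
    by_cases hi : i < ((tres m d q tops).stk k).length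
    · rw [List.getElem?_append_left hi] at h
      refine ⟨(tbase d q tops, (i, false, .inr (k, ((tres m d q tops).stk k)[i]?))), hm _ ?_, 0,
        Nat.zero_le _, rfl, by rw [h], hb 0⟩
      simp only [rulesFor, List.mem_cons, List.mem_append, List.mem_flatMap, List.mem_map,
        Finset.mem_toList, Finset.mem_univ, true_and, List.mem_range]
      exact Or.inr (Or.inl ⟨k, i, hi, rfl⟩)
    · rw [List.getElem?_append_right (not_lt.1 hi), List.getElem?_drop] at h
      refine ⟨((d, true, .inr (k, γ)) :: tbase d q tops,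
        (((tres m d q tops).stk k).length, true, .inr (k, γ))), hm _ ?_,
        i - ((tres m d q tops).stk k).length, Nat.sub_le _ _, ?_, rfl, ?_⟩
      · simp only [rulesFor, List.mem_cons, List.mem_append, List.mem_flatMap, List.mem_map,
          Finset.mem_toList, Finset.mem_univ, true_and, List.mem_range]
        exact Or.inr (Or.inr ⟨(k, γ), rfl⟩)
      · simp only [tpos, cond_true]; omega
      · intro p hp
        rcases List.mem_cons.1 hp with rfl | hp
        · exact ⟨by simp only [tpos, cond_true]; omega, h⟩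
        · exact hb _ p hp

end horn

/-- index of the variable for the fact with time `t`, position `i` and symbol code `s` -/
def fvar (n t i s : ℕ) : ℕ := n + Nat.pair t (Nat.pair i s)

def ruleClause (n t j : ℕ) (r : List (TL ℕ) × TL ℕ) : Clause :=
  (fvar n (t + 1) (tpos j r.2) r.2.2.2, true) ::
    r.1.map (fun p => (fvar n t (tpos j p) p.2.2, false))

def initClauses (c0 : Option Bool → ℕ) (u : Str) (n i : ℕ) : CNF :=
  if i < u.length then [[(fvar n 0 i (c0 u[i]?), true)]]
  else if i < u.length + n then
    [[(i - u.length, false), (fvar n 0 i (c0 (some true)), true)],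
     [(i - u.length, true), (fvar n 0 i (c0 (some false)), true)]]
  else [[(fvar n 0 i (c0 none), true)]]

/-- the tableau formula -/
def tableau (R : List (List (TL ℕ) × TL ℕ)) (d q0 : ℕ) (others : List ℕ) (c0 : Option Bool → ℕ)
    (u : Str) (n T : ℕ) : CNF :=
  [(fvar n T 0 (c0 (some false)), false)] :: [(fvar n 0 0 q0, true)] ::
    ((List.range (d * T + 1)).flatMap (fun i =>
      others.map (fun s => [(fvar n 0 i s, true)]) ++ initClauses c0 u n i) ++
    (List.range T).flatMap (fun t => (List.range (d * T + 1)).flatMap (fun j =>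
      R.map (ruleClause n t j))))

@[fun_prop] theorem PT.natPair {α : Type} [Enc α] {f g : α → ℕ} (hf : PT f) (hg : PT g) :
    PT (fun a => Nat.pair (f a) (g a)) := by
  unfold Nat.pair
  fun_prop

theorem pt_tableau (R : List (List (TL ℕ) × TL ℕ)) (d q0 : ℕ) (others : List ℕ)
    (c0 : Option Bool → ℕ) :
    PT (fun x : Str × ℕ × ℕ => tableau R d q0 others c0 x.1 x.2.1 x.2.2) := by
  have h0 : PT c0 := PT.of_fintype c0
  unfold tableau initClauses ruleClause tpos fvar
  fun_prop

section main

variable {K Λ σ : Type} [DecidableEq K] [Fintype K] [Fintype Λ] [Fintype σ]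

def mapTL {S : Type} (ix : S → ℕ) (p : TL S) : TL ℕ := (p.1, p.2.1, ix p.2.2)

def mapRule {S : Type} (ix : S → ℕ) (r : List (TL S) × TL S) : List (TL ℕ) × TL ℕ :=
  (r.1.map (mapTL ix), mapTL ix r.2)

noncomputable def machineTableau (m : Λ → TM2.Stmt (fun _ : K => Bool) Λ σ) (d : ℕ)
    (ix : Sym K Λ σ → ℕ) (l0 : Λ) (v0 : σ) (k0 : K) (u : Str) (n T : ℕ) : CNF :=
  tableau ((rules m d).map (mapRule ix)) d (ix (.inl (some l0, v0)))
    (((Finset.univ : Finset K).erase k0).toList.map (fun k => ix (.inr (k, none))))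
    (fun o => ix (.inr (k0, o))) u n T

theorem tableau_sound {m : Λ → TM2.Stmt (fun _ : K => Bool) Λ σ} {d : ℕ}
    (hd : ∀ l, depth (m l) ≤ d) (ix : Sym K Λ σ → ℕ) (l0 : Λ) (v0 : σ) (k0 : K) (u w : Str) (T : ℕ)
    (α : ℕ → Bool) (hw : ∀ i < w.length, w[i]? = some (α i))
    (hs : (machineTableau m d ix l0 v0 k0 u w.length T).Sat α) :
    (((nxt m)^[T] ⟨some l0, v0, update (fun _ => []) k0 (u ++ w)⟩).stk k0)[0]? ≠ some false := by
  set c0 : BCfg K Λ σ := ⟨some l0, v0, update (fun _ => []) k0 (u ++ w)⟩ with hc0
  have unit : ∀ x b, [(x, b)] ∈ machineTableau m d ix l0 v0 k0 u w.length T → α x = b := by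
    intro x b h
    simpa using hs _ h
  have key : ∀ t ≤ T, ∀ i s, i + d * t ≤ d * T → Tr ((nxt m)^[t] c0) i s →
      α (fvar w.length t i (ix s)) = true := by
    intro t
    induction t with
    | zero =>
      intro _ i s hi h
      have hin : ∀ c ∈ initClauses (fun o => ix (.inr (k0, o))) u w.length i,
          ∃ l ∈ c, α l.1 = l.2 := fun c hc => hs c (by
        simp only [machineTableau, tableau, List.mem_cons, List.mem_append, List.mem_flatMap,
          List.mem_range]
        exact Or.inr (Or.inr (Or.inl ⟨i, by omega, Or.inr hc⟩)))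
      rcases s with q | ⟨k, γ⟩
      · obtain ⟨rfl, rfl⟩ := h
        exact unit _ _ (by simp [machineTableau, tableau, hc0])
      · simp only [Tr, iterate_zero, id_eq, hc0] at h
        by_cases hk : k = k0
        · subst hk
          simp only [update_self] at h
          unfold initClauses at hin
          split_ifs at hin with h1 h2
          · rw [List.getElem?_append_left h1] at h
            rw [← h]
            simpa using hin
          · rw [List.getElem?_append_right (not_lt.1 h1), hw _ (by omega)] at h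
            rw [← h]
            simp only [List.mem_cons, List.not_mem_nil, or_false, forall_eq_or_imp,
              exists_eq_or_imp, exists_eq_left, forall_eq] at hin
            cases hα : α (i - u.length) <;> simp_all
          · rw [List.getElem?_eq_none (by simp; omega)] at h
            rw [← h]
            simpa using hin
        · simp only [update_of_ne hk, List.getElem?_nil] at h
          subst h
          refine unit _ _ ?_
          simp only [machineTableau, tableau, List.mem_cons, List.mem_append, List.mem_flatMap,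
            List.mem_range, List.mem_map, Finset.mem_toList, Finset.mem_erase]
          exact Or.inr (Or.inr (Or.inl ⟨i, by omega,
            Or.inl ⟨_, ⟨k, ⟨hk, Finset.mem_univ _⟩, rfl⟩, rfl⟩⟩))
    | succ t ih =>
      intro ht i s hi h
      rw [iterate_succ_apply'] at h
      obtain ⟨r, hr, j, hj, rfl, rfl, hp⟩ := rules_derive hd _ _ _ h
      have hc := hs (ruleClause w.length t j (mapRule ix r)) (by
        simp only [machineTableau, tableau, List.mem_cons, List.mem_append, List.mem_flatMap,
          List.mem_range, List.mem_map]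
        exact Or.inr (Or.inr (Or.inr ⟨t, by omega, j, by omega, _, ⟨r, hr, rfl⟩, rfl⟩)))
      simp only [ruleClause, mapRule, List.mem_cons, List.mem_map, exists_eq_or_imp] at hc
      rcases hc with hc | ⟨l, ⟨p', ⟨p, hp', rfl⟩, rfl⟩, hc⟩
      · exact hc
      · have := ih (by omega) (tpos j p) p.2.2 (by
          have := (hp p hp').1
          rw [Nat.mul_succ] at hi; omega) (hp p hp').2
        exact absurd (this.symm.trans hc) (by simp)
  intro h
  have h1 := key T le_rfl 0 (.inr (k0, some false)) (by simp) h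
  have h2 := unit (fvar w.length T 0 (ix (.inr (k0, some false)))) false
    (by simp [machineTableau, tableau])
  exact absurd (h1.symm.trans h2) (by simp)

theorem tableau_complete {m : Λ → TM2.Stmt (fun _ : K => Bool) Λ σ} {d : ℕ}
    (hd : ∀ l, depth (m l) ≤ d) {ix : Sym K Λ σ → ℕ} (hix : Injective ix) (l0 : Λ) (v0 : σ) (k0 : K)
    (u w : Str) (T : ℕ)
    (h : (((nxt m)^[T] ⟨some l0, v0, update (fun _ => []) k0 (u ++ w)⟩).stk k0)[0]? ≠ some false) :
    ∃ α : ℕ → Bool, (∀ i < w.length, w[i]? = some (α i)) ∧
      (machineTableau m d ix l0 v0 k0 u w.length T).Sat α := by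
  classical
  set c0 : BCfg K Λ σ := ⟨some l0, v0, update (fun _ => []) k0 (u ++ w)⟩ with hc0
  let α : ℕ → Bool := fun x => if x < w.length then w.getD x false else
    decide (∃ t i s, x = fvar w.length t i (ix s) ∧ Tr ((nxt m)^[t] c0) i s)
  have hα : ∀ t i s, α (fvar w.length t i (ix s)) = true ↔ Tr ((nxt m)^[t] c0) i s := by
    intro t i s
    have : ¬ fvar w.length t i (ix s) < w.length := by simp [fvar]
    simp only [α, this, if_false, decide_eq_true_eq]
    refine ⟨?_, fun h => ⟨t, i, s, rfl, h⟩⟩
    rintro ⟨t', i', s', e, h⟩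
    simp only [fvar, add_right_inj, Nat.pair_eq_pair, hix.eq_iff] at e
    obtain ⟨rfl, rfl, rfl⟩ := e
    exact h
  have hw : ∀ i < w.length, w[i]? = some (α i) := fun i hi => by simp [α, hi]
  refine ⟨α, hw, fun c hc => ?_⟩
  simp only [machineTableau, tableau, List.mem_cons, List.mem_append, List.mem_flatMap,
    List.mem_range, List.mem_map, Finset.mem_toList, Finset.mem_erase] at hc
  rcases hc with rfl | rfl | ⟨i, _, ⟨_, ⟨k, ⟨hk, _⟩, rfl⟩, rfl⟩ | hc⟩ |
    ⟨t, _, j, _, _, ⟨r, hr, rfl⟩, rfl⟩
  · refine ⟨_, List.mem_cons_self, ?_⟩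
    rw [← Bool.not_eq_true, hα]
    exact h
  · exact ⟨_, List.mem_cons_self, (hα _ _ _).2 ⟨rfl, rfl⟩⟩
  · exact ⟨_, List.mem_cons_self, (hα _ _ _).2 (by simp [Tr, hc0, hk])⟩
  · unfold initClauses at hc
    split_ifs at hc with h1 h2
    · obtain rfl := List.mem_singleton.1 hc
      exact ⟨_, List.mem_cons_self, (hα _ _ _).2 (by simp [Tr, hc0, List.getElem?_append_left h1])⟩
    · have h3 : (u ++ w)[i]? = some (α (i - u.length)) := by
        rw [List.getElem?_append_right (not_lt.1 h1), hw _ (by omega)]
      simp only [List.mem_cons, List.not_mem_nil, or_false] at hc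
      rcases hc with rfl | rfl
      · cases hb : α (i - u.length)
        · exact ⟨_, List.mem_cons_self, hb⟩
        · exact ⟨_, List.mem_cons_of_mem _ List.mem_cons_self,
            (hα _ _ _).2 (by simp [Tr, hc0, h3, hb])⟩
      · cases hb : α (i - u.length)
        · exact ⟨_, List.mem_cons_of_mem _ List.mem_cons_self,
            (hα _ _ _).2 (by simp [Tr, hc0, h3, hb])⟩
        · exact ⟨_, List.mem_cons_self, hb⟩
    · obtain rfl := List.mem_singleton.1 hc
      exact ⟨_, List.mem_cons_self, (hα _ _ _).2 (by simp [Tr, hc0]; omega)⟩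
  · by_cases hp : ∀ p ∈ r.1, Tr ((nxt m)^[t] c0) (tpos j p) p.2.2
    · have := rules_valid hd _ j r hr hp
      rw [← iterate_succ_apply' (nxt m)] at this
      exact ⟨_, List.mem_cons_self, (hα _ _ _).2 this⟩
    · push Not at hp
      obtain ⟨p, hp1, hp2⟩ := hp
      refine ⟨(fvar w.length t (tpos j p) (ix p.2.2), false), List.mem_cons_of_mem _ ?_, ?_⟩
      · simp only [mapRule, List.mem_map]
        exact ⟨_, ⟨p, hp1, rfl⟩, rfl⟩
      · rw [← Bool.not_eq_true, hα]
        exact hp2

end main

theorem RPT.run {α β : Type} {ea : α → Str} {eb : β → Str} {f : α → β} (h : RPT ea eb f) :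
    ∃ (M : ℕ) (Λ : Type) (_ : Fintype Λ) (m : Λ → TM2.Stmt (fun _ : Fin (M + 1) => Bool) Λ Bool)
      (l0 : Λ) (p : Polynomial ℕ), ∀ a, ∀ T, p.eval (ea a).length ≤ T →
        ((nxt m)^[T] ⟨some l0, false, update (fun _ => []) 0 (ea a)⟩).stk 0 = eb (f a) := by
  obtain ⟨P, N, p, h⟩ := h
  refine ⟨P.bnd, P.Lab, P.labFintype, P.code (rho P.bnd) _root_.id .halt, P.entry, p, fun a T hT => ?_⟩
  have h1 := h a (update (fun _ => []) 0 (ea a)) (by simp) (fun i h1 _ => by
    rw [update_of_ne (by omega)])
  obtain ⟨n, ln, e⟩ := h1.sim (M := P.bnd) (P.code (rho P.bnd) _root_.id .halt) _root_.id .halt le_rfl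
    (fun _ => rfl)
  have e1 : res P.bnd (update (fun _ => []) 0 (ea a)) = update (fun _ => []) 0 (ea a) := by
    funext k
    by_cases hk : k = 0
    · subst hk; simp [res]
    · have : k.val ≠ 0 := fun e => hk (Fin.ext e)
      simp [res, hk, this]
  rw [e1] at e
  have e2 := nxt_of_run_le _ e rfl (ln.trans hT)
  simp only [id_eq] at e2
  rw [e2]
  simp [res]

/-- Cook and Levin with designated witness variables: the first `n` variables of the formula
carry the witness. -/
theorem cook_levin_pt {α : Type} [Enc α] {R : α × Str → Bool} (hR : PT R) :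
    ∃ ψ : α × ℕ → CNF, PT ψ ∧ ∀ (a : α) (w : Str), R (a, w) = true ↔
      ∃ v : ℕ → Bool, (∀ i < w.length, w[i]? = some (v i)) ∧ (ψ (a, w.length)).Sat v := by
  have hp := PT.parse'
  have hrd : PT (fun s : Str => T.node (PT.parse s) (enc (s.drop (PT.parse s).bits.length))) := by
    fun_prop
  have h1 : RPT (fun x : α × Str => (enc x.1).bits ++ x.2) (fun x : α × Str => (enc x).bits)
      fun x => x := by
    have h0 : RPT (fun l : Str => (strT l).bits) T.bits
        (fun s : Str => T.node (PT.parse s) (enc (s.drop (PT.parse s).bits.length))) := by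
      simp only [strT_eq]; exact hrd
    refine RPT.congr (h0.comp rpt_toT) (fun x : α × Str => (enc x.1).bits ++ x.2) (fun _ => rfl)
      fun x => ?_
    have : PT.parse ((enc x.1).bits ++ x.2) = enc x.1 := by
      rw [PT.parse, PT.parse_bits]; rfl
    simp only [this, List.drop_left]
    rfl
  have h2 : RPT (fun b : Bool => (enc b).bits) (fun b : Bool => [b]) fun b => b := by
    have hw : PT (fun b : Bool => [b]) := by fun_prop
    have h0 : RPT (fun b : Bool => (enc b).bits) (fun l : Str => (strT l).bits)
        (fun b : Bool => [b]) := by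
      simp only [strT_eq]; exact hw
    exact RPT.congr (rpt_ofT.comp h0) (fun b => b) (fun _ => rfl) fun _ => rfl
  obtain ⟨M, Λ, _, m, l0, p, hrun⟩ := (h2.comp (RPT.comp hR h1)).run
  let d : ℕ := Finset.univ.sup (fun l => depth (m l))
  have hd : ∀ l, depth (m l) ≤ d := fun l =>
    Finset.le_sup (f := fun l => depth (m l)) (Finset.mem_univ l)
  let ix : Sym (Fin (M + 1)) Λ Bool → ℕ := fun s => (Fintype.equivFin _ s : ℕ)
  have hix : Injective ix := fun _ _ h => (Fintype.equivFin _).injective (Fin.ext h)
  refine ⟨fun x => machineTableau m d ix l0 false 0 (enc x.1).bits x.2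
    (p.eval ((enc x.1).bits.length + x.2)), ?_, fun a w => ?_⟩
  · refine (pt_tableau _ _ _ _ _).comp (f := fun x : α × ℕ =>
      ((enc x.1).bits, x.2, p.eval ((enc x.1).bits.length + x.2))) ?_
    exact PT.prodMk (by fun_prop) (PT.prodMk (by fun_prop) (PT.poly_eval (by fun_prop) p))
  · have h3 := hrun (a, w) (p.eval ((enc a).bits.length + w.length)) (by simp)
    constructor
    · intro h
      exact tableau_complete hd hix l0 false 0 _ w _ (by rw [h3]; simp [h])
    · rintro ⟨v, hv, hs⟩
      have := tableau_sound hd ix l0 false 0 _ w _ v hv hs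
      rw [h3] at this
      simpa using this

end Pool.Agent.Lib.Complexity
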